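import Pool.Agent.TightN.DefsN
import Pool.Agent.PHW.Masses

/-!
TIGHT, part S2, module TN9: the two inputs (CU), (TEF) from the fold lemma fold_gen and the masses hout of PHW.
-/

set_option autoImplicit false

namespace HexObs

open Finset

open scoped ENNReal

namespace TS

private lemma tn9_sw_rev (r : ℕ) (Φ : List Bool → ℝ≥0∞) :
    Rec8.sw (Irr r) (fun P => Φ (rev P)) = Rec8.sw (Irr r) Φ := by
  unfold Rec8.sw
  let e : {P : List Bool // P ∈ Irr r} ≃ {P : List Bool // P ∈ Irr r} :=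
    ⟨fun P => ⟨rev P.1, Irr_rev P.2⟩, fun P => ⟨rev P.1, Irr_rev P.2⟩, fun P => Subtype.ext (rev_rev P.1),
      fun P => Subtype.ext (rev_rev P.1)⟩
  rw [← Equiv.tsum_eq e (fun P : {P : List Bool // P ∈ Irr r} => wE P.1 * Φ P.1)]
  refine tsum_congr fun P => ?_
  show wE P.1 * Φ (rev P.1) = wE (rev P.1) * Φ (rev P.1)
  rw [Wall.wE_rev]

private lemma tn9_sw_IrrB (l : ℕ) (Φ : List Bool → ℝ≥0∞) :
    Rec8.sw (IrrB l) Φ ≤ ∑ r ∈ Ico (2 ^ l) (2 ^ (l + 1)), Rec8.sw (Irr r) Φ := by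
  classical
  simp_rw [Rec8.sw_ind]
  rw [← Summable.tsum_finsetSum (fun _ _ => ENNReal.summable)]
  refine ENNReal.tsum_le_tsum fun t => ?_
  by_cases ht : t ∈ IrrB l
  · rw [if_pos ht]
    obtain ⟨r, hr, hP⟩ := ht
    have hr1 := Irr_pos hP
    have hr2 : r ∈ Ico (2 ^ l) (2 ^ (l + 1)) := by
      rw [Finset.mem_Ico]
      obtain ⟨h1, h2⟩ := hr
      refine ⟨?_, h1⟩
      rcases h2 with h2 | h2
      · exact h2
      · rw [h2, pow_zero]
        exact hr1
    refine le_trans ?_ (Finset.single_le_sum (f := fun r => if t ∈ Irr r then wE t * Φ t else 0)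
      (fun _ _ => bot_le) hr2)
    show _ ≤ (if t ∈ Irr r then wE t * Φ t else 0)
    rw [if_pos hP]
  · rw [if_neg ht]
    exact bot_le

/-- fold_gen, the gain is at most 1 -/
theorem cuh_of (h5 : Fld.S5) : CUH := by
  obtain ⟨ε, C, hε0, hε1, hC, h⟩ := Fld.fold_gen h5 0
  refine ⟨C, hC, fun D a b hba hD I => ?_⟩
  have hD' : 2 ^ (a + 2) ≤ D := le_trans (Nat.pow_le_pow_right (by norm_num) (by omega)) hD
  refine (h D a b I hba hD').trans (ENNReal.ofReal_le_ofReal ?_)
  have hU : 0 < UU (2 ^ a) := Num2Aux.UU_pos _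
  exact mul_le_of_le_one_right (by positivity) (pow_le_one₀ (by linarith) (by linarith))

/-- fold_gen: EE D b a I ≤ C Ub a * fout ε A D b a (rev I) (A from hout); the sum over I in IrrB l is reversal
invariant. l ≥ a: hout and the trivial mass bound C / Ub l, min (1, x) ≤ x ^ θ' with θ' = min θ 1.
l < a: fout_anti to the scales (b, l], hout with a = l; l < b: trivial bound -/
theorem tef_of (h5 : Fld.S5) {C0 c : ℝ} (hC0 : 0 < C0) (hc : 0 < c) (hDR : ∀ y τ R : ℕ, 1 ≤ y → y ≤ τ →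
    ∑ r ∈ Finset.range R, KR y τ r ≤ ENNReal.ofReal (C0 / UU τ * ((y : ℝ) / τ) ^ c)) : TEF := by
  classical
  intro θ hθ
  obtain ⟨A, hA⟩ := Fld.hout hC0 hc hDR
  obtain ⟨ε, C1, hε0, hε1, hC1, hfold⟩ := Fld.fold_gen h5 A
  obtain ⟨C2, ρ, hC2, hρ0, hρ1, hmass⟩ := hA ε hε0 hε1
  -- exponents
  obtain ⟨θ', hθ'⟩ : ∃ θ', θ' = min θ 1 := ⟨_, rfl⟩
  have hθ0 : 0 < θ' := by rw [hθ']; exact lt_min hθ one_pos
  have hθ1 : θ' ≤ 1 := by rw [hθ']; exact min_le_right _ _
  have hθθ : θ' ≤ θ := by rw [hθ']; exact min_le_left _ _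
  obtain ⟨g, hg⟩ : ∃ g : ℝ, g = Real.logb 2 (1 / ρ) := ⟨_, rfl⟩
  have hg0 : 0 < g := by
    rw [hg]
    apply Real.logb_pos (by norm_num)
    rw [lt_div_iff₀ hρ0]
    linarith
  have hρg : ρ = (2 : ℝ) ^ (-g) := by
    rw [hg, Real.rpow_neg (by norm_num), Real.rpow_logb (by norm_num) (by norm_num) (by positivity)]
    rw [one_div, inv_inv]
  refine ⟨C1 * (C2 + 2), θ' * g, by positivity, by positivity, fun D a b l hba hD => ?_⟩
  have hD2 : 2 ^ (a + 2) ≤ D := le_trans (Nat.pow_le_pow_right (by norm_num) (by omega)) hD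
  have hD1 : 2 ^ (a + 1) ≤ D := le_trans (Nat.pow_le_pow_right (by norm_num) (by omega)) hD
  have hUa : 0 < Ub a := Num2Aux.UU_pos _
  have hUl : 0 < Ub l := Num2Aux.UU_pos _
  -- one giant
  have hone : ∀ I : List Bool, EE D b a I ≤
      ENNReal.ofReal (C1 * Ub a) * ENNReal.ofReal (Fld.fout ε A D b a (rev I)) := by
    intro I
    rw [← ENNReal.ofReal_mul (by positivity)]
    have h := hfold D a b I hba hD2
    unfold Fld.fout
    rw [rev_rev]
    exact h
  -- the masses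
  have hM : ∑ r ∈ Ico (2 ^ l) (2 ^ (l + 1)), Rec8.sw (Irr r) (fun I => ENNReal.ofReal (Fld.fout ε A D b a I)) ≤
      ENNReal.ofReal ((C2 + 2) / Ub l * (2 : ℝ) ^ (θ * ((l - a : ℕ) : ℝ)) *
        (2 : ℝ) ^ (-(θ' * g * ((min a l - b : ℕ) : ℝ)))) := by
    have htriv : ∑ r ∈ Ico (2 ^ l) (2 ^ (l + 1)), Rec8.sw (Irr r) (fun I => ENNReal.ofReal (Fld.fout ε A D b a I)) ≤
        ENNReal.ofReal (2 / Ub l) := by
      refine le_trans (Finset.sum_le_sum fun r _ => ?_) (Fld.tail_pow l (2 ^ (l + 1)))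
      rw [← Rec8.sw_one]
      exact Rec8.sw_mono' fun I _ => ENNReal.ofReal_le_one.2 (Fld.fout_le_one hε0.le hε1.le A D b a I)
    rcases Nat.lt_or_ge l a with hla | hla
    · -- l < a
      have e1 : min a l = l := min_eq_right hla.le
      have e2 : l - a = 0 := by omega
      rw [e1, e2, Nat.cast_zero, mul_zero, Real.rpow_zero, mul_one]
      rcases Nat.lt_or_ge l b with hlb | hlb
      · rw [show l - b = 0 by omega, Nat.cast_zero, mul_zero, neg_zero, Real.rpow_zero, mul_one]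
        refine htriv.trans (ENNReal.ofReal_le_ofReal ?_)
        gcongr
        linarith
      · have h1 : 2 ^ (l + 1) ≤ D := le_trans (Nat.pow_le_pow_right (by norm_num) (by omega)) hD1
        refine le_trans ?_ ((hmass A D l b l (2 ^ (l + 1)) le_rfl hlb le_rfl h1).trans (ENNReal.ofReal_le_ofReal ?_))
        · refine Finset.sum_le_sum fun r _ => ?_
          exact Rec8.sw_mono' fun I _ => ENNReal.ofReal_le_ofReal (Fld.fout_anti hε0.le hε1.le I hla.le)
        · rw [Nat.sub_self, pow_zero, mul_one]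
          have h2 : ρ ^ (l - b) ≤ (2 : ℝ) ^ (-(θ' * g * ((l - b : ℕ) : ℝ))) := by
            rw [← Real.rpow_natCast, hρg, ← Real.rpow_mul (by norm_num)]
            apply Real.rpow_le_rpow_of_exponent_le (by norm_num)
            have h3 : 0 ≤ g * ((l - b : ℕ) : ℝ) := by positivity
            nlinarith
          show C2 / Ub l * ρ ^ (l - b) ≤ _
          gcongr
          linarith
    · -- a ≤ l
      have e1 : min a l = a := min_eq_left hla
      rw [e1]
      have hm := hmass A D a b l (2 ^ (l + 1)) le_rfl hba hla hD1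
      obtain ⟨x, hx⟩ : ∃ x : ℝ, x = 2 ^ (l - a) * ρ ^ (a - b) := ⟨_, rfl⟩
      have hx0 : 0 < x := by rw [hx]; positivity
      have hxle : ∑ r ∈ Ico (2 ^ l) (2 ^ (l + 1)), Rec8.sw (Irr r) (fun I => ENNReal.ofReal (Fld.fout ε A D b a I)) ≤
          ENNReal.ofReal ((C2 + 2) / Ub l * x ^ θ') := by
        rcases le_total x 1 with hx1 | hx1
        · refine hm.trans (ENNReal.ofReal_le_ofReal ?_)
          have h1 : x ≤ x ^ θ' := by
            have := Real.rpow_le_rpow_of_exponent_ge hx0 hx1 hθ1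
            rwa [Real.rpow_one] at this
          have h2 : (0 : ℝ) < x ^ θ' := by positivity
          calc C2 / UU (2 ^ l) * 2 ^ (l - a) * ρ ^ (a - b) = C2 / Ub l * x := by
                rw [hx]
                unfold Ub
                ring
            _ ≤ (C2 + 2) / Ub l * x ^ θ' := by
                gcongr
                linarith
        · refine htriv.trans (ENNReal.ofReal_le_ofReal ?_)
          have h1 : 1 ≤ x ^ θ' := Real.one_le_rpow hx1 hθ0.le
          calc 2 / Ub l ≤ (C2 + 2) / Ub l := by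
                gcongr
                linarith
            _ ≤ (C2 + 2) / Ub l * x ^ θ' := le_mul_of_one_le_right (by positivity) h1
      refine hxle.trans (ENNReal.ofReal_le_ofReal ?_)
      have h3 : x ^ θ' = (2 : ℝ) ^ (θ' * ((l - a : ℕ) : ℝ)) * (2 : ℝ) ^ (-(θ' * g * ((a - b : ℕ) : ℝ))) := by
        rw [hx, Real.mul_rpow (by positivity) (by positivity), ← Real.rpow_natCast, ← Real.rpow_natCast,
          hρg, ← Real.rpow_mul (by positivity), ← Real.rpow_mul (by positivity), ← Real.rpow_mul (by positivity)]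
        congr 2
        · ring
        · ring
      rw [h3, ← mul_assoc]
      gcongr
      norm_num
  calc Rec8.sw (IrrB l) (fun I => EE D b a I)
      ≤ Rec8.sw (IrrB l) (fun I => ENNReal.ofReal (C1 * Ub a) * ENNReal.ofReal (Fld.fout ε A D b a (rev I))) :=
        Rec8.sw_mono' fun I _ => hone I
    _ = ENNReal.ofReal (C1 * Ub a) * Rec8.sw (IrrB l) (fun I => ENNReal.ofReal (Fld.fout ε A D b a (rev I))) :=
        Rec8.sw_mul_left _ _ _
    _ ≤ ENNReal.ofReal (C1 * Ub a) *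
        ∑ r ∈ Ico (2 ^ l) (2 ^ (l + 1)), Rec8.sw (Irr r) (fun I => ENNReal.ofReal (Fld.fout ε A D b a (rev I))) := by
        gcongr
        exact tn9_sw_IrrB l _
    _ = ENNReal.ofReal (C1 * Ub a) *
        ∑ r ∈ Ico (2 ^ l) (2 ^ (l + 1)), Rec8.sw (Irr r) (fun I => ENNReal.ofReal (Fld.fout ε A D b a I)) := by
        congr 1
        exact Finset.sum_congr rfl fun r _ => tn9_sw_rev r (fun I => ENNReal.ofReal (Fld.fout ε A D b a I))
    _ ≤ ENNReal.ofReal (C1 * Ub a) * ENNReal.ofReal ((C2 + 2) / Ub l * (2 : ℝ) ^ (θ * ((l - a : ℕ) : ℝ)) *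
        (2 : ℝ) ^ (-(θ' * g * ((min a l - b : ℕ) : ℝ)))) := by
        gcongr
    _ = ENNReal.ofReal (C1 * (C2 + 2) * TT θ (θ' * g) l a b) := by
        rw [← ENNReal.ofReal_mul (by positivity)]
        congr 1
        unfold TT
        ring

end TS

end HexObs
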