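import Pool.Agent.TightN.FinN
import Pool.Agent.TightN.Inputs
import Pool.Agent.TightS.StarLev
import Pool.Agent.PHW5.Out
import Pool.Agent.PHW8.In8H

/-!
TIGHT: the crossing estimate for the vertical coordinate, unconditionally.
-/

set_option autoImplicit false

namespace HexObs

/-- the crossing estimate for the level -/
theorem star_one : Star lev := by
  obtain ⟨C, c, hC, hc, hDR⟩ := deep_returns (foldGain_of (fun A => Fld.fold_H6 S5_out A))
  exact TS.star_lev (TS.normS_Fold (TS.cuh_of S5_out) (TS.tef_of S5_out hC hc hDR))

end HexObs
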