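import Pool.Agent.TightN.DefsN
import Pool.Agent.TightS.PairStep

/-!
TIGHT, part S2, module TN5c: the bad pairs of levels.
-/

set_option autoImplicit false

namespace HexObs

open Finset

open scoped ENNReal

open Rec8 (sw mb)

namespace TS

namespace BadR

lemma le_sB {A : Set (List Bool)} {F : List Bool → ℝ≥0∞} {t : List Bool} (h : t ∈ A) : F t ≤ sB A F := by
  unfold sB
  exact ENNReal.le_tsum (f := fun t : {t : List Bool // t ∈ A} => F t.1) ⟨t, h⟩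

lemma sB_IU_le (F : List Bool → ℝ≥0∞) : sB IU F ≤ ∑' h : ℕ, sB (Irr h) F := by
  have h1 : IU = ⋃ h, Irr h := by
    ext t
    rw [Set.mem_iUnion]
    exact Iff.rfl
  rw [h1]
  exact ENNReal.tsum_iUnion_le_tsum F (fun h => Irr h)

lemma mu_sum (j n r : ℕ) : mu j n r = ∑ l ∈ Ico (2 ^ j) (2 ^ (j + 1)),
    if n ≤ l ∧ l < n + r then ((2 : ℝ≥0∞) ^ j)⁻¹ else 0 := by
  unfold mu
  rw [← Finset.sum_filter, Finset.sum_const, nsmul_eq_mul, div_eq_mul_inv]

lemma sw_eq_sB (A : Set (List Bool)) (Φ : List Bool → ℝ≥0∞) : sw A Φ = sB A (fun t => wE t * Φ t) := rfl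

/-- one pair of levels -/
lemma cover {D N k j1 : ℕ} (h1 : j1 + 1 ≤ k) (hk : 2 ^ (k + 1) ≤ D) {g : List Bool} (hg : g ∈ BrR D N) {l1 l2 : ℕ}
    (hl1 : l1 ∈ Ico (2 ^ j1) (2 ^ (j1 + 1))) (hl2 : l2 ∈ Ico (2 ^ k) (2 ^ (k + 1))) :
    (∃ X ∈ BU, ∃ P ∈ IU, ∃ Z ∈ BU, X ++ (P ++ Z) = g ∧ (hgt X ≤ l1 ∧ l1 < hgt X + hgt P) ∧
      (hgt X ≤ l2 ∧ l2 < hgt X + hgt P)) ∨
    (∃ X ∈ BU, ∃ P ∈ IU, ∃ V ∈ BU, ∃ P2 ∈ IU, ∃ Q ∈ BU, X ++ (P ++ (V ++ (P2 ++ Q))) = g ∧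
      (hgt X ≤ l1 ∧ l1 < hgt X + hgt P) ∧
      (hgt X + hgt P + hgt V ≤ l2 ∧ l2 < hgt X + hgt P + hgt V + hgt P2)) := by
  obtain ⟨h, hD, _, hg⟩ := hg
  rw [Finset.mem_Ico] at hl1 hl2
  have e1 : 2 ^ (j1 + 1) ≤ 2 ^ k := Nat.pow_le_pow_right (by norm_num) h1
  obtain ⟨j, r, a, p, u, c1, c2, c3, ha, hp, hu, rfl⟩ := jump_dec (s := l1) (by omega) hg
  have hga := hgt_eq ha
  have hgp := hgt_eq hp.1
  by_cases hc : l2 < j + r
  · refine Or.inl ⟨a, ⟨j, ha⟩, p, ⟨r, hp⟩, u, ⟨_, hu⟩, by rw [List.append_assoc], ?_, ?_⟩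
    · rw [hga, hgp]
      exact ⟨c1, c2⟩
    · rw [hga, hgp]
      exact ⟨by omega, hc⟩
  · obtain ⟨j', r', v, p2, q, d1, d2, d3, hv, hp2, hq, rfl⟩ := jump_dec (s := l2 - j - r) (by omega) hu
    have hgv := hgt_eq hv
    have hgp2 := hgt_eq hp2.1
    refine Or.inr ⟨a, ⟨j, ha⟩, p, ⟨r, hp⟩, v, ⟨j', hv⟩, p2, ⟨r', hp2⟩, q, ⟨_, hq⟩, ?_, ?_, ?_⟩
    · simp only [List.append_assoc]
    · rw [hga, hgp]
      exact ⟨c1, c2⟩
    · rw [hga, hgp, hgv, hgp2]
      exact ⟨by omega, by omega⟩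

open Classical in
noncomputable def bad3 (k j1 : ℕ) (g : List Bool) : ℝ≥0∞ :=
  sB BU fun X => sB IU fun P => sB BU fun Z =>
    if X ++ (P ++ Z) = g then mu j1 (hgt X) (hgt P) * mu k (hgt X) (hgt P) else 0

open Classical in
noncomputable def bad5 (k j1 j3 : ℕ) (g : List Bool) : ℝ≥0∞ :=
  sB BU fun X => sB IU fun P1 => sB BU fun V => sB IU fun P2 => sB BU fun Q =>
    if X ++ (P1 ++ (V ++ (P2 ++ Q))) = g ∧ hgt V < 2 ^ j3 then
      mu j1 (hgt X) (hgt P1) * mu k (hgt X + hgt P1 + hgt V) (hgt P2) else 0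

open Classical in
/-- every pair of levels is counted -/
theorem one_le {D N k j1 j3 : ℕ} (h1 : j1 + 1 ≤ k) (hk : 2 ^ (k + 1) ≤ D) {g : List Bool} (hg : g ∈ BrR D N) :
    1 ≤ gam k j1 j3 g + (bad3 k j1 g + bad5 k j1 j3 g) := by
  obtain ⟨I, hI⟩ : ∃ I : Finset (ℕ × ℕ), I = Ico (2 ^ j1) (2 ^ (j1 + 1)) ×ˢ Ico (2 ^ k) (2 ^ (k + 1)) := ⟨_, rfl⟩
  obtain ⟨e, he⟩ : ∃ e : ℕ → ℕ → ℕ → ℕ → ℕ × ℕ → ℝ≥0∞, e = fun a b c d i =>
    (if a ≤ i.1 ∧ i.1 < a + b then ((2 : ℝ≥0∞) ^ j1)⁻¹ else 0) *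
      (if c ≤ i.2 ∧ i.2 < c + d then ((2 : ℝ≥0∞) ^ k)⁻¹ else 0) := ⟨_, rfl⟩
  have hmm : ∀ a b c d, mu j1 a b * mu k c d = ∑ i ∈ I, e a b c d i := by
    intro a b c d
    rw [mu_sum, mu_sum, Finset.sum_mul_sum, hI, Finset.sum_product, he]
  have hgam : gam k j1 j3 g = ∑ i ∈ I, sB BU fun M => sB IU fun P1 => sB BU fun V => sB IU fun P2 => sB BU fun Q =>
        if M ++ (P1 ++ (V ++ (P2 ++ Q))) = g ∧ 2 ^ j3 ≤ hgt V then
          e (hgt M) (hgt P1) (hgt M + hgt P1 + hgt V) (hgt P2) i else 0 := by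
    unfold gam
    simp only [← sB_finset]
    refine sB_congr fun M _ => sB_congr fun P1 _ => sB_congr fun V _ => sB_congr fun P2 _ => sB_congr fun Q _ => ?_
    split_ifs
    · exact hmm _ _ _ _
    · rw [Finset.sum_const_zero]
  have hb3 : bad3 k j1 g = ∑ i ∈ I, sB BU fun X => sB IU fun P => sB BU fun Z =>
        if X ++ (P ++ Z) = g then e (hgt X) (hgt P) (hgt X) (hgt P) i else 0 := by
    unfold bad3
    simp only [← sB_finset]
    refine sB_congr fun M _ => sB_congr fun P1 _ => sB_congr fun Q _ => ?_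
    split_ifs
    · exact hmm _ _ _ _
    · rw [Finset.sum_const_zero]
  have hb5 : bad5 k j1 j3 g = ∑ i ∈ I, sB BU fun M => sB IU fun P1 => sB BU fun V => sB IU fun P2 => sB BU fun Q =>
        if M ++ (P1 ++ (V ++ (P2 ++ Q))) = g ∧ hgt V < 2 ^ j3 then
          e (hgt M) (hgt P1) (hgt M + hgt P1 + hgt V) (hgt P2) i else 0 := by
    unfold bad5
    simp only [← sB_finset]
    refine sB_congr fun M _ => sB_congr fun P1 _ => sB_congr fun V _ => sB_congr fun P2 _ => sB_congr fun Q _ => ?_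
    split_ifs
    · exact hmm _ _ _ _
    · rw [Finset.sum_const_zero]
  have hone : (1 : ℝ≥0∞) = ∑ i ∈ I, ((2 : ℝ≥0∞) ^ j1)⁻¹ * ((2 : ℝ≥0∞) ^ k)⁻¹ := by
    rw [Finset.sum_const, hI, Finset.card_product, Nat.card_Ico, Nat.card_Ico, nsmul_eq_mul]
    have e1 : 2 ^ (j1 + 1) - 2 ^ j1 = 2 ^ j1 := by
      rw [pow_succ]
      omega
    have e2 : 2 ^ (k + 1) - 2 ^ k = 2 ^ k := by
      rw [pow_succ]
      omega
    rw [e1, e2]
    push_cast
    have n1 : ((2 : ℝ≥0∞) ^ j1) * ((2 : ℝ≥0∞) ^ j1)⁻¹ = 1 :=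
      ENNReal.mul_inv_cancel (by simp) (by simp)
    have n2 : ((2 : ℝ≥0∞) ^ k) * ((2 : ℝ≥0∞) ^ k)⁻¹ = 1 :=
      ENNReal.mul_inv_cancel (by simp) (by simp)
    calc (1 : ℝ≥0∞) = (((2 : ℝ≥0∞) ^ j1) * ((2 : ℝ≥0∞) ^ j1)⁻¹) * (((2 : ℝ≥0∞) ^ k) * ((2 : ℝ≥0∞) ^ k)⁻¹) := by
          rw [n1, n2, one_mul]
      _ = _ := by ring
  rw [hgam, hb3, hb5, ← Finset.sum_add_distrib, ← Finset.sum_add_distrib, hone]
  refine Finset.sum_le_sum fun i hi => ?_
  rw [hI, Finset.mem_product] at hi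
  rcases cover h1 hk hg hi.1 hi.2 with ⟨X, hX, P, hP, Z, hZ, c1, c2, c3⟩ |
    ⟨X, hX, P, hP, V, hV, P2, hP2, Q, hQ, c1, c2, c3⟩
  · refine le_trans ?_ le_add_self
    refine le_trans ?_ le_self_add
    refine le_trans ?_ (le_sB hX)
    refine le_trans ?_ (le_sB hP)
    refine le_trans ?_ (le_sB hZ)
    rw [if_pos c1, he]
    simp only [if_pos c2, if_pos c3, le_refl]
  · by_cases hv : 2 ^ j3 ≤ hgt V
    · refine le_trans ?_ le_self_add
      refine le_trans ?_ (le_sB hX)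
      refine le_trans ?_ (le_sB hP)
      refine le_trans ?_ (le_sB hV)
      refine le_trans ?_ (le_sB hP2)
      refine le_trans ?_ (le_sB hQ)
      rw [if_pos ⟨c1, hv⟩, he]
      simp only [if_pos c2, if_pos c3, le_refl]
    · refine le_trans ?_ le_add_self
      refine le_trans ?_ le_add_self
      refine le_trans ?_ (le_sB hX)
      refine le_trans ?_ (le_sB hP)
      refine le_trans ?_ (le_sB hV)
      refine le_trans ?_ (le_sB hP2)
      refine le_trans ?_ (le_sB hQ)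
      rw [if_pos ⟨c1, not_le.1 hv⟩, he]
      simp only [if_pos c2, if_pos c3, le_refl]

theorem bet_le {D N k j1 j3 : ℕ} (h1 : j1 + 1 ≤ k) (hk : 2 ^ (k + 1) ≤ D) {g : List Bool} (hg : g ∈ BrR D N) :
    bet k j1 j3 g ≤ bad3 k j1 g + bad5 k j1 j3 g := by
  unfold bet
  rw [tsub_le_iff_left]
  exact one_le h1 hk hg

open Classical in
theorem sum3 (S : Set (List Bool)) (k j1 : ℕ) (G : List Bool → ℝ≥0∞) :
    sw S (fun g => bad3 k j1 g * G g) ≤ ∑' n : ℕ, ∑' r : ℕ, mu j1 n r * sw (Brd n) (fun X =>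
      sw (Irr r) (fun P => mu k n r * sw {Z | Z ∈ BU ∧ X ++ (P ++ Z) ∈ S} (fun Z => G (X ++ (P ++ Z))))) := by
  have e1 : ∀ g, wE g * (bad3 k j1 g * G g) =
      sB BU fun X => sB IU fun P => sB BU fun Z => if X ++ (P ++ Z) = g then
          wE (X ++ (P ++ Z)) * (mu j1 (hgt X) (hgt P) * mu k (hgt X) (hgt P) * G (X ++ (P ++ Z))) else 0 := by
    intro g
    have : wE g * (bad3 k j1 g * G g) = (wE g * G g) * bad3 k j1 g := by ring
    rw [this]
    unfold bad3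
    rw [← sB_mul]
    refine sB_congr fun M _ => ?_
    rw [← sB_mul]
    refine sB_congr fun P1 _ => ?_
    rw [← sB_mul]
    refine sB_congr fun V _ => ?_
    by_cases h1 : M ++ (P1 ++ V) = g
    · rw [if_pos h1, if_pos h1, h1]
      ring
    · rw [if_neg h1, if_neg h1, mul_zero]
  have e2 : sw S (fun g => bad3 k j1 g * G g) =
      sB BU fun X => sB IU fun P => sB BU fun Z => if X ++ (P ++ Z) ∈ S then
          wE (X ++ (P ++ Z)) * (mu j1 (hgt X) (hgt P) * mu k (hgt X) (hgt P) * G (X ++ (P ++ Z))) else 0 := by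
    rw [sw_eq_sB, sB_congr fun g' _ => e1 g', sB_swap]
    refine sB_congr fun M _ => ?_
    rw [sB_swap]
    refine sB_congr fun P1 _ => ?_
    rw [sB_swap]
    refine sB_congr fun V _ => ?_
    exact sB_single S (M ++ (P1 ++ V)) (fun _ =>
          wE (M ++ (P1 ++ V)) * (mu j1 (hgt M) (hgt P1) * mu k (hgt M) (hgt P1) * G (M ++ (P1 ++ V))))
  rw [e2]
  refine (sB_BU_le _).trans (ENNReal.tsum_le_tsum fun n => ?_)
  calc sB (Brd n) (fun X => sB IU fun P => sB BU fun Z => if X ++ (P ++ Z) ∈ S then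
          wE (X ++ (P ++ Z)) * (mu j1 (hgt X) (hgt P) * mu k (hgt X) (hgt P) * G (X ++ (P ++ Z))) else 0)
      ≤ sB (Brd n) (fun X => ∑' r : ℕ, wE X * (mu j1 n r * sw (Irr r) (fun P => mu k n r *
          sw {Z | Z ∈ BU ∧ X ++ (P ++ Z) ∈ S} (fun Z => G (X ++ (P ++ Z)))))) := by
        refine sB_mono le_rfl fun X hX => ?_
        refine (sB_IU_le _).trans (ENNReal.tsum_le_tsum fun r => ?_)
        rw [sw_eq_sB, ← sB_mul, ← sB_mul]
        refine sB_mono le_rfl fun P hP => ?_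
        rw [sw_eq_sB, ← sB_mul, ← sB_mul, ← sB_mul, ← sB_mul, sB_ite]
        refine sB_mono le_rfl fun Z hZ => ?_
        rw [hgt_eq hX, hgt_eq hP.1, wE_append, wE_append]
        exact le_of_eq (by ring)
    _ = ∑' r : ℕ, mu j1 n r * sw (Brd n) (fun X =>
      sw (Irr r) (fun P => mu k n r * sw {Z | Z ∈ BU ∧ X ++ (P ++ Z) ∈ S} (fun Z => G (X ++ (P ++ Z))))) := by
        rw [sB_tsum_swap]
        refine tsum_congr fun r => ?_
        rw [sw_eq_sB, ← sB_mul]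
        exact sB_congr fun X _ => by ring

open Classical in
theorem sum5 (S : Set (List Bool)) (k j1 j3 : ℕ) (G : List Bool → ℝ≥0∞) :
    sw S (fun g => bad5 k j1 j3 g * G g) ≤ ∑' n : ℕ, ∑' r : ℕ, mu j1 n r * sw (Brd n) (fun X =>
      sw (Irr r) (fun P => ∑ v ∈ range (2 ^ j3), sw (Brd v) (fun V => ∑' r2 : ℕ, mu k (n + r + v) r2 *
        sw (Irr r2) (fun P2 => sw {Q | Q ∈ BU ∧ X ++ (P ++ (V ++ (P2 ++ Q))) ∈ S}
          (fun Q => G (X ++ (P ++ (V ++ (P2 ++ Q))))))))) := by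
  obtain ⟨m, hm⟩ : ∃ m : List Bool → List Bool → List Bool → List Bool → ℝ≥0∞, m = fun M P1 V P2 =>
    mu j1 (hgt M) (hgt P1) * mu k (hgt M + hgt P1 + hgt V) (hgt P2) := ⟨_, rfl⟩
  have e1 : ∀ g, wE g * (bad5 k j1 j3 g * G g) =
      sB BU fun M => sB IU fun P1 => sB BU fun V => sB IU fun P2 => sB BU fun Q =>
        if M ++ (P1 ++ (V ++ (P2 ++ Q))) = g then (if hgt V < 2 ^ j3 then
          wE (M ++ (P1 ++ (V ++ (P2 ++ Q)))) * (m M P1 V P2 * G (M ++ (P1 ++ (V ++ (P2 ++ Q))))) else 0) else 0 := by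
    intro g
    have : wE g * (bad5 k j1 j3 g * G g) = (wE g * G g) * bad5 k j1 j3 g := by ring
    rw [this]
    unfold bad5
    rw [← sB_mul]
    refine sB_congr fun M _ => ?_
    rw [← sB_mul]
    refine sB_congr fun P1 _ => ?_
    rw [← sB_mul]
    refine sB_congr fun V _ => ?_
    rw [← sB_mul]
    refine sB_congr fun P2 _ => ?_
    rw [← sB_mul]
    refine sB_congr fun Q _ => ?_
    by_cases h1 : M ++ (P1 ++ (V ++ (P2 ++ Q))) = g
    · by_cases h2 : hgt V < 2 ^ j3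
      · rw [if_pos ⟨h1, h2⟩, if_pos h1, if_pos h2, h1, hm]
        ring
      · rw [if_neg (fun h => h2 h.2), if_pos h1, if_neg h2, mul_zero]
    · rw [if_neg (fun h => h1 h.1), if_neg h1, mul_zero]
  have e2 : sw S (fun g => bad5 k j1 j3 g * G g) =
      sB BU fun M => sB IU fun P1 => sB BU fun V => sB IU fun P2 => sB BU fun Q =>
        if M ++ (P1 ++ (V ++ (P2 ++ Q))) ∈ S then (if hgt V < 2 ^ j3 then
          wE (M ++ (P1 ++ (V ++ (P2 ++ Q)))) * (m M P1 V P2 * G (M ++ (P1 ++ (V ++ (P2 ++ Q))))) else 0) else 0 := by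
    rw [sw_eq_sB, sB_congr fun g' _ => e1 g', sB_swap]
    refine sB_congr fun M _ => ?_
    rw [sB_swap]
    refine sB_congr fun P1 _ => ?_
    rw [sB_swap]
    refine sB_congr fun V _ => ?_
    rw [sB_swap]
    refine sB_congr fun P2 _ => ?_
    rw [sB_swap]
    refine sB_congr fun Q _ => ?_
    exact sB_single S (M ++ (P1 ++ (V ++ (P2 ++ Q)))) (fun _ => if hgt V < 2 ^ j3 then
          wE (M ++ (P1 ++ (V ++ (P2 ++ Q)))) * (m M P1 V P2 * G (M ++ (P1 ++ (V ++ (P2 ++ Q))))) else 0)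
  rw [e2]
  refine (sB_BU_le _).trans (ENNReal.tsum_le_tsum fun n => ?_)
  have hX : ∀ X ∈ Brd n, (sB IU fun P1 => sB BU fun V => sB IU fun P2 => sB BU fun Q =>
        if X ++ (P1 ++ (V ++ (P2 ++ Q))) ∈ S then (if hgt V < 2 ^ j3 then
          wE (X ++ (P1 ++ (V ++ (P2 ++ Q)))) * (m X P1 V P2 * G (X ++ (P1 ++ (V ++ (P2 ++ Q))))) else 0) else 0) ≤
      ∑' r : ℕ, wE X * (mu j1 n r * sw (Irr r) (fun P => ∑ v ∈ range (2 ^ j3), sw (Brd v) (fun V =>
        ∑' r2 : ℕ, mu k (n + r + v) r2 * sw (Irr r2) (fun P2 =>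
          sw {Q | Q ∈ BU ∧ X ++ (P ++ (V ++ (P2 ++ Q))) ∈ S} (fun Q => G (X ++ (P ++ (V ++ (P2 ++ Q))))))))) := by
    intro X hX
    refine (sB_IU_le _).trans (ENNReal.tsum_le_tsum fun r => ?_)
    rw [sw_eq_sB, ← sB_mul, ← sB_mul]
    refine sB_mono le_rfl fun P hP => ?_
    -- the sum over V
    have hV : ∀ v, (sB (Brd v) fun V => sB IU fun P2 => sB BU fun Q =>
        if X ++ (P ++ (V ++ (P2 ++ Q))) ∈ S then (if hgt V < 2 ^ j3 then
          wE (X ++ (P ++ (V ++ (P2 ++ Q)))) * (m X P V P2 * G (X ++ (P ++ (V ++ (P2 ++ Q))))) else 0) else 0) ≤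
        if v ∈ range (2 ^ j3) then wE X * (mu j1 n r * (wE P * sw (Brd v) (fun V =>
          ∑' r2 : ℕ, mu k (n + r + v) r2 * sw (Irr r2) (fun P2 =>
            sw {Q | Q ∈ BU ∧ X ++ (P ++ (V ++ (P2 ++ Q))) ∈ S} (fun Q => G (X ++ (P ++ (V ++ (P2 ++ Q))))))))) else 0 := by
      intro v
      by_cases hv : v < 2 ^ j3
      · rw [if_pos (Finset.mem_range.2 hv), sw_eq_sB, ← sB_mul, ← sB_mul, ← sB_mul]
        refine sB_mono le_rfl fun V hV => ?_
        have hc : ∀ T : ℕ → ℝ≥0∞, wE X * (mu j1 n r * (wE P * (wE V * ∑' r2 : ℕ, T r2))) =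
            ∑' r2 : ℕ, (wE X * (mu j1 n r * (wE P * wE V))) * T r2 := by
          intro T
          rw [ENNReal.tsum_mul_left]
          ring
        rw [hc]
        refine (sB_IU_le _).trans (ENNReal.tsum_le_tsum fun r2 => ?_)
        rw [sw_eq_sB, ← sB_mul, ← sB_mul]
        refine sB_mono le_rfl fun P2 hP2 => ?_
        rw [sw_eq_sB, ← sB_mul, ← sB_mul, ← sB_mul, sB_ite]
        refine sB_mono le_rfl fun Q hQ => ?_
        rw [if_pos (by rw [hgt_eq hV]; exact hv), hm]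
        simp only [hgt_eq hX, hgt_eq hP.1, hgt_eq hV, hgt_eq hP2.1, wE_append]
        exact le_of_eq (by ring)
      · rw [if_neg (fun h => hv (Finset.mem_range.1 h))]
        refine le_of_eq ?_
        have : ∀ V ∈ Brd v, (sB IU fun P2 => sB BU fun Q =>
            if X ++ (P ++ (V ++ (P2 ++ Q))) ∈ S then (if hgt V < 2 ^ j3 then
            wE (X ++ (P ++ (V ++ (P2 ++ Q)))) * (m X P V P2 * G (X ++ (P ++ (V ++ (P2 ++ Q))))) else 0) else 0) = 0 := by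
          intro V hV
          have h0 : ∀ P2 ∈ IU, (sB BU fun Q =>
              if X ++ (P ++ (V ++ (P2 ++ Q))) ∈ S then (if hgt V < 2 ^ j3 then
              wE (X ++ (P ++ (V ++ (P2 ++ Q)))) * (m X P V P2 * G (X ++ (P ++ (V ++ (P2 ++ Q))))) else 0) else 0) = 0 := by
            intro P2 _
            have hv' : ¬ hgt V < 2 ^ j3 := by
              rw [hgt_eq hV]
              exact hv
            rw [sB_congr (G := fun _ => 0) fun Q _ => ?_, sB_zero]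
            rw [if_neg hv']
            split_ifs <;> rfl
          rw [sB_congr (G := fun _ => 0) h0, sB_zero]
        rw [sB_congr (G := fun _ => 0) this, sB_zero]
    refine ((sB_BU_le _).trans (ENNReal.tsum_le_tsum hV)).trans ?_
    rw [tsum_eq_sum (s := range (2 ^ j3)) (fun v hv => if_neg hv)]
    rw [Finset.mul_sum, Finset.mul_sum, Finset.mul_sum]
    exact Finset.sum_le_sum fun v hv => le_of_eq (if_pos hv)
  calc _ ≤ sB (Brd n) (fun X => ∑' r : ℕ, wE X * (mu j1 n r * sw (Irr r) (fun P => ∑ v ∈ range (2 ^ j3), sw (Brd v)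
        (fun V => ∑' r2 : ℕ, mu k (n + r + v) r2 * sw (Irr r2) (fun P2 =>
          sw {Q | Q ∈ BU ∧ X ++ (P ++ (V ++ (P2 ++ Q))) ∈ S} (fun Q => G (X ++ (P ++ (V ++ (P2 ++ Q)))))))))) :=
        sB_mono le_rfl hX
    _ = _ := by
        rw [sB_tsum_swap]
        refine tsum_congr fun r => ?_
        rw [sw_eq_sB, ← sB_mul]
        exact sB_congr fun X _ => by ring

end BadR

/-- bad pairs of levels: for fixed levels l1 < l2 of the two windows the piece P over l1 also covers l2, or the piece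
P2 over l2 is separated from P by a bridge V; if the height of V is at least 2^j3, this decomposition is counted in
gam. So 1 ≤ gam + (bad decompositions), bet ≤ bad decompositions -/
theorem badR {D N k j1 j3 : ℕ} (h1 : j1 + 1 ≤ k) (hk : 2 ^ (k + 1) ≤ D) (G : List Bool → ℝ≥0∞) :
    sw (BrR D N) (fun g => bet k j1 j3 g * G g) ≤ ∑' n : ℕ, ∑' r : ℕ, mu j1 n r * sw (Brd n) (fun X =>
      sw (Irr r) (fun P => mu k n r * sw {Z | Z ∈ BU ∧ X ++ (P ++ Z) ∈ BrR D N} (fun Z => G (X ++ (P ++ Z))) +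
        ∑ v ∈ range (2 ^ j3), sw (Brd v) (fun V => ∑' r2 : ℕ, mu k (n + r + v) r2 * sw (Irr r2) (fun P2 =>
          sw {Q | Q ∈ BU ∧ X ++ (P ++ (V ++ (P2 ++ Q))) ∈ BrR D N}
            (fun Q => G (X ++ (P ++ (V ++ (P2 ++ Q))))))))) := by
  have e1 : sw (BrR D N) (fun g => bet k j1 j3 g * G g) ≤
      sw (BrR D N) (fun g => BadR.bad3 k j1 g * G g) + sw (BrR D N) (fun g => BadR.bad5 k j1 j3 g * G g) := by
    rw [← Rec8.sw_add]
    refine Rec8.sw_mono' fun g hg => ?_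
    rw [← add_mul]
    exact mul_le_mul_left (BadR.bet_le h1 hk hg) _
  refine (e1.trans (add_le_add (BadR.sum3 _ k j1 G) (BadR.sum5 _ k j1 j3 G))).trans (le_of_eq ?_)
  rw [← ENNReal.tsum_add]
  refine tsum_congr fun n => ?_
  rw [← ENNReal.tsum_add]
  refine tsum_congr fun r => ?_
  rw [← mul_add, ← Rec8.sw_add]
  congr 1
  refine Rec8.sw_congr fun X _ => ?_
  rw [← Rec8.sw_add]

end TS

end HexObs
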