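import Pool.Agent.TightN.SNum
import Pool.Agent.TightN.BadR
import Pool.Agent.TightS.SBasic

/-!
TIGHT, part S2, module TN5: decompositions of the bridges at the levels of a window, averaged over the window.
-/

set_option autoImplicit false

namespace HexObs

open Finset

open scoped ENNReal

open Rec8 (sw mb)

namespace TS

private theorem tn5a_pow (j : ℕ) : (2 : ℝ≥0∞) ^ j ≠ 0 ∧ (2 : ℝ≥0∞) ^ j ≠ ⊤ :=
  ⟨pow_ne_zero _ (by norm_num), ENNReal.pow_ne_top (by norm_num)⟩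

private theorem tn5a_card (j : ℕ) : (Finset.Ico (2 ^ j) (2 ^ (j + 1))).card = 2 ^ j := by
  rw [Nat.card_Ico, pow_succ]
  omega

private theorem tn5a_avg (j : ℕ) (L : ℝ≥0∞) (f : ℕ → ℝ≥0∞) (h : ∀ l, 2 ^ j ≤ l → l < 2 ^ (j + 1) → L ≤ f l) :
    L ≤ (∑ l ∈ Finset.Ico (2 ^ j) (2 ^ (j + 1)), f l) / 2 ^ j := by
  rw [ENNReal.le_div_iff_mul_le (Or.inl (tn5a_pow j).1) (Or.inl (tn5a_pow j).2)]
  have h1 : ∑ l ∈ Finset.Ico (2 ^ j) (2 ^ (j + 1)), L ≤ ∑ l ∈ Finset.Ico (2 ^ j) (2 ^ (j + 1)), f l :=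
    Finset.sum_le_sum fun l hl => h l (Finset.mem_Ico.mp hl).1 (Finset.mem_Ico.mp hl).2
  rw [Finset.sum_const, tn5a_card, nsmul_eq_mul] at h1
  refine le_trans (le_of_eq ?_) h1
  push_cast
  ring

private theorem tn5a_mu (j n r : ℕ) (c : ℝ≥0∞) :
    (∑ l ∈ Finset.Ico (2 ^ j) (2 ^ (j + 1)), if n ≤ l ∧ l < n + r then c else 0) / 2 ^ j = mu j n r * c := by
  rw [← Finset.sum_filter, Finset.sum_const, nsmul_eq_mul]
  unfold mu
  rw [ENNReal.div_eq_inv_mul, ENNReal.div_eq_inv_mul]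
  ring

private theorem tn5a_avg1 (j : ℕ) (r : ℕ) (K : ℕ → ℝ≥0∞) :
    (∑ l ∈ Finset.Ico (2 ^ j) (2 ^ (j + 1)), ∑' n : ℕ, if n ≤ l ∧ l < n + r then K n else 0) / 2 ^ j =
      ∑' n : ℕ, mu j n r * K n := by
  rw [← Summable.tsum_finsetSum (fun _ _ => ENNReal.summable), ENNReal.div_eq_inv_mul, ← ENNReal.tsum_mul_left]
  refine tsum_congr fun n => ?_
  rw [← ENNReal.div_eq_inv_mul, tn5a_mu]

private theorem tn5a_avg2 (j : ℕ) (K : ℕ → ℕ → ℝ≥0∞) :
    (∑ l ∈ Finset.Ico (2 ^ j) (2 ^ (j + 1)), ∑' n : ℕ, ∑' r : ℕ, if n ≤ l ∧ l < n + r then K n r else 0) / 2 ^ j =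
      ∑' n : ℕ, ∑' r : ℕ, mu j n r * K n r := by
  rw [← Summable.tsum_finsetSum (fun _ _ => ENNReal.summable), ENNReal.div_eq_inv_mul, ← ENNReal.tsum_mul_left]
  refine tsum_congr fun n => ?_
  rw [← Summable.tsum_finsetSum (fun _ _ => ENNReal.summable), ← ENNReal.tsum_mul_left]
  refine tsum_congr fun r => ?_
  rw [← ENNReal.div_eq_inv_mul, tn5a_mu]

/-- covering by decompositions into three words, with two parameters -/
private theorem tn5a_cov (A : Set (List Bool)) (p : ℕ → ℕ → Prop) [∀ n r, Decidable (p n r)]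
    (B C : ℕ → ℕ → Set (List Bool))
    (Q : ℕ → ℕ → List Bool → List Bool → Set (List Bool)) (G : List Bool → ℝ≥0∞)
    (hcov : ∀ t ∈ A, ∃ n r, p n r ∧ ∃ a ∈ B n r, ∃ b ∈ C n r, ∃ c ∈ Q n r a b, t = a ++ (b ++ c)) :
    sw A G ≤ ∑' n : ℕ, ∑' r : ℕ, if p n r then
      sw (B n r) (fun a => sw (C n r) (fun b => sw (Q n r a b) (fun c => G (a ++ (b ++ c))))) else 0 := by
  classical
  have hR : (∑' n : ℕ, ∑' r : ℕ, if p n r then
      sw (B n r) (fun a => sw (C n r) (fun b => sw (Q n r a b) (fun c => G (a ++ (b ++ c))))) else 0) =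
      ∑' x : ℕ × (ℕ × (List Bool × (List Bool × List Bool))),
        (if p x.1 x.2.1 ∧ x.2.2.1 ∈ B x.1 x.2.1 ∧ x.2.2.2.1 ∈ C x.1 x.2.1 ∧
          x.2.2.2.2 ∈ Q x.1 x.2.1 x.2.2.1 x.2.2.2.1 then
          wE x.2.2.1 * (wE x.2.2.2.1 * (wE x.2.2.2.2 * G (x.2.2.1 ++ (x.2.2.2.1 ++ x.2.2.2.2)))) else 0) := by
    rw [ENNReal.tsum_prod']
    refine tsum_congr fun n => ?_
    rw [ENNReal.tsum_prod']
    refine tsum_congr fun r => ?_
    by_cases hp : p n r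
    · rw [if_pos hp, ENNReal.tsum_prod', Rec8.sw_ind]
      refine tsum_congr fun a => ?_
      rw [ENNReal.tsum_prod']
      by_cases ha : a ∈ B n r
      · rw [if_pos ha, Rec8.sw_ind, ← ENNReal.tsum_mul_left]
        refine tsum_congr fun b => ?_
        by_cases hb : b ∈ C n r
        · rw [if_pos hb, Rec8.sw_ind, ← ENNReal.tsum_mul_left, ← ENNReal.tsum_mul_left]
          refine tsum_congr fun c => ?_
          by_cases hc : c ∈ Q n r a b
          · simp [hp, ha, hb, hc]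
          · simp [hc]
        · simp [hb]
      · simp [ha]
    · simp [hp]
  rw [hR]
  refine Rec8.sw_cover A G _ (fun x => x.2.2.1 ++ (x.2.2.2.1 ++ x.2.2.2.2)) ?_
  intro t ht
  obtain ⟨n, r, hp, a, ha, b, hb, c, hc, rfl⟩ := hcov t ht
  refine ⟨(n, (r, (a, (b, c)))), rfl, ?_⟩
  simp only [hp, ha, hb, hc, and_self, if_true]
  rw [wE_append, wE_append]
  exact le_of_eq (by ring)

/-- the fraction mu is at most the bound mb of its block -/
theorem mu_le_mb {j a n r : ℕ} (h : Fld.Bl a n) : mu j n r ≤ mb j a r := by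
  unfold mb
  split_ifs with h1
  · have h2 : (Finset.Ico (2 ^ j) (2 ^ (j + 1))).filter (fun l => n ≤ l ∧ l < n + r) = ∅ := by
      rw [Finset.filter_eq_empty_iff]
      intro l hl h3
      rw [Finset.mem_Ico] at hl
      have h4 : n < 2 ^ (a + 1) := h.1
      have h5 : 2 ^ (a + 1) ≤ 2 ^ (j - 1) := Nat.pow_le_pow_right (by norm_num) (by omega)
      have h6 : 2 ^ j = 2 ^ (j - 1) * 2 := by
        rw [← pow_succ]
        congr 1
        omega
      have h7 := h1.2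
      omega
    unfold mu
    rw [h2, Finset.card_empty, Nat.cast_zero, ENNReal.zero_div]
  · refine le_min ?_ ?_
    · unfold mu
      rw [ENNReal.div_le_iff (tn5a_pow j).1 (tn5a_pow j).2, one_mul]
      have h2 := Finset.card_filter_le (Finset.Ico (2 ^ j) (2 ^ (j + 1))) (fun l => n ≤ l ∧ l < n + r)
      rw [tn5a_card] at h2
      exact_mod_cast h2
    · unfold mu
      refine ENNReal.div_le_div_right ?_ _
      have h2 : (Finset.Ico (2 ^ j) (2 ^ (j + 1))).filter (fun l => n ≤ l ∧ l < n + r) ⊆ Finset.Ico n (n + r) := by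
        intro l hl
        rw [Finset.mem_filter] at hl
        rw [Finset.mem_Ico]
        exact hl.2
      have h3 := Finset.card_le_card h2
      rw [Nat.card_Ico] at h3
      exact_mod_cast (by omega : _ ≤ r)

theorem mu_eq_zero {j n r : ℕ} (h : 2 ^ (j + 1) ≤ n) : mu j n r = 0 := by
  have h2 : (Finset.Ico (2 ^ j) (2 ^ (j + 1))).filter (fun l => n ≤ l ∧ l < n + r) = ∅ := by
    rw [Finset.filter_eq_empty_iff]
    intro l hl h3
    rw [Finset.mem_Ico] at hl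
    omega
  unfold mu
  rw [h2, Finset.card_empty, Nat.cast_zero, ENNReal.zero_div]

theorem mu_le_min (j n r : ℕ) : mu j n r ≤ min 1 ((r : ℝ≥0∞) / 2 ^ j) := by
  refine le_min ?_ ?_
  · unfold mu
    rw [ENNReal.div_le_iff (tn5a_pow j).1 (tn5a_pow j).2, one_mul]
    have h2 := Finset.card_filter_le (Finset.Ico (2 ^ j) (2 ^ (j + 1))) (fun l => n ≤ l ∧ l < n + r)
    rw [tn5a_card] at h2
    exact_mod_cast h2
  · unfold mu
    refine ENNReal.div_le_div_right ?_ _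
    have h2 : (Finset.Ico (2 ^ j) (2 ^ (j + 1))).filter (fun l => n ≤ l ∧ l < n + r) ⊆ Finset.Ico n (n + r) := by
      intro l hl
      rw [Finset.mem_filter] at hl
      rw [Finset.mem_Ico]
      exact hl.2
    have h3 := Finset.card_le_card h2
    rw [Nat.card_Ico] at h3
    exact_mod_cast (by omega : _ ≤ r)

open Classical in

private theorem tn5a_blk (a : ℕ) (Φ : List Bool → ℝ≥0∞) :
    (∑' n : ℕ, if Fld.Bl a n then sw (Brd n) Φ else 0) ≤ sw (Fld.BrB a) Φ := by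
  rw [Rec8.sw_ind (Fld.BrB a)]
  have h1 : (∑' n : ℕ, if Fld.Bl a n then sw (Brd n) Φ else 0) =
      ∑' t : List Bool, ∑' n : ℕ, if Fld.Bl a n ∧ t ∈ Brd n then wE t * Φ t else 0 := by
    rw [ENNReal.tsum_comm]
    refine tsum_congr fun n => ?_
    by_cases hn : Fld.Bl a n
    · rw [if_pos hn, Rec8.sw_ind]
      refine tsum_congr fun t => ?_
      simp [hn]
    · simp [hn]
  rw [h1]
  refine ENNReal.tsum_le_tsum fun t => ?_
  by_cases ht : ∃ n, Fld.Bl a n ∧ t ∈ Brd n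
  · obtain ⟨n, hn, htn⟩ := ht
    rw [tsum_eq_single n, if_pos ⟨hn, htn⟩, if_pos (show t ∈ Fld.BrB a from ⟨n, hn, htn⟩)]
    intro m hm
    exact if_neg fun h => hm (Brd_height h.2 htn)
  · have h2 : ∀ n : ℕ, (if Fld.Bl a n ∧ t ∈ Brd n then wE t * Φ t else 0) = 0 :=
      fun n => if_neg fun h => ht ⟨n, h⟩
    simp only [h2, tsum_zero]
    exact zero_le

/-- from heights to blocks -/
theorem mu_blk (j r : ℕ) (Φ : List Bool → ℝ≥0∞) :
    ∑' n : ℕ, mu j n r * sw (Brd n) Φ ≤ ∑ a ∈ range (j + 1), mb j a r * sw (Fld.BrB a) Φ := by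
  classical
  have h1 : ∀ n : ℕ, mu j n r * sw (Brd n) Φ ≤
      ∑ a ∈ range (j + 1), if Fld.Bl a n then mb j a r * sw (Brd n) Φ else 0 := by
    intro n
    by_cases hn : 2 ^ (j + 1) ≤ n
    · rw [mu_eq_zero hn, zero_mul]
      exact zero_le
    · obtain ⟨a, ha, hb⟩ : ∃ a ∈ range (j + 1), Fld.Bl a n := by
        by_cases h0 : n = 0
        · refine ⟨0, by simp, ?_, Or.inr rfl⟩
          rw [h0]
          norm_num
        · refine ⟨Nat.log 2 n, ?_, Nat.lt_pow_succ_log_self (by norm_num) n, Or.inl (Nat.pow_log_le_self 2 h0)⟩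
          rw [mem_range]
          exact Nat.log_lt_of_lt_pow h0 (by omega)
      refine le_trans ?_ (Finset.single_le_sum (fun _ _ => zero_le) ha)
      rw [if_pos hb]
      exact mul_le_mul_left (mu_le_mb hb) _
  refine (ENNReal.tsum_le_tsum h1).trans ?_
  rw [Summable.tsum_finsetSum (fun _ _ => ENNReal.summable)]
  refine Finset.sum_le_sum fun a _ => ?_
  refine le_trans (le_of_eq ?_) (mul_le_mul_right (tn5a_blk a Φ) (mb j a r))
  rw [← ENNReal.tsum_mul_left]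
  refine tsum_congr fun n => ?_
  split_ifs <;> simp

/-- in-level: Rec8.jump_le for every level l of the window [2^j, 2^(j+1)), average -/
theorem inR {D N j : ℕ} (hj : 2 ^ (j + 1) ≤ D) (G : List Bool → ℝ≥0∞) :
    sw (BrR D N) G ≤ ∑' n : ℕ, ∑' r : ℕ, mu j n r * sw (Brd n) (fun X => sw (Irr r) (fun P =>
      sw {Z | Z ∈ BU ∧ X ++ (P ++ Z) ∈ BrR D N} (fun Z => G (X ++ (P ++ Z))))) := by
  classical
  refine (tn5a_avg j _ _ fun l hl1 hl2 => tn5a_cov (BrR D N) (fun n r => n ≤ l ∧ l < n + r) (fun n _ => Brd n)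
    (fun _ r => Irr r) (fun _ _ X P => {Z | Z ∈ BU ∧ X ++ (P ++ Z) ∈ BrR D N}) G ?_).trans
    (le_of_eq (tn5a_avg2 j _))
  rintro t ⟨h, h1, h2, ht⟩
  obtain ⟨n, r, a, p, u, h3, h4, h5, ha, hp, hu, rfl⟩ := jump_dec (s := l) (by omega) ht
  rw [List.append_assoc] at ht ⊢
  exact ⟨n, r, ⟨h3, h4⟩, a, ha, p, hp, u, ⟨⟨_, hu⟩, ⟨h, h1, h2, ht⟩⟩, rfl⟩

/-- out-level from the end, for the whole bridge (Rec8.jump_le_end, average) -/
theorem endR {D N j : ℕ} (hj : 2 ^ (j + 1) ≤ D) (G : List Bool → ℝ≥0∞) :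
    sw (BrR D N) G ≤ ∑' m : ℕ, ∑' r : ℕ, mu j m r * sw {Z | ∃ h, h ≤ N ∧ Z ∈ Brd h} (fun Z => sw (Irr r) (fun P =>
      sw {M | M ∈ Brd m ∧ Z ++ (P ++ M) ∈ BrR D N} (fun M => G (Z ++ (P ++ M))))) := by
  classical
  refine (tn5a_avg j _ _ fun l hl1 hl2 => tn5a_cov (BrR D N) (fun m r => m ≤ l ∧ l < m + r)
    (fun _ _ => {Z | ∃ h, h ≤ N ∧ Z ∈ Brd h}) (fun _ r => Irr r)
    (fun m _ Z P => {M | M ∈ Brd m ∧ Z ++ (P ++ M) ∈ BrR D N}) G ?_).trans (le_of_eq (tn5a_avg2 j _))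
  rintro t ⟨h, h1, h2, ht⟩
  obtain ⟨n, r, a, p, u, h3, h4, h5, ha, hp, hu, rfl⟩ := jump_dec (s := h - l - 1) (by omega) ht
  rw [List.append_assoc] at ht ⊢
  exact ⟨h - n - r, r, ⟨by omega, by omega⟩, a, ⟨n, by omega, ha⟩, p, hp, u, ⟨hu, ⟨h, h1, h2, ht⟩⟩, rfl⟩

/-- TN5b: two sets -/
theorem TN5b_sw_union {A B C : Set (List Bool)} (h : A ⊆ B ∪ C) (G : List Bool → ℝ≥0∞) :
    sw A G ≤ sw B G + sw C G := by
  classical
  rw [Rec8.sw_ind, Rec8.sw_ind, Rec8.sw_ind, ← ENNReal.tsum_add]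
  refine ENNReal.tsum_le_tsum fun t => ?_
  by_cases ht : t ∈ A
  · rw [if_pos ht]
    rcases h ht with h1 | h1
    · rw [if_pos h1]
      exact le_self_add
    · rw [if_pos h1]
      exact le_add_self
  · rw [if_neg ht]
    exact zero_le

/-- TN5b: the level l is in [n, n + r) -/
noncomputable def TN5b_ind (l n r : ℕ) : ℝ≥0∞ := if n ≤ l ∧ l < n + r then 1 else 0

theorem TN5b_ind_one {l n r : ℕ} (h : n ≤ l ∧ l < n + r) : TN5b_ind l n r = 1 := if_pos h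

/-- TN5b: the number of levels -/
theorem TN5b_mu_sum (k n r : ℕ) :
    ∑ l ∈ Finset.Ico (2 ^ k) (2 ^ (k + 1)), TN5b_ind l n r = 2 ^ k * mu k n r := by
  unfold mu TN5b_ind
  rw [Finset.sum_boole, mul_comm, ENNReal.div_mul_cancel (pow_ne_zero _ two_ne_zero)
    (ENNReal.pow_ne_top ENNReal.ofNat_ne_top)]

/-- TN5b: average over the levels of a window -/
theorem TN5b_avg {X Y : Type*} (k : ℕ) (L : ℝ≥0∞) (p q : X → ℕ) (S : X → ℝ≥0∞) (p' q' : Y → ℕ) (T : Y → ℝ≥0∞)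
    (h : ∀ l ∈ Finset.Ico (2 ^ k) (2 ^ (k + 1)),
      L ≤ (∑' x, TN5b_ind l (p x) (q x) * S x) +
        ∑' y, TN5b_ind l (p' y) (q' y) * T y) :
    L ≤ (∑' x, mu k (p x) (q x) * S x) + ∑' y, mu k (p' y) (q' y) * T y := by
  have h1 := Finset.sum_le_sum h
  rw [Finset.sum_const, Nat.card_Ico, Finset.sum_add_distrib, ← Summable.tsum_finsetSum (fun _ _ => ENNReal.summable),
    ← Summable.tsum_finsetSum (fun _ _ => ENNReal.summable)] at h1
  simp only [← Finset.sum_mul, TN5b_mu_sum, mul_assoc] at h1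
  rw [ENNReal.tsum_mul_left, ENNReal.tsum_mul_left, ← mul_add, nsmul_eq_mul] at h1
  have h2 : ((2 ^ (k + 1) - 2 ^ k : ℕ) : ℝ≥0∞) = 2 ^ k := by
    have h3 : 2 ^ (k + 1) - 2 ^ k = 2 ^ k := by rw [pow_succ]; omega
    rw [h3]
    push_cast
    rfl
  rw [h2] at h1
  exact (ENNReal.mul_le_mul_iff_right (pow_ne_zero _ two_ne_zero) (ENNReal.pow_ne_top ENNReal.ofNat_ne_top)).1 h1

/-- TN5b: heights of a concatenation -/
theorem TN5b_height {D N n r z : ℕ} {P Z : List Bool} (hP : P ∈ Brd r) (hZ : Z ∈ Brd z)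
    (h : ∃ Y ∈ Brd n, Y ++ (P ++ Z) ∈ BrR D N) : D ≤ n + r + z ∧ n + r + z ≤ N := by
  obtain ⟨Y, hY, h1, h2, h3, h4⟩ := h
  have h5 : Y ++ (P ++ Z) ∈ Brd (n + (r + z)) := Brd_append hY (Brd_append hP hZ)
  have h6 := Brd_height h5 h4
  omega

/-- out-level behind the piece P (of height r, a part of height n before it): either P is also the piece over the
out-level, or the rest is Z ++ (P' ++ M) -/
theorem outR {D N k n r : ℕ} (hn : n + 2 ^ (k + 1) ≤ D) {P : List Bool} (hP : P ∈ Irr r) (G : List Bool → ℝ≥0∞) :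
    sw {Z | Z ∈ BU ∧ ∃ Y ∈ Brd n, Y ++ (P ++ Z) ∈ BrR D N} G ≤
      (∑' m : ℕ, mu k m r * sw {M | M ∈ Brd m ∧ ∃ Y ∈ Brd n, Y ++ (P ++ M) ∈ BrR D N} G) +
      ∑' m : ℕ, ∑' r' : ℕ, mu k m r' * sw {Z | ∃ h, h ≤ N ∧ Z ∈ Brd h} (fun Z => sw (Irr r') (fun P' =>
        sw {M | M ∈ Brd m ∧ ∃ Y ∈ Brd n, Y ++ (P ++ (Z ++ (P' ++ M))) ∈ BrR D N} (fun M => G (Z ++ (P' ++ M))))) := by
  classical
  have key := TN5b_avg k (sw {Z | Z ∈ BU ∧ ∃ Y ∈ Brd n, Y ++ (P ++ Z) ∈ BrR D N} G)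
    (fun m : ℕ => m) (fun _ => r) (fun m => sw {M | M ∈ Brd m ∧ ∃ Y ∈ Brd n, Y ++ (P ++ M) ∈ BrR D N} G)
    (fun y : ℕ × ℕ => y.1) (fun y => y.2) (fun y => sw {Z | ∃ h, h ≤ N ∧ Z ∈ Brd h} (fun Z => sw (Irr y.2) (fun P' =>
        sw {M | M ∈ Brd y.1 ∧ ∃ Y ∈ Brd n, Y ++ (P ++ (Z ++ (P' ++ M))) ∈ BrR D N} (fun M => G (Z ++ (P' ++ M)))))) ?_
  · rw [ENNReal.tsum_prod'] at key
    exact key
  intro l hl
  rw [Finset.mem_Ico] at hl
  have hsub : {Z | Z ∈ BU ∧ ∃ Y ∈ Brd n, Y ++ (P ++ Z) ∈ BrR D N} ⊆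
      {Z | ∃ z, (z ≤ l ∧ l < z + r) ∧ Z ∈ Brd z ∧ ∃ Y ∈ Brd n, Y ++ (P ++ Z) ∈ BrR D N} ∪
      {Z | ∃ z, l < z ∧ Z ∈ Brd z ∧ ∃ Y ∈ Brd n, Y ++ (P ++ Z) ∈ BrR D N} := by
    rintro Z ⟨⟨z, hz⟩, hY⟩
    have h1 := TN5b_height hP.1 hz hY
    by_cases hzl : z ≤ l
    · exact Or.inl ⟨z, ⟨hzl, by omega⟩, hz, hY⟩
    · exact Or.inr ⟨z, by omega, hz, hY⟩
  refine le_trans (TN5b_sw_union hsub G) (add_le_add ?_ ?_)
  · refine le_trans (Rec8.sw_cover _ G (fun x : ℕ × List Bool =>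
      TN5b_ind l x.1 r *
        (if x.2 ∈ {M | M ∈ Brd x.1 ∧ ∃ Y ∈ Brd n, Y ++ (P ++ M) ∈ BrR D N} then wE x.2 * G x.2 else 0))
      (fun x => x.2) ?_) (le_of_eq ?_)
    · rintro Z ⟨z, hz1, hz2⟩
      refine ⟨(z, Z), rfl, ?_⟩
      have hz3 : Z ∈ {M | M ∈ Brd z ∧ ∃ Y ∈ Brd n, Y ++ (P ++ M) ∈ BrR D N} := hz2
      simp only
      rw [TN5b_ind_one hz1, if_pos hz3, one_mul]
    · rw [ENNReal.tsum_prod']
      refine tsum_congr fun m => ?_
      simp only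
      rw [ENNReal.tsum_mul_left, Rec8.sw_ind]
      congr 1
      exact tsum_congr fun i => by split_ifs <;> rfl
  · refine le_trans (Rec8.sw_cover _ G (fun x : (ℕ × ℕ) × (List Bool × (List Bool × List Bool)) =>
      TN5b_ind l x.1.1 x.1.2 *
        (if x.2.1 ∈ {Z | ∃ h, h ≤ N ∧ Z ∈ Brd h} then wE x.2.1 *
          (if x.2.2.1 ∈ Irr x.1.2 then wE x.2.2.1 *
            (if x.2.2.2 ∈ {M | M ∈ Brd x.1.1 ∧ ∃ Y ∈ Brd n, Y ++ (P ++ (x.2.1 ++ (x.2.2.1 ++ M))) ∈ BrR D N} then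
              wE x.2.2.2 * G (x.2.1 ++ (x.2.2.1 ++ x.2.2.2)) else 0) else 0) else 0))
      (fun x => x.2.1 ++ (x.2.2.1 ++ x.2.2.2)) ?_) (le_of_eq ?_)
    · rintro Z ⟨z, hzl, hz, hY⟩
      have h1 := TN5b_height hP.1 hz hY
      obtain ⟨j, r', a, p, u, h2, h3, h4, ha, hp, hu, hZ⟩ := jump_dec (s := z - l - 1) (by omega) hz
      have hZ' : a ++ (p ++ u) = Z := by rw [hZ, List.append_assoc]
      refine ⟨((z - j - r', r'), (a, (p, u))), hZ', ?_⟩
      have e1 : z - j - r' ≤ l ∧ l < z - j - r' + r' := by omega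
      have e2 : a ∈ {Z | ∃ h, h ≤ N ∧ Z ∈ Brd h} := ⟨j, by omega, ha⟩
      have e3 : u ∈ {M | M ∈ Brd (z - j - r') ∧ ∃ Y ∈ Brd n, Y ++ (P ++ (a ++ (p ++ M))) ∈ BrR D N} := by
        refine ⟨hu, ?_⟩
        rw [hZ']
        exact hY
      simp only
      rw [TN5b_ind_one e1, if_pos e2, if_pos hp, if_pos e3, one_mul, hZ', ← hZ', wE_append, wE_append]
      exact le_of_eq (by ring)
    · rw [ENNReal.tsum_prod']
      refine tsum_congr fun y => ?_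
      simp only
      rw [ENNReal.tsum_mul_left]
      congr 1
      rw [Rec8.sw_ind, ENNReal.tsum_prod']
      refine tsum_congr fun Z => ?_
      simp only
      by_cases hZ : Z ∈ {Z | ∃ h, h ≤ N ∧ Z ∈ Brd h}
      · simp only [if_pos hZ]
        rw [ENNReal.tsum_mul_left]
        congr 1
        rw [Rec8.sw_ind, ENNReal.tsum_prod']
        refine tsum_congr fun P' => ?_
        simp only
        by_cases hP' : P' ∈ Irr y.2
        · simp only [if_pos hP']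
          rw [ENNReal.tsum_mul_left]
          congr 1
          rw [Rec8.sw_ind]
          exact tsum_congr fun i => by split_ifs <;> rfl
        · simp only [if_neg hP', tsum_zero]
      · simp only [if_neg hZ, tsum_zero]

/-- sums over all bridges and over all pieces, by heights -/
private lemma TN5d_aux (A : Set (List Bool)) (B : ℕ → Set (List Bool)) (hA : ∀ t, t ∈ A ↔ ∃ n, t ∈ B n)
    (hB : ∀ n t, t ∈ B n → hgt t = n) (Φ : ℕ → List Bool → ℝ≥0∞) :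
    sB A (fun X => wE X * Φ (hgt X) X) = ∑' n : ℕ, sw (B n) (Φ n) := by
  classical
  have h1 : sB A (fun X => wE X * Φ (hgt X) X) = sw A (fun X => Φ (hgt X) X) := rfl
  rw [h1, Rec8.sw_ind]
  simp only [Rec8.sw_ind]
  rw [ENNReal.tsum_comm]
  refine tsum_congr fun t => ?_
  rw [tsum_eq_single (hgt t)]
  · by_cases ht : t ∈ A
    · obtain ⟨n, hn⟩ := (hA t).1 ht
      have h2 := hB n t hn
      rw [if_pos ht, h2, if_pos hn]
    · rw [if_neg ht, if_neg]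
      intro h
      exact ht ((hA t).2 ⟨_, h⟩)
  · intro n hn
    rw [if_neg]
    intro h
    exact hn (hB n t h).symm

theorem sB_BU (Φ : ℕ → List Bool → ℝ≥0∞) : sB BU (fun X => wE X * Φ (hgt X) X) = ∑' n : ℕ, sw (Brd n) (Φ n) :=
  TN5d_aux BU Brd (fun _ => Iff.rfl) (fun _ _ h => hgt_eq h) Φ

theorem sB_IU (Φ : ℕ → List Bool → ℝ≥0∞) : sB IU (fun X => wE X * Φ (hgt X) X) = ∑' r : ℕ, sw (Irr r) (Φ r) :=
  TN5d_aux IU Irr (fun _ => Iff.rfl) (fun _ _ h => hgt_eq h.1) Φ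

/-- the operator opU by heights -/
theorem opU_le (D N k j1 j3 : ℕ) (R : List Bool → List Bool → Prop) (F : List Bool → ℝ≥0∞) (g : List Bool) :
    opU D N k j1 j3 R F g ≤ ∑' n : ℕ, ∑' r : ℕ, mu j1 n r * sw (Brd n) (fun X => sw (Irr r) (fun P =>
      ∑' v : ℕ, gf (Brd v) * ∑' r2 : ℕ, mu k (n + r + v) r2 * sw (Irr r2) (fun P2 =>
        sw {Q | Q ∈ BU ∧ ∃ V ∈ Brd v, X ++ (P ++ (V ++ (P2 ++ Q))) ∈ BrR D N ∧ R g (X ++ (P ++ (V ++ (P2 ++ Q))))}
          (fun Q => hat D F (P2 ++ Q))))) := by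
  classical
  -- the right side as a sum over words
  have hR : (∑' n : ℕ, ∑' r : ℕ, mu j1 n r * sw (Brd n) (fun X => sw (Irr r) (fun P =>
      ∑' v : ℕ, gf (Brd v) * ∑' r2 : ℕ, mu k (n + r + v) r2 * sw (Irr r2) (fun P2 =>
        sw {Q | Q ∈ BU ∧ ∃ V ∈ Brd v, X ++ (P ++ (V ++ (P2 ++ Q))) ∈ BrR D N ∧ R g (X ++ (P ++ (V ++ (P2 ++ Q))))}
          (fun Q => hat D F (P2 ++ Q)))))) =
      sB BU fun X => sB IU fun P => ∑' v : ℕ, sB IU fun P2 => sB BU fun Q =>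
        if ∃ V ∈ Brd v, X ++ (P ++ (V ++ (P2 ++ Q))) ∈ BrR D N ∧ R g (X ++ (P ++ (V ++ (P2 ++ Q)))) then
          mu j1 (hgt X) (hgt P) * mu k (hgt X + hgt P + v) (hgt P2) *
            (wE X * (wE P * (gf (Brd v) * (wE P2 * (wE Q * hat D F (P2 ++ Q)))))) else 0 := by
    calc _ = ∑' n : ℕ, sw (Brd n) (fun X => ∑' r : ℕ, sw (Irr r) (fun P => mu j1 n r *
          ∑' v : ℕ, gf (Brd v) * ∑' r2 : ℕ, mu k (n + r + v) r2 * sw (Irr r2) (fun P2 =>
            sw {Q | Q ∈ BU ∧ ∃ V ∈ Brd v, X ++ (P ++ (V ++ (P2 ++ Q))) ∈ BrR D N ∧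
              R g (X ++ (P ++ (V ++ (P2 ++ Q))))} (fun Q => hat D F (P2 ++ Q))))) := by
          refine tsum_congr fun n => ?_
          unfold sw
          simp only [← ENNReal.tsum_mul_left]
          rw [ENNReal.tsum_comm]
          refine tsum_congr fun X => tsum_congr fun r => tsum_congr fun P => tsum_congr fun v =>
            tsum_congr fun r2 => tsum_congr fun P2 => tsum_congr fun Q => by ring
      _ = sB BU (fun X => wE X * ∑' r : ℕ, sw (Irr r) (fun P => mu j1 (hgt X) r *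
          ∑' v : ℕ, gf (Brd v) * ∑' r2 : ℕ, mu k (hgt X + r + v) r2 * sw (Irr r2) (fun P2 =>
            sw {Q | Q ∈ BU ∧ ∃ V ∈ Brd v, X ++ (P ++ (V ++ (P2 ++ Q))) ∈ BrR D N ∧
              R g (X ++ (P ++ (V ++ (P2 ++ Q))))} (fun Q => hat D F (P2 ++ Q))))) :=
          (sB_BU (fun n X => ∑' r : ℕ, sw (Irr r) (fun P => mu j1 n r *
          ∑' v : ℕ, gf (Brd v) * ∑' r2 : ℕ, mu k (n + r + v) r2 * sw (Irr r2) (fun P2 =>
            sw {Q | Q ∈ BU ∧ ∃ V ∈ Brd v, X ++ (P ++ (V ++ (P2 ++ Q))) ∈ BrR D N ∧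
              R g (X ++ (P ++ (V ++ (P2 ++ Q))))} (fun Q => hat D F (P2 ++ Q)))))).symm
      _ = _ := by
          refine sB_congr fun X _ => ?_
          rw [← sB_IU (fun r P => mu j1 (hgt X) r *
          ∑' v : ℕ, gf (Brd v) * ∑' r2 : ℕ, mu k (hgt X + r + v) r2 * sw (Irr r2) (fun P2 =>
            sw {Q | Q ∈ BU ∧ ∃ V ∈ Brd v, X ++ (P ++ (V ++ (P2 ++ Q))) ∈ BrR D N ∧
              R g (X ++ (P ++ (V ++ (P2 ++ Q))))} (fun Q => hat D F (P2 ++ Q)))), ← sB_mul]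
          refine sB_congr fun P _ => ?_
          simp only [← ENNReal.tsum_mul_left]
          refine tsum_congr fun v => ?_
          have h1 : (∑' r2 : ℕ, wE X * (wE P * (mu j1 (hgt X) (hgt P) * (gf (Brd v) *
              (mu k (hgt X + hgt P + v) r2 * sw (Irr r2) (fun P2 =>
                sw {Q | Q ∈ BU ∧ ∃ V ∈ Brd v, X ++ (P ++ (V ++ (P2 ++ Q))) ∈ BrR D N ∧
                  R g (X ++ (P ++ (V ++ (P2 ++ Q))))} (fun Q => hat D F (P2 ++ Q)))))))) =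
              ∑' r2 : ℕ, sw (Irr r2) (fun P2 => wE X * (wE P * (mu j1 (hgt X) (hgt P) * (gf (Brd v) *
              (mu k (hgt X + hgt P + v) r2 *
                sw {Q | Q ∈ BU ∧ ∃ V ∈ Brd v, X ++ (P ++ (V ++ (P2 ++ Q))) ∈ BrR D N ∧
                  R g (X ++ (P ++ (V ++ (P2 ++ Q))))} (fun Q => hat D F (P2 ++ Q))))))) := by
            refine tsum_congr fun r2 => ?_
            simp only [← Rec8.sw_mul_left]
          rw [h1, ← sB_IU (fun r2 P2 => wE X * (wE P * (mu j1 (hgt X) (hgt P) * (gf (Brd v) *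
              (mu k (hgt X + hgt P + v) r2 *
                sw {Q | Q ∈ BU ∧ ∃ V ∈ Brd v, X ++ (P ++ (V ++ (P2 ++ Q))) ∈ BrR D N ∧
                  R g (X ++ (P ++ (V ++ (P2 ++ Q))))} (fun Q => hat D F (P2 ++ Q)))))))]
          refine sB_congr fun P2 _ => ?_
          rw [Rec8.sw_and BU]
          have h2 : ∀ Ψ : List Bool → ℝ≥0∞, sw BU Ψ = sB BU (fun Q => wE Q * Ψ Q) := fun _ => rfl
          rw [h2]
          simp only [← sB_mul]
          refine sB_congr fun Q _ => ?_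
          split_ifs
          · ring
          · simp
  rw [hR]
  unfold opU
  refine sB_mono (Set.Subset.refl _) fun X _ => sB_mono (Set.Subset.refl _) fun P _ =>
    ENNReal.tsum_le_tsum fun v => sB_mono (Set.Subset.refl _) fun P2 _ =>
      sB_mono (Set.Subset.refl _) fun Q _ => ?_
  by_cases h : 2 ^ j3 ≤ v ∧ ∃ V ∈ Brd v, X ++ (P ++ (V ++ (P2 ++ Q))) ∈ BrR D N ∧
      R g (X ++ (P ++ (V ++ (P2 ++ Q))))
  · rw [if_pos h, if_pos h.2]
  · rw [if_neg h]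
    exact zero_le

end TS

end HexObs
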