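import Pool.Agent.TightN.DefsN

/-!
TIGHT, part S2, module TN1: numbers, masses of pieces and blocks.
-/

set_option autoImplicit false

namespace HexObs

open Finset

open scoped ENNReal

namespace TS

theorem kap0_pos : 0 < kap0 := by
  have := Num2Aux.CW_pos
  unfold kap0
  positivity

theorem kap0_lt : kap0 < 1 / 6 := by
  have := Num2Aux.CW_pos
  unfold kap0
  exact one_div_lt_one_div_of_lt (by norm_num) (by linarith)

theorem Ub_pos (b : ℕ) : 0 < Ub b := Num2Aux.UU_pos _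

theorem Ub_mono {a b : ℕ} (h : a ≤ b) : Ub a ≤ Ub b :=
  Num2Aux.UU_mono (Nat.pow_le_pow_right (by norm_num) h)

private lemma SNum_pow_div (a b : ℕ) : (((2 ^ b : ℕ) : ℝ) / ((2 ^ a : ℕ) : ℝ)) = (2 : ℝ) ^ ((b : ℝ) - a) := by
  rw [Real.rpow_sub (by norm_num), Real.rpow_natCast, Real.rpow_natCast]
  push_cast
  rfl

/-- UU_growth -/
theorem Ub_growth {a b : ℕ} (h : a ≤ b) : Ub a * (2 : ℝ) ^ (kap0 * ((b : ℝ) - a)) ≤ 2 * Ub b := by
  have h1 := UU_growth (s := 2 ^ a) (T := 2 ^ b) Nat.one_le_two_pow (Nat.pow_le_pow_right (by norm_num) h)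
  rw [SNum_pow_div, ← Real.rpow_mul (by norm_num)] at h1
  rw [mul_comm kap0]
  exact h1

/-- UU_double -/
theorem Ub_succ (b : ℕ) : Ub (b + 1) ≤ 2 * Ub b := by
  have h1 := UU_double (2 ^ b)
  unfold Ub
  rw [pow_succ, mul_comm (2 ^ b) 2]
  exact h1

private lemma SNum_kap (r : ℕ) : kap' r = ENNReal.ofReal (kk r) := by
  unfold kk
  rw [ENNReal.ofReal_toReal]
  have h : kap' r ≤ BT r := by
    rw [← gf_Brd]
    exact gf_mono (fun t ht => ht.1)
  refine ne_top_of_le_ne_top (ENNReal.one_ne_top) (h.trans ?_)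
  rcases Nat.eq_zero_or_pos r with rfl | h
  · rw [← gf_Brd, Brd_zero]
    unfold gf
    rw [tsum_singleton (f := wE)]
    unfold wE
    simp
  · exact BT_le_one h

/-- bridges of height at most N -/
theorem gf_BU_le (N : ℕ) : gf {g | ∃ h, h ≤ N ∧ g ∈ Brd h} ≤ ENNReal.ofReal (UU N) := by
  rw [← Ex.gf_levels]
  refine gf_mono ?_
  rintro t ⟨h, h1, h3⟩
  simp only [Set.mem_iUnion, Finset.mem_range]
  exact ⟨h, by omega, h3⟩

/-- total weight of the bridges of a block (heights from 2^b to 2^(b+1) - 1: UU (2^(b+1)) ≤ 2 UU (2^b)) -/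
theorem gf_BrB (b : ℕ) : gf (Fld.BrB b) ≤ ENNReal.ofReal (2 * Ub b) := by
  refine (gf_mono ?_).trans ((gf_BU_le (2 ^ (b + 1))).trans (ENNReal.ofReal_le_ofReal (Ub_succ b)))
  rintro t ⟨h, ⟨h1, _⟩, h3⟩
  exact ⟨h, h1.le, h3⟩

theorem gf_BrB_ne_top (b : ℕ) : gf (Fld.BrB b) ≠ ⊤ :=
  ne_top_of_le_ne_top ENNReal.ofReal_ne_top (gf_BrB b)

private lemma SNum_tail (n : ℕ) : HasSum (fun r : ℕ => if n < r then kk r else 0) (KK' (n + 1)) := by
  have h1 : HasSum kk 1 := by
    have := summable_kk.hasSum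
    rwa [tsum_kk] at this
  have h2 : HasSum (fun r : ℕ => if r ∈ range (n + 1) then kk r else 0) (∑ r ∈ range (n + 1), kk r) := by
    have h3 : HasSum (fun r : ℕ => if r ∈ range (n + 1) then kk r else 0)
        (∑ r ∈ range (n + 1), if r ∈ range (n + 1) then kk r else 0) :=
      hasSum_sum_of_ne_finset_zero (fun r hr => if_neg hr)
    rw [Finset.sum_congr rfl (fun r hr => if_pos hr)] at h3
    exact h3
  have h3 := h1.sub h2
  have h4 : (fun r : ℕ => if n < r then kk r else 0) = fun r => kk r - (if r ∈ range (n + 1) then kk r else 0) := by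
    funext r
    by_cases h : n < r
    · rw [if_pos h, if_neg (by simp only [mem_range]; omega), sub_zero]
    · rw [if_neg h, if_pos (by simp only [mem_range]; omega), sub_self]
  rw [h4]
  exact h3

private lemma SNum_tail' (n : ℕ) : (∑' r : ℕ, (if n < r then kap' r else 0)) ≤ ENNReal.ofReal (1 / UU n) := by
  have h1 := SNum_tail n
  have h2 : (∑' r : ℕ, (if n < r then kap' r else 0)) = ENNReal.ofReal (KK' (n + 1)) := by
    rw [← h1.tsum_eq, ENNReal.ofReal_tsum_of_nonneg _ h1.summable]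
    · refine tsum_congr fun r => ?_
      by_cases h : n < r
      · rw [if_pos h, if_pos h, SNum_kap]
      · rw [if_neg h, if_neg h, ENNReal.ofReal_zero]
    · intro r
      split_ifs
      · exact kk_nonneg r
      · exact le_rfl
  rw [h2]
  refine ENNReal.ofReal_le_ofReal ?_
  rw [le_div_iff₀ (Num2Aux.UU_pos n), mul_comm]
  exact UU_mul_KK n

/-- mass of the giants: tsum_kk, KK', UU_mul_KK -/
theorem giants : ∃ K : ℝ, 1 ≤ K ∧ ∀ j : ℕ, (∑' r : ℕ, (if 2 ^ (j - 1) < r then kap' r else 0)) ≤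
    ENNReal.ofReal (K / Ub j) := by
  refine ⟨2, by norm_num, fun j => (SNum_tail' _).trans (ENNReal.ofReal_le_ofReal ?_)⟩
  rw [div_le_div_iff₀ (Num2Aux.UU_pos _) (Ub_pos j), one_mul]
  rcases Nat.eq_zero_or_pos j with rfl | h
  · have := Ub_pos 0
    change Ub 0 ≤ 2 * Ub 0
    linarith
  · obtain ⟨i, rfl⟩ : ∃ i, j = i + 1 := ⟨j - 1, by omega⟩
    rw [Nat.add_sub_cancel]
    exact Ub_succ i

/-- averaged mass: sum_mul_kk for r ≤ 2^j, UU_mul_KK for r > 2^j -/
theorem avg_mass : ∃ K : ℝ, 1 ≤ K ∧ ∀ j : ℕ, (∑' r : ℕ, min 1 ((r : ℝ≥0∞) / 2 ^ j) * kap' r) ≤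
    ENNReal.ofReal (K / Ub j) := by
  refine ⟨4, by norm_num, fun j => ?_⟩
  have hp : (0 : ℝ) < 2 ^ j := by positivity
  have h1 : (∑' r : ℕ, min 1 ((r : ℝ≥0∞) / 2 ^ j) * kap' r) ≤
      (∑' r : ℕ, (if r ∈ range (2 ^ j + 1) then ENNReal.ofReal ((r : ℝ) / 2 ^ j * kk r) else 0)) +
        ∑' r : ℕ, (if 2 ^ j < r then kap' r else 0) := by
    rw [← ENNReal.tsum_add]
    refine ENNReal.tsum_le_tsum fun r => ?_
    by_cases h : 2 ^ j < r
    · rw [if_pos h, if_neg (by simp only [mem_range]; omega), zero_add]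
      exact mul_le_of_le_one_left zero_le (min_le_left _ _)
    · rw [if_neg h, if_pos (by simp only [mem_range]; omega), add_zero, SNum_kap,
        ENNReal.ofReal_mul (by positivity), ENNReal.ofReal_div_of_pos hp, ENNReal.ofReal_natCast,
        ENNReal.ofReal_pow (by norm_num), ENNReal.ofReal_ofNat]
      exact mul_le_mul_left (min_le_right _ _) _
  have h2 : (∑' r : ℕ, (if r ∈ range (2 ^ j + 1) then ENNReal.ofReal ((r : ℝ) / 2 ^ j * kk r) else 0)) ≤
      ENNReal.ofReal (3 / Ub j) := by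
    rw [tsum_eq_sum (s := range (2 ^ j + 1)) (fun r hr => if_neg hr), Finset.sum_congr rfl (fun r hr => if_pos hr),
      ← ENNReal.ofReal_sum_of_nonneg (fun r _ => mul_nonneg (by positivity) (kk_nonneg r))]
    refine ENNReal.ofReal_le_ofReal ?_
    have h3 := sum_mul_kk (R := 2 ^ j) Nat.one_le_two_pow
    have h4 : ∑ r ∈ range (2 ^ j + 1), (r : ℝ) / 2 ^ j * kk r = (∑ r ∈ range (2 ^ j + 1), r * kk r) / 2 ^ j := by
      rw [Finset.sum_div]
      exact Finset.sum_congr rfl fun r _ => by ring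
    rw [h4, div_le_iff₀ hp]
    refine h3.trans (le_of_eq ?_)
    push_cast
    unfold Ub
    ring
  refine h1.trans ((add_le_add h2 (SNum_tail' (2 ^ j))).trans ?_)
  rw [← ENNReal.ofReal_add (div_nonneg (by norm_num) (Ub_pos j).le) (div_nonneg (by norm_num) (Num2Aux.UU_pos _).le)]
  refine ENNReal.ofReal_le_ofReal (le_of_eq ?_)
  unfold Ub
  ring

/-- geometric series -/
theorem geo {c : ℝ} (h : 0 < c) : ∃ K : ℝ, 1 ≤ K ∧ ∀ n : ℕ, ∑ i ∈ range n, (2 : ℝ) ^ (-(c * (i : ℝ))) ≤ K := by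
  set q : ℝ := (2 : ℝ) ^ (-c) with hq
  have hq0 : 0 < q := by positivity
  have hq1 : q < 1 := by
    rw [hq]
    exact Real.rpow_lt_one_of_one_lt_of_neg (by norm_num) (by linarith)
  refine ⟨1 / (1 - q), ?_, fun n => ?_⟩
  · rw [le_div_iff₀ (by linarith)]
    linarith
  · have h1 : ∀ i : ℕ, (2 : ℝ) ^ (-(c * (i : ℝ))) = q ^ i := by
      intro i
      rw [hq, ← Real.rpow_natCast, ← Real.rpow_mul (by norm_num)]
      congr 1
      ring
    rw [Finset.sum_congr rfl fun i _ => h1 i]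
    have h2 := mul_neg_geom_sum q n
    have h3 : 0 ≤ q ^ n := by positivity
    rw [le_div_iff₀ (by linarith)]
    linarith

/-- geometric sums with the renewal function (Ub_growth) -/
theorem geo_Ub {η : ℝ} (h : η < kap0) : ∃ K : ℝ, 1 ≤ K ∧ ∀ k : ℕ,
    ∑ b ∈ range (k + 1), (2 : ℝ) ^ (η * ((k : ℝ) - b)) * Ub b ≤ K * Ub k := by
  obtain ⟨K, hK, hg⟩ := geo (c := kap0 - η) (by linarith)
  refine ⟨2 * K, by linarith, fun k => ?_⟩
  have h1 : ∀ b ∈ range (k + 1), (2 : ℝ) ^ (η * ((k : ℝ) - b)) * Ub b ≤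
      (2 : ℝ) ^ (-((kap0 - η) * ((k + 1 - 1 - b : ℕ) : ℝ))) * (2 * Ub k) := by
    intro b hb
    have hb' : b ≤ k := by
      rw [mem_range] at hb
      omega
    have h2 := Ub_growth hb'
    rw [Nat.add_sub_cancel, Nat.cast_sub hb']
    have h3 : (2 : ℝ) ^ (η * ((k : ℝ) - b)) * Ub b =
        (2 : ℝ) ^ (-((kap0 - η) * ((k : ℝ) - b))) * (Ub b * (2 : ℝ) ^ (kap0 * ((k : ℝ) - b))) := by
      rw [mul_comm (Ub b), ← mul_assoc, ← Real.rpow_add (by norm_num)]
      congr 2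
      ring
    rw [h3]
    exact mul_le_mul_of_nonneg_left h2 (by positivity)
  refine (Finset.sum_le_sum h1).trans ?_
  rw [← Finset.sum_mul, Finset.sum_range_reflect (fun i : ℕ => (2 : ℝ) ^ (-((kap0 - η) * (i : ℝ)))) (k + 1)]
  have h4 := hg (k + 1)
  have h5 := Ub_pos k
  nlinarith

/-- the constants of the two inputs -/
theorem inp_of (h1 : CUH) (h2 : TEF) : ∃ C δ : ℝ, Inp C δ := by
  obtain ⟨C1, hC1, h1⟩ := h1
  obtain ⟨C2, δ, hC2, hδ, h2⟩ := h2 (kap0 / 8) (by have := kap0_pos; linarith)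
  refine ⟨max 1 (max C1 C2), δ, le_max_left _ _, hδ, ?_, ?_⟩
  · intro D a b hb hD I
    refine (h1 D a b hb hD I).trans (ENNReal.ofReal_le_ofReal ?_)
    exact mul_le_mul_of_nonneg_right ((le_max_left _ _).trans (le_max_right _ _)) (Ub_pos a).le
  · intro D a b l hb hD
    refine (h2 D a b l hb hD).trans (ENNReal.ofReal_le_ofReal ?_)
    refine mul_le_mul_of_nonneg_right ((le_max_right _ _).trans (le_max_right _ _)) ?_
    unfold TT
    have := Ub_pos a
    have := Ub_pos l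
    positivity

end TS

end HexObs
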