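import Pool.Agent.TightN.SMass

/-!
TIGHT, part S2, module TN3: (n2), (k1), (k2) of proof/TIGHT_S_h70, section 2, 3.
-/

set_option autoImplicit false

namespace HexObs

open Finset

open scoped ENNReal

namespace TS

variable {C δ : ℝ}

private theorem TN3a_pm_add (j a : ℕ) (Φ Ψ : List Bool → ℝ≥0∞) :
    pm j a (fun P => Φ P + Ψ P) = pm j a Φ + pm j a Ψ := by
  unfold pm
  rw [← ENNReal.tsum_add]
  refine tsum_congr fun r => ?_
  rw [Rec8.sw_add, mul_add]

private theorem TN3a_pm_mul (j a : ℕ) (c : ℝ≥0∞) (Φ : List Bool → ℝ≥0∞) :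
    pm j a (fun P => c * Φ P) = c * pm j a Φ := by
  unfold pm
  rw [← ENNReal.tsum_mul_left]
  refine tsum_congr fun r => ?_
  rw [Rec8.sw_mul_left]
  ring

private theorem TN3a_pm_sum (j a : ℕ) (S : Finset ℕ) (Φ : ℕ → List Bool → ℝ≥0∞) :
    pm j a (fun P => ∑ i ∈ S, Φ i P) = ∑ i ∈ S, pm j a (Φ i) := by
  classical
  induction S using Finset.induction_on with
  | empty =>
    simp only [Finset.sum_empty]
    unfold pm
    simp [Rec8.sw_zero]
  | insert x s hx ih =>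
    simp only [Finset.sum_insert hx]
    rw [TN3a_pm_add, ih]

private theorem TN3a_two (x : ℝ) : 0 < (2 : ℝ) ^ x := Real.rpow_pos_of_pos (by norm_num) x

private theorem TN3a_le {x y : ℝ} (h : x ≤ y) : (2 : ℝ) ^ x ≤ (2 : ℝ) ^ y :=
  Real.rpow_le_rpow_of_exponent_le (by norm_num) h

/-- the ratio of the block values -/
private theorem TN3a_ratio {k a : ℕ} (ha : a ≤ k + 1) :
    Ub a / Ub k ≤ 2 * (2 : ℝ) ^ (-(kap0 * ((k - a : ℕ) : ℝ))) := by
  rw [div_le_iff₀ (Ub_pos k)]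
  rcases Nat.lt_or_ge k a with h | h
  · have e : a = k + 1 := by omega
    have e2 : k - a = 0 := by omega
    rw [e2, e]
    simpa using Ub_succ k
  · have h1 := Ub_growth h
    have h2 : ((k - a : ℕ) : ℝ) = (k : ℝ) - a := by push_cast [h]; ring
    rw [h2, Real.rpow_neg (by norm_num)]
    have h3 := TN3a_two (kap0 * ((k : ℝ) - a))
    rw [mul_assoc, mul_comm, mul_assoc, mul_comm (Ub k) 2, inv_mul_eq_div, le_div_iff₀ h3]
    exact h1

/-- the uniform bound of a summand -/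
private theorem TN3a_term (hδ : 0 < δ) {k a b : ℕ} (hab : b ≤ a) (hak : a ≤ k + 1) :
    (2 : ℝ) ^ (kap0 / 4 * ((k : ℝ) + 1 - a)) * (TT (kap0 / 8) δ k a b + if k ≤ b + 1 then Ub a / Ub k else 0) ≤
      ((2 : ℝ) ^ (kap0 / 4) * 2 * (1 + (2 : ℝ) ^ δ)) * ((2 : ℝ) ^ (-(kap0 / 2 * ((k - a : ℕ) : ℝ))) *
        (2 : ℝ) ^ (-(δ * ((min a k - b : ℕ) : ℝ)))) := by
  have hκ := kap0_pos
  have hr := TN3a_ratio hak
  have hr0 : 0 ≤ Ub a / Ub k := div_nonneg (Ub_pos a).le (Ub_pos k).le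
  set x : ℝ := ((k - a : ℕ) : ℝ) with hx
  have hx0 : 0 ≤ x := Nat.cast_nonneg _
  set y : ℝ := ((min a k - b : ℕ) : ℝ) with hy
  have hy0 : 0 ≤ y := Nat.cast_nonneg _
  -- the weight
  have h1 : (2 : ℝ) ^ (kap0 / 4 * ((k : ℝ) + 1 - a)) ≤ (2 : ℝ) ^ (kap0 / 4) * (2 : ℝ) ^ (kap0 / 4 * x) := by
    rw [← Real.rpow_add (by norm_num)]
    apply TN3a_le
    have h2 : (k : ℝ) - a ≤ x := by
      rw [hx]
      have : (k : ℝ) ≤ ((k - a : ℕ) : ℝ) + a := by
        exact_mod_cast (by omega : k ≤ (k - a) + a)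
      linarith
    nlinarith
  -- the first part
  have h2 : TT (kap0 / 8) δ k a b ≤ (2 * (2 : ℝ) ^ (-(kap0 * x))) * (2 : ℝ) ^ (kap0 / 8 * x) * (2 : ℝ) ^ (-(δ * y)) := by
    unfold TT
    exact mul_le_mul_of_nonneg_right (mul_le_mul_of_nonneg_right hr (TN3a_two _).le) (TN3a_two _).le
  -- the second part
  have h3 : (if k ≤ b + 1 then Ub a / Ub k else 0) ≤
      (2 * (2 : ℝ) ^ (-(kap0 * x))) * ((2 : ℝ) ^ δ * (2 : ℝ) ^ (-(δ * y))) := by
    split_ifs with hb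
    · have hy1 : y ≤ 1 := by
        rw [hy]
        exact_mod_cast (by omega : min a k - b ≤ 1)
      have h4 : 1 ≤ (2 : ℝ) ^ δ * (2 : ℝ) ^ (-(δ * y)) := by
        rw [← Real.rpow_add (by norm_num)]
        have : (0 : ℝ) ≤ δ + -(δ * y) := by nlinarith
        have := TN3a_le this
        rwa [Real.rpow_zero] at this
      calc Ub a / Ub k ≤ (2 * (2 : ℝ) ^ (-(kap0 * x))) * 1 := by rw [mul_one]; exact hr
        _ ≤ _ := mul_le_mul_of_nonneg_left h4 (by have := TN3a_two (-(kap0 * x)); positivity)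
    · have := TN3a_two (-(kap0 * x))
      have := TN3a_two δ
      have := TN3a_two (-(δ * y))
      positivity
  have e1 : (2 : ℝ) ^ (kap0 / 4 * x) * (2 : ℝ) ^ (-(kap0 * x)) * (2 : ℝ) ^ (kap0 / 8 * x) ≤
      (2 : ℝ) ^ (-(kap0 / 2 * x)) := by
    rw [← Real.rpow_add (by norm_num), ← Real.rpow_add (by norm_num)]
    apply TN3a_le
    nlinarith
  have e2 : (2 : ℝ) ^ (kap0 / 4 * x) * (2 : ℝ) ^ (-(kap0 * x)) ≤ (2 : ℝ) ^ (-(kap0 / 2 * x)) := by
    rw [← Real.rpow_add (by norm_num)]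
    apply TN3a_le
    nlinarith
  have p1 := TN3a_two (kap0 / 4)
  have p2 := TN3a_two (kap0 / 4 * x)
  have p3 := TN3a_two δ
  have p4 := TN3a_two (-(δ * y))
  have p5 := TN3a_two (-(kap0 * x))
  have p6 := TN3a_two (kap0 / 8 * x)
  calc (2 : ℝ) ^ (kap0 / 4 * ((k : ℝ) + 1 - a)) * (TT (kap0 / 8) δ k a b + if k ≤ b + 1 then Ub a / Ub k else 0)
      ≤ ((2 : ℝ) ^ (kap0 / 4) * (2 : ℝ) ^ (kap0 / 4 * x)) *
        ((2 * (2 : ℝ) ^ (-(kap0 * x))) * (2 : ℝ) ^ (kap0 / 8 * x) * (2 : ℝ) ^ (-(δ * y)) +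
          (2 * (2 : ℝ) ^ (-(kap0 * x))) * ((2 : ℝ) ^ δ * (2 : ℝ) ^ (-(δ * y)))) := by
        apply mul_le_mul h1 (add_le_add h2 h3)
        · apply add_nonneg (TT_nonneg _ _ _ _ _)
          split_ifs
          · exact hr0
          · exact le_refl _
        · positivity
    _ = (2 : ℝ) ^ (kap0 / 4) * 2 * (2 : ℝ) ^ (-(δ * y)) * ((2 : ℝ) ^ (kap0 / 4 * x) * (2 : ℝ) ^ (-(kap0 * x)) * (2 : ℝ) ^ (kap0 / 8 * x)) +
        (2 : ℝ) ^ (kap0 / 4) * 2 * (2 : ℝ) ^ δ * (2 : ℝ) ^ (-(δ * y)) * ((2 : ℝ) ^ (kap0 / 4 * x) * (2 : ℝ) ^ (-(kap0 * x))) := by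
        ring
    _ ≤ (2 : ℝ) ^ (kap0 / 4) * 2 * (2 : ℝ) ^ (-(δ * y)) * (2 : ℝ) ^ (-(kap0 / 2 * x)) +
        (2 : ℝ) ^ (kap0 / 4) * 2 * (2 : ℝ) ^ δ * (2 : ℝ) ^ (-(δ * y)) * (2 : ℝ) ^ (-(kap0 / 2 * x)) := by
        apply add_le_add
        · exact mul_le_mul_of_nonneg_left e1 (by positivity)
        · exact mul_le_mul_of_nonneg_left e2 (by positivity)
    _ = _ := by ring

/-- the double geometric sum -/
private theorem TN3a_sum (hδ : 0 < δ) : ∃ K : ℝ, 1 ≤ K ∧ ∀ k : ℕ,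
    ∑ b ∈ range (k + 1), ∑ a ∈ Icc b (k + 1), (2 : ℝ) ^ (-(kap0 / 2 * ((k - a : ℕ) : ℝ))) *
      (2 : ℝ) ^ (-(δ * ((min a k - b : ℕ) : ℝ))) ≤ K := by
  obtain ⟨K1, hK1, h1⟩ := geo (c := kap0 / 2) (by have := kap0_pos; linarith)
  obtain ⟨K2, hK2, h2⟩ := geo hδ
  refine ⟨(K1 + 1) * K2, by nlinarith, fun k => ?_⟩
  have e1 : ∑ b ∈ range (k + 1), ∑ a ∈ Icc b (k + 1), (2 : ℝ) ^ (-(kap0 / 2 * ((k - a : ℕ) : ℝ))) *
      (2 : ℝ) ^ (-(δ * ((min a k - b : ℕ) : ℝ))) =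
      ∑ a ∈ range (k + 2), ∑ b ∈ range (min a k + 1), (2 : ℝ) ^ (-(kap0 / 2 * ((k - a : ℕ) : ℝ))) *
      (2 : ℝ) ^ (-(δ * ((min a k - b : ℕ) : ℝ))) := by
    apply Finset.sum_comm'
    intro b a
    simp only [Finset.mem_range, Finset.mem_Icc]
    omega
  rw [e1]
  have e2 : ∀ m : ℕ, ∑ b ∈ range (m + 1), (2 : ℝ) ^ (-(δ * ((m - b : ℕ) : ℝ))) ≤ K2 := by
    intro m
    have := Finset.sum_range_reflect (fun i : ℕ => (2 : ℝ) ^ (-(δ * (i : ℝ)))) (m + 1)
    simp only [Nat.add_sub_cancel] at this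
    rw [this]
    exact h2 (m + 1)
  have e3 : ∑ a ∈ range (k + 2), (2 : ℝ) ^ (-(kap0 / 2 * ((k - a : ℕ) : ℝ))) ≤ K1 + 1 := by
    rw [Finset.sum_range_succ]
    have h3 : k - (k + 1) = 0 := by omega
    rw [h3]
    have h4 := Finset.sum_range_reflect (fun i : ℕ => (2 : ℝ) ^ (-(kap0 / 2 * (i : ℝ)))) (k + 1)
    simp only [Nat.add_sub_cancel] at h4
    rw [h4]
    have h5 := h1 (k + 1)
    simp
    linarith
  calc _ = ∑ a ∈ range (k + 2), (2 : ℝ) ^ (-(kap0 / 2 * ((k - a : ℕ) : ℝ))) *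
      ∑ b ∈ range (min a k + 1), (2 : ℝ) ^ (-(δ * ((min a k - b : ℕ) : ℝ))) := by
        refine Finset.sum_congr rfl fun a _ => ?_
        rw [Finset.mul_sum]
    _ ≤ ∑ a ∈ range (k + 2), (2 : ℝ) ^ (-(kap0 / 2 * ((k - a : ℕ) : ℝ))) * K2 := by
        refine Finset.sum_le_sum fun a _ => ?_
        exact mul_le_mul_of_nonneg_left (e2 _) (TN3a_two _).le
    _ = (∑ a ∈ range (k + 2), (2 : ℝ) ^ (-(kap0 / 2 * ((k - a : ℕ) : ℝ)))) * K2 := by
        rw [Finset.sum_mul]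
    _ ≤ (K1 + 1) * K2 := mul_le_mul_of_nonneg_right e3 (by linarith)

/-- (n2). First part of Sw: pm_one, geo_Ub. Second part: pm_rev, pm_EE with j = k, sum over b ≤ a of the geometric
factor, then over a ≤ k + 1 with Ub a / Ub k ≤ 4 * 2^(-kap0 (k - a)) (geo_Ub) -/
theorem n2 (h : Inp C δ) : ∃ K : ℝ, 1 ≤ K ∧ ∀ D k : ℕ, 2 ^ (k + 4) ≤ D →
    ∑ b ∈ range (k + 1), pm k b (fun P => Sw D k b P) ≤ ENNReal.ofReal K := by
  obtain ⟨K1, hK1, h1⟩ := pm_one
  obtain ⟨K2, hK2, h2⟩ := pm_EE h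
  obtain ⟨K3, hK3, h3⟩ := geo_Ub (η := kap0 / 4) (by have := kap0_pos; linarith)
  obtain ⟨K4, hK4, h4⟩ := TN3a_sum h.pos
  set A : ℝ := (2 : ℝ) ^ (kap0 / 4) * 2 * (1 + (2 : ℝ) ^ δ) with hA
  have hA0 : 0 ≤ A := by
    have := TN3a_two (kap0 / 4)
    have := TN3a_two δ
    positivity
  refine ⟨K1 * K3 + K2 * (A * K4), ?_, fun D k hD => ?_⟩
  · have : 1 ≤ K1 * K3 := by nlinarith
    have : 0 ≤ K2 * (A * K4) := by positivity
    linarith
  have key : ∀ b ∈ range (k + 1), pm k b (fun P => Sw D k b P) ≤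
      ENNReal.ofReal (K1 / Ub k * ((2 : ℝ) ^ (kap0 / 4 * ((k : ℝ) - b)) * Ub b) +
        ∑ a ∈ Icc b (k + 1), K2 * (A * ((2 : ℝ) ^ (-(kap0 / 2 * ((k - a : ℕ) : ℝ))) *
          (2 : ℝ) ^ (-(δ * ((min a k - b : ℕ) : ℝ)))))) := by
    intro b hb
    rw [Finset.mem_range] at hb
    have hU := Ub_pos k
    have hUb := Ub_pos b
    have t1 := TN3a_two (kap0 / 4 * ((k : ℝ) - b))
    unfold Sw
    rw [TN3a_pm_add, TN3a_pm_sum, ENNReal.ofReal_add (by positivity) (Finset.sum_nonneg fun a _ => by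
      have := TN3a_two (-(kap0 / 2 * ((k - a : ℕ) : ℝ)))
      have := TN3a_two (-(δ * ((min a k - b : ℕ) : ℝ)))
      positivity)]
    apply add_le_add
    · refine le_trans (h1 k b _) ?_
      rw [← ENNReal.ofReal_mul (by positivity)]
    · rw [ENNReal.ofReal_sum_of_nonneg (fun a _ => by
        have := TN3a_two (-(kap0 / 2 * ((k - a : ℕ) : ℝ)))
        have := TN3a_two (-(δ * ((min a k - b : ℕ) : ℝ)))
        positivity)]
      refine Finset.sum_le_sum fun a ha => ?_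
      rw [Finset.mem_Icc] at ha
      rw [TN3a_pm_mul, pm_rev k b (fun I => EE D b a I)]
      have hDa : 2 ^ (a + 3) ≤ D := le_trans (Nat.pow_le_pow_right (by norm_num) (by omega)) hD
      refine le_trans (mul_le_mul_right (h2 D a b k b ha.1 hDa) _) ?_
      rw [← ENNReal.ofReal_mul (TN3a_two _).le]
      apply ENNReal.ofReal_le_ofReal
      have h5 := TN3a_term (δ := δ) h.pos ha.1 ha.2
      rw [← hA] at h5
      have h6 := mul_le_mul_of_nonneg_left h5 (by linarith : (0 : ℝ) ≤ K2)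
      refine le_trans (le_of_eq ?_) h6
      ring
  refine le_trans (Finset.sum_le_sum key) ?_
  rw [← ENNReal.ofReal_sum_of_nonneg (fun b _ => by
    have hU := Ub_pos k
    have hUb := Ub_pos b
    have t1 := TN3a_two (kap0 / 4 * ((k : ℝ) - b))
    refine add_nonneg (by positivity) (Finset.sum_nonneg fun a _ => ?_)
    have := TN3a_two (-(kap0 / 2 * ((k - a : ℕ) : ℝ)))
    have := TN3a_two (-(δ * ((min a k - b : ℕ) : ℝ)))
    positivity)]
  apply ENNReal.ofReal_le_ofReal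
  rw [Finset.sum_add_distrib]
  apply add_le_add
  · rw [← Finset.mul_sum]
    have hU := Ub_pos k
    refine le_trans (mul_le_mul_of_nonneg_left (h3 k) (by positivity)) (le_of_eq ?_)
    field_simp
  · have e : ∑ b ∈ range (k + 1), ∑ a ∈ Icc b (k + 1), K2 * (A * ((2 : ℝ) ^ (-(kap0 / 2 * ((k - a : ℕ) : ℝ))) *
          (2 : ℝ) ^ (-(δ * ((min a k - b : ℕ) : ℝ))))) =
        K2 * (A * ∑ b ∈ range (k + 1), ∑ a ∈ Icc b (k + 1), (2 : ℝ) ^ (-(kap0 / 2 * ((k - a : ℕ) : ℝ))) *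
          (2 : ℝ) ^ (-(δ * ((min a k - b : ℕ) : ℝ)))) := by
      simp only [Finset.mul_sum]
    rw [e]
    exact mul_le_mul_of_nonneg_left (mul_le_mul_of_nonneg_left (h4 k) hA0) (by linarith)

/-- geometric sum of the kernel masses -/
private lemma TN3b_geo (hδ : 0 < δ) : ∃ K : ℝ, 1 ≤ K ∧ ∀ j b : ℕ,
    ∑ a ∈ range (j + 2), (if a ≤ b then (2 : ℝ) ^ (-(δ * ((min b j - a : ℕ) : ℝ))) else 0) ≤ K := by
  obtain ⟨K, hK1, hK⟩ := geo hδ
  refine ⟨K + 1, by linarith, fun j b => ?_⟩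
  rw [Finset.sum_range_succ]
  have h1 : (if j + 1 ≤ b then (2 : ℝ) ^ (-(δ * ((min b j - (j + 1) : ℕ) : ℝ))) else 0) ≤ 1 := by
    split_ifs
    · apply Real.rpow_le_one_of_one_le_of_nonpos (by norm_num)
      have : 0 ≤ δ * ((min b j - (j + 1) : ℕ) : ℝ) := by positivity
      linarith
    · exact zero_le_one
  have h2 : ∑ a ∈ range (j + 1), (if a ≤ b then (2 : ℝ) ^ (-(δ * ((min b j - a : ℕ) : ℝ))) else 0) ≤ K := by
    have h3 : ∑ a ∈ range (j + 1), (if a ≤ b then (2 : ℝ) ^ (-(δ * ((min b j - a : ℕ) : ℝ))) else 0) =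
        ∑ a ∈ range (min b j + 1), (2 : ℝ) ^ (-(δ * ((min b j - a : ℕ) : ℝ))) := by
      rw [← Finset.sum_filter]
      apply Finset.sum_congr _ fun _ _ => rfl
      ext a
      simp only [Finset.mem_filter, Finset.mem_range]
      omega
    rw [h3, ← Finset.sum_range_reflect]
    refine le_trans (le_of_eq ?_) (hK (min b j + 1))
    refine Finset.sum_congr rfl fun a ha => ?_
    rw [Finset.mem_range] at ha
    have h4 : min b j - (min b j + 1 - 1 - a) = a := by omega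
    rw [h4]
  linarith

/-- (k1). a > b: KT_le_left, pm_one, the terms are terms of Sw. a ≤ b: KT_le_right, pm_EE: sum over a ≤ min b (j+1) of
TT (kap0/8) δ j b a (geometric), and the values a ≥ j - 1 with Ub b / Ub j; compared with the first term of Sw -/
theorem k1 (h : Inp C δ) : ∃ K : ℝ, 1 ≤ K ∧ ∀ (D k j b : ℕ) (I : List Bool), 2 ^ (k + 4) ≤ D → j ≤ k → b ≤ k →
    ∑ a ∈ range (j + 2), pm j a (fun P => KT D b I a P) ≤ ENNReal.ofReal (K / Ub j) * Sw D k b I := by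
  obtain ⟨K1, hK1, h1⟩ := pm_one
  obtain ⟨K2, hK2, h2⟩ := pm_EE h
  obtain ⟨K3, hK3, h3⟩ := TN3b_geo h.pos
  refine ⟨K2 * (K3 + 3) + K1, by nlinarith, fun D k j b I hD hj hb => ?_⟩
  have hUj := Ub_pos j
  have hUb := Ub_pos b
  have hk0 := kap0_pos
  have hDb : 2 ^ (b + 3) ≤ D := le_trans (Nat.pow_le_pow_right (by norm_num) (by omega)) hD
  -- bound of one term
  have hterm : ∀ a ∈ range (j + 2), pm j a (fun P => KT D b I a P) ≤
      ENNReal.ofReal (K2 * ((if a ≤ b then TT (kap0 / 8) δ j b a else 0) +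
        if j ≤ a + 1 then Ub b / Ub j else 0)) +
      ENNReal.ofReal (K1 / Ub j) * (if b < a then EE D b a (rev I) else 0) := by
    intro a _
    by_cases hab : a ≤ b
    · refine le_trans ((pm_mono fun P => KT_le_right D b I a P).trans (h2 D b a j a hab hDb)) ?_
      rw [if_pos hab]
      exact le_self_add
    · rw [if_pos (by omega : b < a)]
      refine le_trans ((pm_mono fun P => KT_le_left D b I a P).trans (h1 j a _)) ?_
      exact le_add_self
  refine (Finset.sum_le_sum hterm).trans ?_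
  rw [Finset.sum_add_distrib]
  -- the part a ≤ b
  have hX : ∑ a ∈ range (j + 2), ENNReal.ofReal (K2 * ((if a ≤ b then TT (kap0 / 8) δ j b a else 0) +
        if j ≤ a + 1 then Ub b / Ub j else 0)) ≤
      ENNReal.ofReal (K2 * (K3 + 3) / Ub j) *
        ENNReal.ofReal ((2 : ℝ) ^ (kap0 / 4 * ((k : ℝ) - b)) * Ub b) := by
    rw [← ENNReal.ofReal_sum_of_nonneg, ← ENNReal.ofReal_mul (by positivity)]
    · apply ENNReal.ofReal_le_ofReal
      rw [← Finset.mul_sum, Finset.sum_add_distrib]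
      set P2 : ℝ := (2 : ℝ) ^ (kap0 / 4 * ((k : ℝ) - b)) with hP2
      have hkb : (b : ℝ) ≤ k := by exact_mod_cast hb
      have hP1 : 1 ≤ P2 := Real.one_le_rpow (by norm_num) (by
        apply mul_nonneg (by linarith)
        linarith)
      have e1 : (2 : ℝ) ^ (kap0 / 8 * ((j - b : ℕ) : ℝ)) ≤ P2 := by
        apply Real.rpow_le_rpow_of_exponent_le (by norm_num)
        have e2 : ((j - b : ℕ) : ℝ) ≤ (k : ℝ) - b := by
          rw [← Nat.cast_sub hb]
          exact_mod_cast (by omega : j - b ≤ k - b)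
        have e3 : (0 : ℝ) ≤ ((j - b : ℕ) : ℝ) := Nat.cast_nonneg _
        nlinarith
      have e4 : ∑ a ∈ range (j + 2), (if a ≤ b then TT (kap0 / 8) δ j b a else 0) ≤
          Ub b / Ub j * P2 * K3 := by
        have e5 : ∑ a ∈ range (j + 2), (if a ≤ b then TT (kap0 / 8) δ j b a else 0) =
            Ub b / Ub j * (2 : ℝ) ^ (kap0 / 8 * ((j - b : ℕ) : ℝ)) *
            ∑ a ∈ range (j + 2), (if a ≤ b then (2 : ℝ) ^ (-(δ * ((min b j - a : ℕ) : ℝ))) else 0) := by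
          rw [Finset.mul_sum]
          refine Finset.sum_congr rfl fun a _ => ?_
          rw [mul_ite, mul_zero]
          rfl
        rw [e5]
        have e6 := h3 j b
        have e7 : 0 ≤ Ub b / Ub j := by positivity
        have e8 : 0 ≤ ∑ a ∈ range (j + 2),
            (if a ≤ b then (2 : ℝ) ^ (-(δ * ((min b j - a : ℕ) : ℝ))) else 0) :=
          Finset.sum_nonneg fun a _ => by split_ifs <;> positivity
        calc _ ≤ Ub b / Ub j * P2 * ∑ a ∈ range (j + 2),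
            (if a ≤ b then (2 : ℝ) ^ (-(δ * ((min b j - a : ℕ) : ℝ))) else 0) := by gcongr
          _ ≤ _ := by gcongr
      have e9 : ∑ a ∈ range (j + 2), (if j ≤ a + 1 then Ub b / Ub j else 0) ≤ Ub b / Ub j * P2 * 3 := by
        rw [← Finset.sum_filter, Finset.sum_const, nsmul_eq_mul]
        have f1 : ((range (j + 2)).filter (fun a => j ≤ a + 1)).card ≤ 3 := by
          have f2 : (range (j + 2)).filter (fun a => j ≤ a + 1) ⊆ Icc (j - 1) (j + 1) := by
            intro a ha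
            simp only [Finset.mem_filter, Finset.mem_range] at ha
            rw [Finset.mem_Icc]
            omega
          refine (Finset.card_le_card f2).trans ?_
          rw [Nat.card_Icc]
          omega
        have f3 : (((range (j + 2)).filter (fun a => j ≤ a + 1)).card : ℝ) ≤ 3 := by exact_mod_cast f1
        have e7 : 0 ≤ Ub b / Ub j := by positivity
        nlinarith [mul_nonneg e7 (by linarith : (0 : ℝ) ≤ P2 - 1)]
      calc K2 * (_ + _) ≤ K2 * (Ub b / Ub j * P2 * K3 + Ub b / Ub j * P2 * 3) := by gcongr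
        _ = K2 * (K3 + 3) / Ub j * (P2 * Ub b) := by ring
    · intro a _
      have e1 : 0 ≤ (if a ≤ b then TT (kap0 / 8) δ j b a else 0) := by
        split_ifs
        · exact TT_nonneg _ _ _ _ _
        · exact le_rfl
      have e2 : 0 ≤ (if j ≤ a + 1 then Ub b / Ub j else 0) := by split_ifs <;> positivity
      positivity
  -- the part a > b
  have hY : ∑ a ∈ range (j + 2), ENNReal.ofReal (K1 / Ub j) * (if b < a then EE D b a (rev I) else 0) ≤
      ENNReal.ofReal (K1 / Ub j) *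
        ∑ a ∈ Icc b (k + 1), ENNReal.ofReal ((2 : ℝ) ^ (kap0 / 4 * ((k : ℝ) + 1 - a))) * EE D b a (rev I) := by
    rw [← Finset.mul_sum]
    gcongr
    rw [← Finset.sum_filter]
    refine le_trans ?_ (Finset.sum_le_sum_of_subset (?_ : (range (j + 2)).filter (fun a => b < a) ⊆ Icc b (k + 1)))
    · refine Finset.sum_le_sum fun a ha => ?_
      simp only [Finset.mem_filter, Finset.mem_range] at ha
      have g1 : (1 : ℝ≥0∞) ≤ ENNReal.ofReal ((2 : ℝ) ^ (kap0 / 4 * ((k : ℝ) + 1 - a))) := by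
        rw [← ENNReal.ofReal_one]
        apply ENNReal.ofReal_le_ofReal
        apply Real.one_le_rpow (by norm_num)
        apply mul_nonneg (by linarith)
        have : (a : ℝ) ≤ k + 1 := by exact_mod_cast (by omega : a ≤ k + 1)
        linarith
      calc EE D b a (rev I) = 1 * EE D b a (rev I) := (one_mul _).symm
        _ ≤ _ := by gcongr
    · intro a ha
      simp only [Finset.mem_filter, Finset.mem_range] at ha
      rw [Finset.mem_Icc]
      omega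
  refine (add_le_add hX hY).trans ?_
  rw [Sw]
  have hA : ENNReal.ofReal (K2 * (K3 + 3) / Ub j) ≤ ENNReal.ofReal ((K2 * (K3 + 3) + K1) / Ub j) := by
    apply ENNReal.ofReal_le_ofReal
    gcongr
    linarith
  have hB : ENNReal.ofReal (K1 / Ub j) ≤ ENNReal.ofReal ((K2 * (K3 + 3) + K1) / Ub j) := by
    apply ENNReal.ofReal_le_ofReal
    gcongr
    nlinarith
  exact (add_le_add (mul_le_mul' hA le_rfl) (mul_le_mul' hB le_rfl)).trans (mul_add _ _ _).symm.le

private theorem TN3c_pow_pos (x : ℝ) : 0 < (2 : ℝ) ^ x := Real.rpow_pos_of_pos two_pos x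

private theorem TN3c_pow_le {x y : ℝ} (h : x ≤ y) : (2 : ℝ) ^ x ≤ (2 : ℝ) ^ y :=
  Real.rpow_le_rpow_of_exponent_le one_le_two h

/-- geometric sum below m -/
private theorem TN3c_geo {K3 : ℝ} (hK3 : ∀ n : ℕ, ∑ i ∈ range n, (2 : ℝ) ^ (-(δ * (i : ℝ))) ≤ K3)
    {b m : ℕ} (hmb : m ≤ b) (hδ : 0 < δ) :
    ∑ a ∈ range m, (2 : ℝ) ^ (-(δ * ((b - a : ℕ) : ℝ))) ≤ K3 * (2 : ℝ) ^ (-(δ * ((b : ℝ) - m))) := by
  rw [← sum_range_reflect]
  calc ∑ j ∈ range m, (2 : ℝ) ^ (-(δ * ((b - (m - 1 - j) : ℕ) : ℝ)))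
      ≤ ∑ j ∈ range m, (2 : ℝ) ^ (-(δ * (j : ℝ))) * (2 : ℝ) ^ (-(δ * ((b : ℝ) - m))) := by
        refine sum_le_sum fun j hj => ?_
        rw [mem_range] at hj
        rw [← Real.rpow_add two_pos]
        apply TN3c_pow_le
        have h1 : ((b - (m - 1 - j) : ℕ) : ℝ) = (b : ℝ) - m + 1 + j := by
          have h2 : (b - (m - 1 - j)) + m = b + 1 + j := by omega
          have h3 : (((b - (m - 1 - j)) + m : ℕ) : ℝ) = ((b + 1 + j : ℕ) : ℝ) := by rw [h2]
          push_cast at h3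
          linarith
        rw [h1]
        nlinarith
    _ = (∑ j ∈ range m, (2 : ℝ) ^ (-(δ * (j : ℝ)))) * (2 : ℝ) ^ (-(δ * ((b : ℝ) - m))) := by
        rw [sum_mul]
    _ ≤ K3 * (2 : ℝ) ^ (-(δ * ((b : ℝ) - m))) :=
        mul_le_mul_of_nonneg_right (hK3 m) (TN3c_pow_pos _).le

/-- (k2). a ≤ j1 + 1 ≤ k - 2: only pieces higher than 2^(k-1) -/
theorem k2 (h : Inp C δ) : ∃ K c : ℝ, 1 ≤ K ∧ 0 < c ∧ ∀ (D k j1 b : ℕ) (I : List Bool), 2 ^ (k + 4) ≤ D →
    j1 + 3 ≤ k → b ≤ k → ∑ a ∈ range (j1 + 2), pm k a (fun P => KT D b I a P) ≤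
      ENNReal.ofReal (K / Ub k * (2 : ℝ) ^ (-(c * ((k : ℝ) - j1)))) * Sw D k b I := by
  obtain ⟨K1, hK1, h1⟩ := pm_one
  obtain ⟨K2, hK2, h2⟩ := pm_EE h
  obtain ⟨K3, hK3, h3⟩ := geo h.pos
  have hδ := h.pos
  have hk0 := kap0_pos
  obtain ⟨c, hc⟩ : ∃ c, c = min (kap0 / 8) δ := ⟨_, rfl⟩
  have hc0 : 0 < c := by rw [hc]; exact lt_min (by linarith) hδ
  have hck : c ≤ kap0 / 8 := by rw [hc]; exact min_le_left _ _
  have hcδ : c ≤ δ := by rw [hc]; exact min_le_right _ _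
  have hK' : 1 ≤ K2 * K3 * (2 : ℝ) ^ (2 * c) := by
    have e1 : 1 ≤ (2 : ℝ) ^ (2 * c) := Real.one_le_rpow one_le_two (by linarith)
    nlinarith [mul_le_mul hK2 hK3 zero_le_one (by linarith : (0 : ℝ) ≤ K2)]
  refine ⟨K1 + K2 * K3 * (2 : ℝ) ^ (2 * c), c, by linarith, hc0, ?_⟩
  intro D k j1 b I hD hj hb
  have hUk := Ub_pos k
  have hUb := Ub_pos b
  obtain ⟨E, hE⟩ : ∃ E, E = (2 : ℝ) ^ (-(c * ((k : ℝ) - j1))) := ⟨_, rfl⟩
  have hE0 : 0 < E := by rw [hE]; exact TN3c_pow_pos _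
  rw [← hE]
  have hj' : (j1 : ℝ) + 3 ≤ k := by exact_mod_cast hj
  have hb' : (b : ℝ) ≤ k := by exact_mod_cast hb
  rw [← sum_filter_add_sum_filter_not (range (j1 + 2)) (fun a => b ≤ a)]
  -- first part
  have p1 : ∑ a ∈ (range (j1 + 2)).filter (fun a => b ≤ a), pm k a (fun P => KT D b I a P) ≤
      ENNReal.ofReal (K1 / Ub k * E) *
        ∑ a ∈ Icc b (k + 1), ENNReal.ofReal ((2 : ℝ) ^ (kap0 / 4 * ((k : ℝ) + 1 - a))) *
          EE D b a (rev I) := by
    rw [mul_sum]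
    calc ∑ a ∈ (range (j1 + 2)).filter (fun a => b ≤ a), pm k a (fun P => KT D b I a P)
        ≤ ∑ a ∈ (range (j1 + 2)).filter (fun a => b ≤ a), ENNReal.ofReal (K1 / Ub k * E) *
            (ENNReal.ofReal ((2 : ℝ) ^ (kap0 / 4 * ((k : ℝ) + 1 - a))) * EE D b a (rev I)) := by
          refine sum_le_sum fun a ha => ?_
          rw [mem_filter, mem_range] at ha
          have ha' : (a : ℝ) ≤ j1 + 1 := by
            have : a ≤ j1 + 1 := by omega
            exact_mod_cast this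
          refine (pm_mono (Ψ := fun _ => EE D b a (rev I)) fun P => KT_le_left D b I a P).trans ?_
          refine (h1 k a _).trans ?_
          rw [← mul_assoc, ← ENNReal.ofReal_mul (by positivity)]
          gcongr
          rw [mul_assoc]
          refine le_mul_of_one_le_right (by positivity) ?_
          rw [hE, ← Real.rpow_add two_pos]
          apply Real.one_le_rpow one_le_two
          nlinarith
      _ ≤ ∑ a ∈ Icc b (k + 1), ENNReal.ofReal (K1 / Ub k * E) *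
            (ENNReal.ofReal ((2 : ℝ) ^ (kap0 / 4 * ((k : ℝ) + 1 - a))) * EE D b a (rev I)) := by
          apply sum_le_sum_of_subset
          intro a ha
          rw [mem_filter, mem_range] at ha
          rw [mem_Icc]
          omega
  -- second part
  have p2 : ∑ a ∈ (range (j1 + 2)).filter (fun a => ¬ b ≤ a), pm k a (fun P => KT D b I a P) ≤
      ENNReal.ofReal (K2 * K3 * (2 : ℝ) ^ (2 * c) / Ub k * E) *
        ENNReal.ofReal ((2 : ℝ) ^ (kap0 / 4 * ((k : ℝ) - b)) * Ub b) := by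
    have hD' : 2 ^ (b + 3) ≤ D := le_trans (Nat.pow_le_pow_right (by norm_num) (by omega)) hD
    have hf : (range (j1 + 2)).filter (fun a => ¬ b ≤ a) = range (min b (j1 + 2)) := by
      ext a
      rw [mem_filter, mem_range, mem_range]
      omega
    rw [hf]
    have hm1 : min b (j1 + 2) ≤ b := min_le_left _ _
    have hm2 : min b (j1 + 2) ≤ j1 + 2 := min_le_right _ _
    have hm3 : ((min b (j1 + 2) : ℕ) : ℝ) ≤ j1 + 2 := by exact_mod_cast hm2
    have hm4 : ((min b (j1 + 2) : ℕ) : ℝ) ≤ b := by exact_mod_cast hm1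
    calc ∑ a ∈ range (min b (j1 + 2)), pm k a (fun P => KT D b I a P)
        ≤ ∑ a ∈ range (min b (j1 + 2)), ENNReal.ofReal (K2 * (Ub b / Ub k *
            (2 : ℝ) ^ (kap0 / 8 * ((k : ℝ) - b))) * (2 : ℝ) ^ (-(δ * ((b - a : ℕ) : ℝ)))) := by
          refine sum_le_sum fun a ha => ?_
          rw [mem_range] at ha
          have hab : a ≤ b := by omega
          refine (pm_mono (Ψ := fun P => EE D a b P) fun P => KT_le_right D b I a P).trans ?_
          refine (h2 D b a k a hab hD').trans (ENNReal.ofReal_le_ofReal (le_of_eq ?_))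
          rw [if_neg (by omega), add_zero, TT, min_eq_left hb, Nat.cast_sub hb]
          ring
      _ = ENNReal.ofReal (∑ a ∈ range (min b (j1 + 2)), K2 * (Ub b / Ub k *
            (2 : ℝ) ^ (kap0 / 8 * ((k : ℝ) - b))) * (2 : ℝ) ^ (-(δ * ((b - a : ℕ) : ℝ)))) := by
          rw [ENNReal.ofReal_sum_of_nonneg]
          intro a _
          positivity
      _ ≤ ENNReal.ofReal (K2 * K3 * (2 : ℝ) ^ (2 * c) / Ub k * E *
            ((2 : ℝ) ^ (kap0 / 4 * ((k : ℝ) - b)) * Ub b)) := by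
          apply ENNReal.ofReal_le_ofReal
          rw [← mul_sum]
          have g1 := TN3c_geo (δ := δ) h3 hm1 hδ
          calc K2 * (Ub b / Ub k * (2 : ℝ) ^ (kap0 / 8 * ((k : ℝ) - b))) *
              ∑ a ∈ range (min b (j1 + 2)), (2 : ℝ) ^ (-(δ * ((b - a : ℕ) : ℝ)))
              ≤ K2 * (Ub b / Ub k * (2 : ℝ) ^ (kap0 / 8 * ((k : ℝ) - b))) *
                (K3 * (2 : ℝ) ^ (-(δ * ((b : ℝ) - (min b (j1 + 2) : ℕ))))) := by
                gcongr
            _ = K2 * K3 * (Ub b / Ub k) * ((2 : ℝ) ^ (kap0 / 8 * ((k : ℝ) - b)) *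
                (2 : ℝ) ^ (-(δ * ((b : ℝ) - (min b (j1 + 2) : ℕ))))) := by ring
            _ ≤ K2 * K3 * (Ub b / Ub k) * ((2 : ℝ) ^ (2 * c) * E *
                (2 : ℝ) ^ (kap0 / 4 * ((k : ℝ) - b))) := by
                have hK23 : 0 ≤ K2 * K3 := by nlinarith
                apply mul_le_mul_of_nonneg_left _ (by positivity)
                rw [hE, ← Real.rpow_add two_pos, ← Real.rpow_add two_pos, ← Real.rpow_add two_pos]
                apply TN3c_pow_le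
                have q1 : c * ((k : ℝ) - b) ≤ kap0 / 8 * ((k : ℝ) - b) :=
                  mul_le_mul_of_nonneg_right hck (by linarith)
                have q2 : c * ((b : ℝ) - (min b (j1 + 2) : ℕ)) ≤
                    δ * ((b : ℝ) - (min b (j1 + 2) : ℕ)) :=
                  mul_le_mul_of_nonneg_right hcδ (by linarith)
                have q3 : c * ((min b (j1 + 2) : ℕ) : ℝ) ≤ c * (j1 + 2) :=
                  mul_le_mul_of_nonneg_left hm3 hc0.le
                nlinarith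
            _ = K2 * K3 * (2 : ℝ) ^ (2 * c) / Ub k * E *
                ((2 : ℝ) ^ (kap0 / 4 * ((k : ℝ) - b)) * Ub b) := by ring
      _ = ENNReal.ofReal (K2 * K3 * (2 : ℝ) ^ (2 * c) / Ub k * E) *
          ENNReal.ofReal ((2 : ℝ) ^ (kap0 / 4 * ((k : ℝ) - b)) * Ub b) := by
          rw [ENNReal.ofReal_mul]
          have hK23 : 0 ≤ K2 * K3 := by nlinarith
          positivity
  have r1 : K1 / Ub k * E ≤ (K1 + K2 * K3 * (2 : ℝ) ^ (2 * c)) / Ub k * E := by
    gcongr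
    linarith
  have r2 : K2 * K3 * (2 : ℝ) ^ (2 * c) / Ub k * E ≤
      (K1 + K2 * K3 * (2 : ℝ) ^ (2 * c)) / Ub k * E := by
    gcongr
    linarith
  calc _ ≤ _ := add_le_add p1 p2
    _ ≤ ENNReal.ofReal ((K1 + K2 * K3 * (2 : ℝ) ^ (2 * c)) / Ub k * E) *
        (∑ a ∈ Icc b (k + 1), ENNReal.ofReal ((2 : ℝ) ^ (kap0 / 4 * ((k : ℝ) + 1 - a))) *
          EE D b a (rev I)) +
        ENNReal.ofReal ((K1 + K2 * K3 * (2 : ℝ) ^ (2 * c)) / Ub k * E) *
        ENNReal.ofReal ((2 : ℝ) ^ (kap0 / 4 * ((k : ℝ) - b)) * Ub b) := by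
        gcongr
    _ = ENNReal.ofReal ((K1 + K2 * K3 * (2 : ℝ) ^ (2 * c)) / Ub k * E) * Sw D k b I := by
        rw [Sw, mul_add]
        exact add_comm _ _

end TS

end HexObs
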