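import Pool.Agent.TightN.Final
import Pool.Agent.HexLim.Lists

/-!
TIGHT: words and lists of sites; the stopped law and the polygonal curve in terms of lists.
-/

set_option autoImplicit false

namespace HexObs

namespace CC

open Finset MeasureTheory Filter Topology

open scoped ENNReal

/-- the row s is a cut row of the list: first the sites of the rows up to s, then the sites above the row s -/
def RowCut (L : List (ℤ × ℤ)) (s : ℕ) : Prop :=
  ∃ L1 L2 : List (ℤ × ℤ), L = L1 ++ L2 ∧ (∀ p ∈ L1, p.2 ≤ s) ∧ ∀ p ∈ L2, (s : ℤ) < p.2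

/-- bridges with at least T rows such that no row s ≥ T below the last one is a cut row -/
def Stop (T : ℕ) (L : List (ℤ × ℤ)) : Prop :=
  ∃ j : ℕ, T ≤ j ∧ (∃ b, Crossing j 0 b L) ∧ ∀ s, T ≤ s → s < j → ¬ RowCut L s

/-- position of a site in the regular honeycomb lattice -/
noncomputable def pos (p : ℤ × ℤ) : ℂ :=
  ⟨Real.sqrt 3 / 2 * p.1, 3 / 2 * p.2 - if Even (p.1 + p.2) then 0 else 1 / 2⟩

lemma lev_lv (t : List Bool) (i : ℕ) : lev t i = lv (vx oo up t i) := by
  unfold lev lv ip up
  ring

lemma row_lev (t : List Bool) (i : ℕ) : (ph (vx oo up t i)).2 = (lev t i + 1) / 3 := by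
  rw [lev_lv]
  rfl

lemma lev_mod (t : List Bool) (i : ℕ) : lev t i % 3 = if Even i then 0 else 2 := by
  rw [lev_lv]
  exact lv_vx lv_oo t i

lemma row_le (t : List Bool) (i : ℕ) (s : ℤ) : (ph (vx oo up t i)).2 ≤ s ↔ lev t i ≤ 3 * s := by
  rw [row_lev]
  have h := lev_mod t i
  split_ifs at h <;> omega

lemma row_gt (t : List Bool) (i : ℕ) (s : ℤ) : s < (ph (vx oo up t i)).2 ↔ 3 * s < lev t i := by
  have h := row_le t i s
  constructor
  · intro h1
    by_contra h2
    have := h.2 (by omega)
    omega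
  · intro h1
    by_contra h2
    have := h.1 (by omega)
    omega

lemma pos_ph (t : List Bool) (i : ℕ) : pos (ph (vx oo up t i)) = zp t i := by
  have h1 : (ph (vx oo up t i)).1 = lat t i := by
    show (vx oo up t i).1 = lat t i
    unfold lat
    simp only [cross, up]
    ring
  have h2 := row_lev t i
  have h3 := lev_mod t i
  have h4 : lev t i = lat t i + 2 * (vx oo up t i).2 := by
    rw [← h1, lev_lv]
    rfl
  apply Complex.ext
  · rw [zp_re]
    show Real.sqrt 3 / 2 * ((ph (vx oo up t i)).1 : ℝ) = _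
    rw [h1]
  · rw [zp_im]
    show 3 / 2 * ((ph (vx oo up t i)).2 : ℝ) - (if Even ((ph (vx oo up t i)).1 + (ph (vx oo up t i)).2) then (0 : ℝ) else 1 / 2) = _
    by_cases he : Even i
    · rw [if_pos he] at h3
      obtain ⟨n, hn⟩ : ∃ n, lev t i = 3 * n := ⟨lev t i / 3, by omega⟩
      have h5 : (ph (vx oo up t i)).2 = n := by omega
      have h6 : Even ((ph (vx oo up t i)).1 + (ph (vx oo up t i)).2) := by
        rw [h1, h5, Int.even_iff]
        omega
      rw [if_pos h6, h5, hn]
      push_cast
      ring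
    · rw [if_neg he] at h3
      obtain ⟨n, hn⟩ : ∃ n, lev t i = 3 * n - 1 := ⟨(lev t i + 1) / 3, by omega⟩
      have h5 : (ph (vx oo up t i)).2 = n := by omega
      have h6 : ¬ Even ((ph (vx oo up t i)).1 + (ph (vx oo up t i)).2) := by
        rw [h1, h5, Int.even_iff]
        omega
      rw [if_neg h6, h5, hn]
      push_cast
      ring

lemma ip_dir {d : Pt} (hd : d ∈ dirs) (h : 2 ≤ ip d up) : d = up := by
  revert d
  decide

/-- cuts of the word are cut rows of the list -/
theorem rowCut_iff {j s : ℕ} {t : List Bool} (ht : t ∈ Brd j) (hs : 1 ≤ s) (hsj : s < j) :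
    RowCut (toL oo t) s ↔ Cut t s := by
  have hget : ∀ i, (h : i < (toL oo t).length) → (toL oo t)[i] = ph (vx oo up t (i + 1)) := toL_getElem oo t
  have hlen := toL_length oo t
  have ht2 := mem_Brd.1 ht
  rw [cut_iff ht]
  constructor
  · rintro ⟨L1, L2, hL, h1, h2⟩
    have hlen2 : L1.length + L2.length = t.length := by
      rw [← hlen, hL, List.length_append]
    have a1 : ∀ i, 1 ≤ i → i ≤ L1.length → lev t i ≤ 3 * s := by
      intro i hi hi2
      have e : (toL oo t)[i - 1]'(by omega) = L1[i - 1]'(by omega) := by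
        have : (toL oo t)[i - 1]? = (L1 ++ L2)[i - 1]? := by rw [hL]
        rw [List.getElem?_append_left (by omega)] at this
        rw [List.getElem?_eq_getElem (by omega), List.getElem?_eq_getElem (by omega)] at this
        exact Option.some.inj this
      have h3 := h1 _ (List.getElem_mem (l := L1) (n := i - 1) (by omega))
      rw [← e, hget, show i - 1 + 1 = i by omega, row_le] at h3
      exact_mod_cast h3
    have a2 : ∀ i, L1.length < i → i ≤ t.length → 3 * (s : ℤ) < lev t i := by
      intro i hi hi2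
      have e : (toL oo t)[i - 1]'(by omega) = L2[i - 1 - L1.length]'(by omega) := by
        have : (toL oo t)[i - 1]? = (L1 ++ L2)[i - 1]? := by rw [hL]
        rw [List.getElem?_append_right (by omega)] at this
        rw [List.getElem?_eq_getElem (by omega), List.getElem?_eq_getElem (by omega)] at this
        exact Option.some.inj this
      have h3 := h2 _ (List.getElem_mem (l := L2) (n := i - 1 - L1.length) (by omega))
      rw [← e, hget, show i - 1 + 1 = i by omega, row_gt] at h3
      exact_mod_cast h3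
    have hL1 : 1 ≤ L1.length := by
      by_contra hcon
      have h0 : L1.length = 0 := by omega
      have hpos : 1 ≤ t.length := by
        by_contra hc
        have h5 : t = [] := List.length_eq_zero_iff.1 (by omega)
        have h6 := ht2.2.2.2
        rw [h5] at h6
        have h7 : lev ([] : List Bool) ([] : List Bool).length = 0 := lev_zero _
        omega
      have h3 := a2 1 (by omega) hpos
      have h4 : lev t 1 = 2 := lev_one t
      omega
    have hlt : L1.length < t.length := by
      by_contra hcon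
      have h3 := a1 t.length (by omega) (by omega)
      rw [ht2.2.2.2] at h3
      omega
    have b1 := a1 L1.length hL1 le_rfl
    have b2 := a2 (L1.length + 1) (by omega) (by omega)
    have b3 := lev_mod t L1.length
    have b4 := lev_mod t (L1.length + 1)
    have hstep : lev t (L1.length + 1) = lev t L1.length + ip (dx up t L1.length) up := by
      unfold lev
      rw [vx_succ, ip_add_left]
    have hd : dx up t L1.length ∈ dirs := dx_mem up_dir t _
    have hmax : ip (dx up t L1.length) up ≤ 2 := by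
      have : ∀ d ∈ dirs, ip d up ≤ 2 := by decide
      exact this _ hd
    have hev : Even L1.length := by
      by_contra hodd
      rw [if_neg hodd] at b3
      have : Even (L1.length + 1) := by
        rw [Nat.even_add_one]
        exact hodd
      rw [if_pos this] at b4
      omega
    rw [if_pos hev] at b3
    have hodd : ¬ Even (L1.length + 1) := by
      rw [Nat.even_add_one]
      exact not_not.2 hev
    rw [if_neg hodd] at b4
    have hlev : lev t L1.length = 3 * s := by omega
    refine ⟨L1.length, hlt.le, hlev, ip_dir hd (by omega), ?_, a2⟩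
    intro k hk
    rcases Nat.eq_zero_or_pos k with h0 | h0
    · rw [h0, lev_zero]
      omega
    · exact a1 k h0 hk
  · rintro ⟨i, hi, h1, h2, h3, h4⟩
    refine ⟨(toL oo t).take i, (toL oo t).drop i, (List.take_append_drop i _).symm, ?_, ?_⟩
    · intro p hp
      obtain ⟨k, hk, rfl⟩ := List.mem_iff_getElem.1 hp
      rw [List.length_take] at hk
      rw [List.getElem_take, hget, row_le]
      have := h3 (k + 1) (by omega)
      exact_mod_cast this
    · intro p hp
      obtain ⟨k, hk, rfl⟩ := List.mem_iff_getElem.1 hp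
      rw [List.length_drop] at hk
      rw [List.getElem_drop, hget, row_gt]
      have := h4 (i + k + 1) (by omega) (by omega)
      exact_mod_cast this

lemma crossing_height {j j' : ℕ} {b b' : ℤ} {L : List (ℤ × ℤ)} (h : Crossing j 0 b L) (h' : Crossing j' 0 b' L) :
    j = j' ∧ b = b' := by
  have h1 := h.2.2.2.2.1
  rw [h'.2.2.2.2.1] at h1
  have h2 := Prod.mk.inj (Option.some.inj h1)
  exact ⟨by omega, h2.1.symm⟩

lemma stop_toL {T : ℕ} (hT : 1 ≤ T) {t : List Bool} (ht : t ∈ FCW T) : Stop T (toL oo t) := by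
  obtain ⟨j, hj, hTj, hc⟩ := ht
  obtain ⟨b, hb, -⟩ := crossing_toL (by omega : 1 ≤ j) lv_oo (brd_out.1 hj)
  refine ⟨j, hTj, ⟨b, hb⟩, fun s hs hsj h => ?_⟩
  exact hc s hs hsj ((rowCut_iff hj (by omega) hsj).1 h)

/-- the words of the stopped walk and the lists -/
noncomputable def wordEquiv {T : ℕ} (hT : 1 ≤ T) : {t : List Bool // t ∈ FCW T} ≃ {L : List (ℤ × ℤ) // Stop T L} :=
  Equiv.ofBijective (fun t => ⟨toL oo t.1, stop_toL hT t.2⟩) (by
    constructor
    · rintro ⟨t, ht⟩ ⟨s, hs⟩ h
      have h1 : toL oo t = toL oo s := congrArg Subtype.val h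
      obtain ⟨j, hj, hTj, -⟩ := ht
      obtain ⟨i, hi, hTi, -⟩ := hs
      obtain ⟨b, hb, -⟩ := crossing_toL (by omega : 1 ≤ j) lv_oo (brd_out.1 hj)
      obtain ⟨b', hb', -⟩ := crossing_toL (by omega : 1 ≤ i) lv_oo (brd_out.1 hi)
      rw [h1] at hb
      obtain ⟨rfl, -⟩ := crossing_height hb hb'
      exact Subtype.ext (toL_inj lv_oo (brd_out.1 hj) (brd_out.1 hi) h1)
    · rintro ⟨L, j, hj, ⟨b, hb⟩, hc⟩
      obtain ⟨h1, h2, h3⟩ := toW_spec (T := j) (by simp : Even (0 : ℤ)) lv_oo rfl hb
      have h4 : toW j 0 b L ∈ Brd j := brd_out.2 h1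
      refine ⟨⟨toW j 0 b L, j, h4, hj, fun s hs hsj h => ?_⟩, Subtype.ext h2⟩
      have h5 := (rowCut_iff h4 (by omega) hsj).2 h
      rw [h2] at h5
      exact hc s hs hsj h5)

lemma wordEquiv_coe {T : ℕ} (hT : 1 ≤ T) (t : {t : List Bool // t ∈ FCW T}) : (wordEquiv hT t).1 = toL oo t.1 := rfl

/-- the site number i of the walk 0, L -/
def vert (L : List (ℤ × ℤ)) (i : ℕ) : ℤ × ℤ := ((0, 0) :: L).getD i (0, 0)

lemma vert_toL (t : List Bool) {i : ℕ} (hi : i ≤ t.length) : pos (vert (toL oo t) i) = zp t i := by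
  rw [← pos_ph]
  congr 1
  unfold vert
  rcases Nat.eq_zero_or_pos i with h0 | h0
  · rw [h0]
    rfl
  · obtain ⟨k, rfl⟩ : ∃ k, i = k + 1 := ⟨i - 1, by omega⟩
    rw [List.getD_cons_succ, List.getD_eq_getElem _ _ (by rw [toL_length]; omega), toL_getElem]

/-- the polygonal curve of the walk 0, L, divided by T, all edges in the same time -/
noncomputable def curveL (T : ℕ) (L : List (ℤ × ℤ)) : C(unitInterval, ℂ) where
  toFun s := ∑ i ∈ range L.length, ((max 0 (min 1 ((s : ℝ) * L.length - i)) : ℝ) : ℂ) *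
    ((pos (vert L (i + 1)) - pos (vert L i)) / T)
  continuous_toFun := by fun_prop

lemma curveL_toL (T : ℕ) (t : List Bool) : curveL T (toL oo t) = curve T t := by
  ext s
  show ∑ i ∈ range (toL oo t).length, ((max 0 (min 1 ((s : ℝ) * (toL oo t).length - i)) : ℝ) : ℂ) *
    ((pos (vert (toL oo t) (i + 1)) - pos (vert (toL oo t) i)) / T) =
    zp t 0 / T + ∑ i ∈ range t.length, ((max 0 (min 1 ((s : ℝ) * t.length - i)) : ℝ) : ℂ) *
      (zp t (i + 1) / T - zp t i / T)
  rw [toL_length, zp_zero, zero_div, zero_add]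
  refine Finset.sum_congr rfl fun i hi => ?_
  rw [Finset.mem_range] at hi
  rw [vert_toL t (by omega), vert_toL t (by omega), sub_div]

/-- the stopped law in terms of lists -/
theorem law_lists {T : ℕ} (hT : 1 ≤ T) (X : List Bool → C(unitInterval, ℂ)) (g : List (ℤ × ℤ) → C(unitInterval, ℂ))
    (h : ∀ t ∈ FCW T, X t = g (toL oo t)) :
    (Measure.sum fun L : {L : List (ℤ × ℤ) // Stop T L} => wt L.1 • Measure.dirac (g L.1)) =
      ((lawK T).map X).toMeasure := by
  classical
  ext S hS
  rw [th8b_law T X hS, Measure.sum_apply _ hS, ← (wordEquiv hT).tsum_eq]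
  unfold gf
  rw [tsum_subtype {t | t ∈ FCW T ∧ X t ∈ S} wE]
  have e : ∀ t : {t : List Bool // t ∈ FCW T}, (wt (wordEquiv hT t).1 • Measure.dirac (g (wordEquiv hT t).1)) S =
      (fun t : List Bool => if X t ∈ S then wE t else 0) t.1 := by
    intro t
    rw [Measure.smul_apply, Measure.dirac_apply' _ hS, wordEquiv_coe, wt_toL, ← h t.1 t.2, smul_eq_mul]
    by_cases hx : X t.1 ∈ S
    · rw [Set.indicator_of_mem hx, Pi.one_apply, mul_one]
      exact (if_pos hx).symm
    · rw [Set.indicator_of_notMem hx, mul_zero]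
      exact (if_neg hx).symm
  rw [tsum_congr e]
  rw [tsum_subtype (FCW T) (fun t : List Bool => if X t ∈ S then wE t else 0)]
  refine tsum_congr fun t => ?_
  by_cases h1 : t ∈ FCW T
  · rw [Set.indicator_of_mem h1]
    by_cases h2 : X t ∈ S
    · rw [if_pos h2, Set.indicator_of_mem (show t ∈ {t | t ∈ FCW T ∧ X t ∈ S} from ⟨h1, h2⟩)]
    · rw [if_neg h2, Set.indicator_of_notMem (fun h3 : t ∈ {t | t ∈ FCW T ∧ X t ∈ S} => h2 h3.2)]
  · rw [Set.indicator_of_notMem h1, Set.indicator_of_notMem (fun h3 : t ∈ {t | t ∈ FCW T ∧ X t ∈ S} => h1 h3.1)]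

end CC

end HexObs
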