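import Pool.Agent.TightS.DefsS
import Pool.Agent.PHW.FoldGen
import Pool.Agent.PHW8.Lev8
import Pool.Agent.PHW.Num2
import Pool.Agent.PHW.Num3
import Pool.Agent.PHW.Cuts
import Pool.Agent.PHW.Rotate
import Pool.Agent.PHW.PairsA

/-!
TIGHT, part S2 (norms of the operators of the chain of leaves): definitions. Text: proof/TIGHT_S_h70, sections 1 to 4.
k = scale of the windows, D ≥ 2 ^ (k + 4) = lower bound of the heights of the leaves, N = upper bound.
-/

set_option autoImplicit false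

namespace HexObs

open Finset

open scoped ENNReal

namespace TS

/-- irreducible bridges with height in the block l -/
def IrrB (l : ℕ) : Set (List Bool) := {p | ∃ r, Fld.Bl l r ∧ p ∈ Irr r}

/-- weight of the pairs X (block b, giant I behind it), Y (block a) that can be continued to disjoint neighbours of
heights at least D -/
noncomputable def EE (D b a : ℕ) (I : List Bool) : ℝ≥0∞ := g2 (Fld.BrB b) (Fld.BrB a) (Fld.ExtD D I)

/-- relation of the fold: a leaf that ends with I ++ M, the next one (seen from the fold) starts with N ++ P -/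
def KRel (D : ℕ) (I P M N : List Bool) : Prop :=
  ∃ (z i m n p y : ℕ) (Z Y : List Bool), Z ∈ Brd z ∧ I ∈ Brd i ∧ M ∈ Brd m ∧ N ∈ Brd n ∧ P ∈ Brd p ∧ Y ∈ Brd y ∧
    D ≤ z + i + m ∧ D ≤ n + p + y ∧ Nb (Z ++ (I ++ M)) (N ++ (P ++ Y))

/-- kernel of the fold: M in the block b, N in the block a -/
noncomputable def KT (D b : ℕ) (I : List Bool) (a : ℕ) (P : List Bool) : ℝ≥0∞ :=
  g2 (Fld.BrB b) (Fld.BrB a) (KRel D I P)

/-- the same for the leaf N ++ (P ++ Y) without its two prefixed letters -/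
noncomputable def KP (D b : ℕ) (I : List Bool) (a : ℕ) (P : List Bool) : ℝ≥0∞ :=
  g2 (Fld.BrB b) (Fld.BrB a) (fun M N => ∃ c : Bool, KRel D I P M ((!c) :: c :: N))

/-- block values of the renewal function -/
noncomputable def Ub (j : ℕ) : ℝ := UU (2 ^ j)

/-- growth exponent of the renewal function -/
noncomputable def kap0 : ℝ := 1 / (6 + CW)

/-- form of the mass bound; l - a and min a l - b are truncated differences -/
noncomputable def TT (θ δ : ℝ) (l a b : ℕ) : ℝ :=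
  Ub a / Ub l * (2 : ℝ) ^ (θ * ((l - a : ℕ) : ℝ)) * (2 : ℝ) ^ (-(δ * ((min a l - b : ℕ) : ℝ)))

/-- (CU) -/
def CUH : Prop := ∃ C : ℝ, 0 < C ∧ ∀ D a b : ℕ, b ≤ a → 2 ^ (a + 3) ≤ D → ∀ I, EE D b a I ≤ ENNReal.ofReal (C * Ub a)

/-- (TEF) -/
def TEF : Prop := ∀ θ : ℝ, 0 < θ → ∃ C δ : ℝ, 0 < C ∧ 0 < δ ∧ ∀ D a b l : ℕ, b ≤ a → 2 ^ (a + 3) ≤ D →
  Rec8.sw (IrrB l) (fun I => EE D b a I) ≤ ENNReal.ofReal (C * TT θ δ l a b)

/-- the two inputs with fixed constants -/
structure Inp (C δ : ℝ) : Prop where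
  one_le : 1 ≤ C
  pos : 0 < δ
  cu : ∀ D a b : ℕ, b ≤ a → 2 ^ (a + 3) ≤ D → ∀ I, EE D b a I ≤ ENNReal.ofReal (C * Ub a)
  tef : ∀ D a b l : ℕ, b ≤ a → 2 ^ (a + 3) ≤ D →
    Rec8.sw (IrrB l) (fun I => EE D b a I) ≤ ENNReal.ofReal (C * TT (kap0 / 8) δ l a b)

/-- the functional F, summed over the end of the leaf, behind the giant I -/
noncomputable def Psi (D : ℕ) (F : List Bool → ℝ≥0∞) (b : ℕ) (I : List Bool) : ℝ≥0∞ :=
  Rec8.sw (Fld.BrB b) (fun M => hat D F (I ++ M))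

/-- the weight S(b; I) -/
noncomputable def Sw (D k b : ℕ) (I : List Bool) : ℝ≥0∞ :=
  ENNReal.ofReal ((2 : ℝ) ^ (kap0 / 4 * ((k : ℝ) - b)) * Ub b) +
    ∑ a ∈ Icc b (k + 1), ENNReal.ofReal ((2 : ℝ) ^ (kap0 / 4 * ((k : ℝ) + 1 - a))) * EE D b a (rev I)

/-- the norm of a functional -/
noncomputable def xN (D k : ℕ) (F : List Bool → ℝ≥0∞) : ℝ≥0∞ :=
  ⨆ (b : Fin (k + 1)) (I : {I : List Bool // ∃ r, I ∈ Irr r}), Psi D F b I.1 / Sw D k b I.1

/-- averaged sum over the irreducible pieces next to a part of the block a, scale j -/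
noncomputable def pm (j a : ℕ) (Φ : List Bool → ℝ≥0∞) : ℝ≥0∞ := ∑' r : ℕ, Rec8.mb j a r * Rec8.sw (Irr r) Φ

end TS

end HexObs
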