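import Pool.Agent.TightN.Star1
import Pool.Agent.TightD.Main
import Pool.Agent.Tight.MainA
import Pool.Agent.Tight.LatT

/-!
TIGHT: the unconditional theorem.
-/

set_option autoImplicit false

namespace HexObs

open Finset MeasureTheory Filter Topology Tight

open scoped ENNReal BoundedContinuousFunction

theorem star_two : Star lev2 := TD.star_lev2' star_one

/-- TIGHTNESS, unconditional -/
theorem tightness :
    ∃ (α : NNReal) (X : ℕ → List Bool → C(unitInterval, ℂ)) (μ : ℕ → ProbabilityMeasure C(unitInterval, ℂ)),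
      0 < α ∧
      (∀ T t, ∃ r : unitInterval ≃ₜ unitInterval, Monotone r ∧ ∀ u, X T t u = curve T t (r u)) ∧
      (∀ T, (μ T : Measure C(unitInterval, ℂ)) = ((lawK T).map (X T)).toMeasure) ∧
      (∀ ε : ℝ, 0 < ε → ∃ M : NNReal, ∀ T, 1 ≤ T →
        (μ T : Measure C(unitInterval, ℂ)) {f : C(unitInterval, ℂ) | ¬ HolderWith M α f} ≤ ENNReal.ofReal ε) ∧
      IsTightMeasureSet {ν : Measure C(unitInterval, ℂ) | ∃ T, 1 ≤ T ∧ ν = μ T} ∧
      (∀ φ : ℕ → ℕ, StrictMono φ → ∃ ψ : ℕ → ℕ, StrictMono ψ ∧ ∃ ν : ProbabilityMeasure C(unitInterval, ℂ),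
        Tendsto (fun k => μ (φ (ψ k))) atTop (𝓝 ν) ∧
        ∀ᵐ (f : C(unitInterval, ℂ)) ∂(ν : Measure C(unitInterval, ℂ)), f 0 = 0 ∧ (∃ M : NNReal, HolderWith M α f) ∧
          (∀ u, 0 ≤ (f u).im) ∧ 3 / 2 ≤ (f 1).im ∧ ∀ u, (f u).im ≤ (f 1).im) :=
  tight_of_star star_one star_two latTail

end HexObs
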