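import Pool.Agent.TightN.SOp
import Pool.Agent.TightS.NormUse

/-!
TIGHT, part S2, module TN8: the norm hypothesis of part S1, and the two inputs from PHW.
-/

set_option autoImplicit false

namespace HexObs

open Finset

open scoped ENNReal

namespace TS

/-- Hang_Nb -/
theorem Fold_Nb (g g' : List Bool) (h : LFold g g') : ∃ c : Bool, Nb g ((!c) :: c :: g') :=
  ⟨lst g, Hang_Nb h⟩

theorem normS_Fold (h1 : CUH) (h2 : TEF) : NormS := by
  obtain ⟨K, c, hK, hc, h⟩ := normS h1 h2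
  refine ⟨K, c, hK, hc, fun D N k j1 j3 R hR hD hN hj1 hj3 => ?_⟩
  obtain ⟨x, x1, x2, x3, x4, x5, x6, x7, x8⟩ := h D N k LFold R Fold_Nb hD hR hN
  exact ⟨x, ⟨x1, x2, x3, x4, x5, x6, fun F => x7 j1 j3 F hj1 hj3, fun F => x8 j1 j3 F hj1⟩⟩

end TS

end HexObs
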