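import Pool.Agent.TightN.SK1

/-!
TIGHT, part S2, module TN4: (k3), (k3') of proof/TIGHT_S_h70, section 3.
-/

set_option autoImplicit false

namespace HexObs

open Finset

open scoped ENNReal

namespace TS

variable {C δ : ℝ}

private lemma TN4a_rev (l : ℕ) (F : List Bool → ℝ≥0∞) :
    Rec8.sw (IrrB l) (fun t => F (rev t)) = Rec8.sw (IrrB l) F := by
  have hA : ∀ t ∈ IrrB l, rev t ∈ IrrB l := by
    rintro t ⟨r, hr, ht⟩
    exact ⟨r, hr, Irr_rev ht⟩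
  unfold Rec8.sw
  have e : ∀ t : {t : List Bool // t ∈ IrrB l}, wE t.1 * F (rev t.1) =
      (fun s : {t : List Bool // t ∈ IrrB l} => wE s.1 * F s.1) ⟨rev t.1, hA t.1 t.2⟩ := by
    intro t
    show _ = wE (rev t.1) * F (rev t.1)
    rw [wE_rev]
  rw [tsum_congr e]
  have hinv : Function.Involutive (fun t : {t : List Bool // t ∈ IrrB l} =>
      (⟨rev t.1, hA t.1 t.2⟩ : {t : List Bool // t ∈ IrrB l})) := by
    intro t
    apply Subtype.ext
    exact rev_rev t.1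
  exact (Equiv.ofBijective _ hinv.bijective).tsum_eq (fun s : {t : List Bool // t ∈ IrrB l} => wE s.1 * F s.1)

private lemma TN4a_min {S : ℝ≥0∞} {p q : ℝ} (hp : 0 ≤ p) (hq : 0 ≤ q) (h1 : S ≤ ENNReal.ofReal p)
    (h2 : S ≤ ENNReal.ofReal q) : S ≤ ENNReal.ofReal (Real.sqrt (p * q)) := by
  rcases le_total p q with h | h
  · refine h1.trans (ENNReal.ofReal_le_ofReal (Real.le_sqrt_of_sq_le ?_))
    rw [sq]
    exact mul_le_mul_of_nonneg_left h hp
  · refine h2.trans (ENNReal.ofReal_le_ofReal (Real.le_sqrt_of_sq_le ?_))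
    rw [sq]
    exact mul_le_mul_of_nonneg_right h hq

/-- two gains of one giant: EE ≤ C Ub, product of the normalised gains ≤ minimum, sum of the minimum ≤ minimum of the
masses ≤ geometric mean -/
theorem two_gains (h : Inp C δ) : ∃ K : ℝ, 1 ≤ K ∧ ∀ D a b a2 b2 l : ℕ, b ≤ a → b2 ≤ a2 → 2 ^ (a + 3) ≤ D →
    2 ^ (a2 + 3) ≤ D → Rec8.sw (IrrB l) (fun I => EE D b a I * EE D b2 a2 (rev I)) ≤
      ENNReal.ofReal (K * (Real.sqrt (TT (kap0 / 8) δ l a b * TT (kap0 / 8) δ l a2 b2) *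
        Real.sqrt (Ub a * Ub a2))) := by
  have hC := h.one_le
  refine ⟨C * C, one_le_mul_of_one_le_of_one_le hC hC, ?_⟩
  intro D a b a2 b2 l hba hba2 hD hD2
  have hT1 := TT_nonneg (kap0 / 8) δ l a b
  have hT2 := TT_nonneg (kap0 / 8) δ l a2 b2
  have hU1 := (Ub_pos a).le
  have hU2 := (Ub_pos a2).le
  have hC0 : 0 ≤ C := zero_le_one.trans hC
  have h1 : Rec8.sw (IrrB l) (fun I => EE D b a I * EE D b2 a2 (rev I)) ≤
      ENNReal.ofReal (C * TT (kap0 / 8) δ l a b * (C * Ub a2)) := by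
    rw [ENNReal.ofReal_mul (mul_nonneg hC0 hT1)]
    refine le_trans (Rec8.sw_mono' fun I _ => mul_le_mul_right (h.cu D a2 b2 hba2 hD2 (rev I)) (EE D b a I)) ?_
    rw [Rec8.sw_mul_right]
    exact mul_le_mul_left (h.tef D a b l hba hD) _
  have h2 : Rec8.sw (IrrB l) (fun I => EE D b a I * EE D b2 a2 (rev I)) ≤
      ENNReal.ofReal (C * Ub a * (C * TT (kap0 / 8) δ l a2 b2)) := by
    rw [ENNReal.ofReal_mul (mul_nonneg hC0 hU1)]
    refine le_trans (Rec8.sw_mono' fun I _ => mul_le_mul_left (h.cu D a b hba hD I) (EE D b2 a2 (rev I))) ?_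
    rw [Rec8.sw_mul_left]
    refine mul_le_mul_right ?_ _
    rw [TN4a_rev l (fun I => EE D b2 a2 I)]
    exact h.tef D a2 b2 l hba2 hD2
  refine (TN4a_min (mul_nonneg (mul_nonneg hC0 hT1) (mul_nonneg hC0 hU2))
    (mul_nonneg (mul_nonneg hC0 hU1) (mul_nonneg hC0 hT2)) h1 h2).trans (le_of_eq ?_)
  congr 1
  rw [← Real.sqrt_mul (mul_nonneg hT1 hT2)]
  have e : C * TT (kap0 / 8) δ l a b * (C * Ub a2) * (C * Ub a * (C * TT (kap0 / 8) δ l a2 b2)) =
      (C * C) ^ 2 * (TT (kap0 / 8) δ l a b * TT (kap0 / 8) δ l a2 b2 * (Ub a * Ub a2)) := by ring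
  rw [e, Real.sqrt_mul (sq_nonneg _), Real.sqrt_sq (mul_nonneg hC0 hC0)]

private theorem SK3_mb_le_one (k a r : ℕ) : Rec8.mb k a r ≤ 1 := by
  unfold Rec8.mb
  split_ifs
  · exact zero_le
  · exact min_le_left _ _

private theorem SK3_one_le {x : ℝ} (h : 0 ≤ x) : 1 ≤ (2 : ℝ) ^ x := Real.one_le_rpow one_le_two h

private theorem SK3_pos (x : ℝ) : 0 < (2 : ℝ) ^ x := Real.rpow_pos_of_pos two_pos x

private theorem SK3_le_one {x : ℝ} (h : 0 ≤ x) : (2 : ℝ) ^ (-x) ≤ 1 :=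
  Real.rpow_le_one_of_one_le_of_nonpos one_le_two (by linarith)

private theorem SK3_mono {x y : ℝ} (h : x ≤ y) : (2 : ℝ) ^ x ≤ (2 : ℝ) ^ y :=
  Real.rpow_le_rpow_of_exponent_le one_le_two h

/-- the pieces higher than 2^(k-1) lie in the blocks l ≥ k - 1 -/
private theorem SK3_blocks (Φ : List Bool → ℝ≥0∞) (k : ℕ) :
    (∑' r : ℕ, (if 2 ^ (k - 1) < r then Rec8.sw (Irr r) Φ else 0)) ≤
      ∑' l : ℕ, (if k - 1 ≤ l then Rec8.sw (IrrB l) Φ else 0) := by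
  classical
  have e1 : ∀ r : ℕ, (if 2 ^ (k - 1) < r then Rec8.sw (Irr r) Φ else 0) =
      ∑' t : List Bool, (if 2 ^ (k - 1) < r ∧ t ∈ Irr r then wE t * Φ t else 0) := by
    intro r
    by_cases hr : 2 ^ (k - 1) < r
    · rw [if_pos hr, Rec8.sw_ind]
      refine tsum_congr fun t => ?_
      simp only [hr, true_and]
    · rw [if_neg hr]
      simp [hr]
  have e2 : ∀ l : ℕ, (if k - 1 ≤ l then Rec8.sw (IrrB l) Φ else 0) =
      ∑' t : List Bool, (if k - 1 ≤ l ∧ t ∈ IrrB l then wE t * Φ t else 0) := by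
    intro l
    by_cases hl : k - 1 ≤ l
    · rw [if_pos hl, Rec8.sw_ind]
      refine tsum_congr fun t => ?_
      simp only [hl, true_and]
    · rw [if_neg hl]
      simp [hl]
  simp only [e1, e2]
  rw [ENNReal.tsum_comm]
  refine le_trans ?_ (le_of_eq ENNReal.tsum_comm)
  refine ENNReal.tsum_le_tsum fun t => ?_
  by_cases hex : ∃ r, 2 ^ (k - 1) < r ∧ t ∈ Irr r
  · obtain ⟨r0, hr0, ht0⟩ := hex
    have h1 : (∑' r : ℕ, (if 2 ^ (k - 1) < r ∧ t ∈ Irr r then wE t * Φ t else 0)) = wE t * Φ t := by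
      rw [tsum_eq_single r0]
      · rw [if_pos ⟨hr0, ht0⟩]
      · intro r hr
        rw [if_neg]
        rintro ⟨_, h⟩
        exact hr (Brd_height h.1 ht0.1)
    rw [h1]
    have hr00 : r0 ≠ 0 := by
      have : 0 < 2 ^ (k - 1) := by positivity
      omega
    have hl : k - 1 ≤ Nat.log 2 r0 := Nat.le_log_of_pow_le (by norm_num) hr0.le
    have hB : t ∈ IrrB (Nat.log 2 r0) :=
      ⟨r0, ⟨Nat.lt_pow_succ_log_self (by norm_num) r0, Or.inl (Nat.pow_log_le_self 2 hr00)⟩, ht0⟩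
    refine le_trans (le_of_eq ?_) (ENNReal.le_tsum (Nat.log 2 r0))
    rw [if_pos ⟨hl, hB⟩]
  · have h1 : (∑' r : ℕ, (if 2 ^ (k - 1) < r ∧ t ∈ Irr r then wE t * Φ t else 0)) = 0 := by
      rw [ENNReal.tsum_eq_zero]
      intro r
      rw [if_neg]
      exact fun hc => hex ⟨r, hc⟩
    rw [h1]
    exact zero_le

/-- the giants: sum over the blocks with the Cauchy-Schwarz inequality -/
private theorem SK3_giant (h : Inp C δ) : ∃ K : ℝ, 1 ≤ K ∧ ∀ D k a b a2 b2 : ℕ, b ≤ a → b2 ≤ a2 →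
    2 ^ (a + 3) ≤ D → 2 ^ (a2 + 3) ≤ D →
    (∑' r : ℕ, (if 2 ^ (k - 1) < r then Rec8.sw (Irr r) (fun I => EE D b a I * EE D b2 a2 (rev I)) else 0)) ≤
      ENNReal.ofReal (K * (Real.sqrt (TT (kap0 / 8) δ k a b * TT (kap0 / 8) δ k a2 b2) *
        Real.sqrt (Ub a * Ub a2))) := by
  obtain ⟨K, hK, h1⟩ := two_gains h
  have hk := kap0_pos
  obtain ⟨L, hL, h2⟩ := TT_sum (θ := kap0 / 8) (δ := δ) (by linarith) (by linarith) h.pos.le
  refine ⟨K * L, one_le_mul_of_one_le_of_one_le hK hL, fun D k a b a2 b2 hba hba2 hD hD2 => ?_⟩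
  refine (SK3_blocks _ k).trans ?_
  refine ENNReal.tsum_le_of_sum_range_le fun n => ?_
  have h3 : ∑ l ∈ range n, (if k - 1 ≤ l then
      Rec8.sw (IrrB l) (fun I => EE D b a I * EE D b2 a2 (rev I)) else 0) =
      ∑ l ∈ Ico (k - 1) n, Rec8.sw (IrrB l) (fun I => EE D b a I * EE D b2 a2 (rev I)) := by
    rw [← Finset.sum_filter]
    refine Finset.sum_congr ?_ fun _ _ => rfl
    ext l
    simp only [Finset.mem_filter, Finset.mem_range, Finset.mem_Ico]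
    omega
  rw [h3]
  have hx : ∀ l, 0 ≤ TT (kap0 / 8) δ l a b := fun l => TT_nonneg _ _ _ _ _
  have hy : ∀ l, 0 ≤ TT (kap0 / 8) δ l a2 b2 := fun l => TT_nonneg _ _ _ _ _
  calc ∑ l ∈ Ico (k - 1) n, Rec8.sw (IrrB l) (fun I => EE D b a I * EE D b2 a2 (rev I))
      ≤ ∑ l ∈ Ico (k - 1) n, ENNReal.ofReal (K * (Real.sqrt (TT (kap0 / 8) δ l a b *
          TT (kap0 / 8) δ l a2 b2) * Real.sqrt (Ub a * Ub a2))) :=
        Finset.sum_le_sum fun l _ => h1 D a b a2 b2 l hba hba2 hD hD2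
    _ = ENNReal.ofReal (∑ l ∈ Ico (k - 1) n, (K * (Real.sqrt (TT (kap0 / 8) δ l a b *
          TT (kap0 / 8) δ l a2 b2) * Real.sqrt (Ub a * Ub a2)))) := by
        rw [ENNReal.ofReal_sum_of_nonneg]
        intro l _
        positivity
    _ ≤ _ := by
        apply ENNReal.ofReal_le_ofReal
        have h4 : ∑ l ∈ Ico (k - 1) n, (K * (Real.sqrt (TT (kap0 / 8) δ l a b *
          TT (kap0 / 8) δ l a2 b2) * Real.sqrt (Ub a * Ub a2))) =
            K * ((∑ l ∈ Ico (k - 1) n, Real.sqrt (TT (kap0 / 8) δ l a b) *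
              Real.sqrt (TT (kap0 / 8) δ l a2 b2)) * Real.sqrt (Ub a * Ub a2)) := by
          rw [Finset.sum_mul, Finset.mul_sum]
          refine Finset.sum_congr rfl fun l _ => ?_
          rw [Real.sqrt_mul (hx l)]
        have h5 := Real.sum_sqrt_mul_sqrt_le (Ico (k - 1) n) hx hy
        have h6 : Real.sqrt (∑ l ∈ Ico (k - 1) n, TT (kap0 / 8) δ l a b) ≤
            Real.sqrt (L * TT (kap0 / 8) δ k a b) := Real.sqrt_le_sqrt (h2 k a b n)
        have h7 : Real.sqrt (∑ l ∈ Ico (k - 1) n, TT (kap0 / 8) δ l a2 b2) ≤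
            Real.sqrt (L * TT (kap0 / 8) δ k a2 b2) := Real.sqrt_le_sqrt (h2 k a2 b2 n)
        have h8 : Real.sqrt (L * TT (kap0 / 8) δ k a b) * Real.sqrt (L * TT (kap0 / 8) δ k a2 b2) =
            L * Real.sqrt (TT (kap0 / 8) δ k a b * TT (kap0 / 8) δ k a2 b2) := by
          have hL0 : 0 ≤ L := by linarith
          rw [Real.sqrt_mul hL0, Real.sqrt_mul hL0, Real.sqrt_mul (hx k)]
          have := Real.mul_self_sqrt hL0
          calc Real.sqrt L * Real.sqrt (TT (kap0 / 8) δ k a b) * (Real.sqrt L * Real.sqrt (TT (kap0 / 8) δ k a2 b2))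
              = (Real.sqrt L * Real.sqrt L) * (Real.sqrt (TT (kap0 / 8) δ k a b) *
                Real.sqrt (TT (kap0 / 8) δ k a2 b2)) := by ring
            _ = _ := by rw [this]
        rw [h4]
        have h9 : (∑ l ∈ Ico (k - 1) n, Real.sqrt (TT (kap0 / 8) δ l a b) *
              Real.sqrt (TT (kap0 / 8) δ l a2 b2)) ≤
              L * Real.sqrt (TT (kap0 / 8) δ k a b * TT (kap0 / 8) δ k a2 b2) :=
          h5.trans ((mul_le_mul h6 h7 (Real.sqrt_nonneg _) (Real.sqrt_nonneg _)).trans (le_of_eq h8))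
        calc K * ((∑ l ∈ Ico (k - 1) n, Real.sqrt (TT (kap0 / 8) δ l a b) *
              Real.sqrt (TT (kap0 / 8) δ l a2 b2)) * Real.sqrt (Ub a * Ub a2))
            ≤ K * ((L * Real.sqrt (TT (kap0 / 8) δ k a b * TT (kap0 / 8) δ k a2 b2)) *
                Real.sqrt (Ub a * Ub a2)) := by gcongr
          _ = _ := by ring

/-- the value of the geometric mean -/
private theorem SK3_sqrt (δ : ℝ) (k a b a2 b2 : ℕ) :
    Real.sqrt (TT (kap0 / 8) δ k a b * TT (kap0 / 8) δ k a2 b2) * Real.sqrt (Ub a * Ub a2) =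
      Ub a * (Ub a2 / Ub k) * ((2 : ℝ) ^ (kap0 / 16 * ((k - a : ℕ) : ℝ)) * (2 : ℝ) ^ (kap0 / 16 * ((k - a2 : ℕ) : ℝ))) *
        ((2 : ℝ) ^ (-(δ / 2 * ((min a k - b : ℕ) : ℝ))) * (2 : ℝ) ^ (-(δ / 2 * ((min a2 k - b2 : ℕ) : ℝ)))) := by
  have hk := Ub_pos k
  have ha := Ub_pos a
  have ha2 := Ub_pos a2
  have e1 : ∀ x : ℝ, (2 : ℝ) ^ (kap0 / 8 * x) = (2 : ℝ) ^ (kap0 / 16 * x) * (2 : ℝ) ^ (kap0 / 16 * x) := by
    intro x
    rw [← Real.rpow_add two_pos]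
    congr 1
    ring
  have e2 : ∀ x : ℝ, (2 : ℝ) ^ (-(δ * x)) = (2 : ℝ) ^ (-(δ / 2 * x)) * (2 : ℝ) ^ (-(δ / 2 * x)) := by
    intro x
    rw [← Real.rpow_add two_pos]
    congr 1
    ring
  rw [← Real.sqrt_mul (mul_nonneg (TT_nonneg _ _ _ _ _) (TT_nonneg _ _ _ _ _))]
  rw [Real.sqrt_eq_iff_mul_self_eq_of_pos]
  · unfold TT
    rw [e1, e1, e2, e2]
    field_simp
  · have := SK3_pos (kap0 / 16 * ((k - a : ℕ) : ℝ))
    have := SK3_pos (kap0 / 16 * ((k - a2 : ℕ) : ℝ))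
    have := SK3_pos (-(δ / 2 * ((min a k - b : ℕ) : ℝ)))
    have := SK3_pos (-(δ / 2 * ((min a2 k - b2 : ℕ) : ℝ)))
    positivity

/-- geometric sum below b -/
private theorem SK3_geo {c : ℝ} (h : 0 < c) : ∃ K : ℝ, 1 ≤ K ∧ ∀ b : ℕ,
    ∑ a ∈ range (b + 1), (2 : ℝ) ^ (-(c * ((b - a : ℕ) : ℝ))) ≤ K := by
  obtain ⟨K, hK, h1⟩ := geo h
  refine ⟨K, hK, fun b => ?_⟩
  have h2 := Finset.sum_range_reflect (fun i : ℕ => (2 : ℝ) ^ (-(c * (i : ℝ)))) (b + 1)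
  simp only [Nat.add_sub_cancel] at h2
  rw [h2]
  exact h1 (b + 1)

/-- the sum over the ends of the second gain -/
private theorem SK3_S2 (hδ : 0 < δ) : ∃ K : ℝ, 1 ≤ K ∧ ∀ k : ℕ,
    ∑ b2 ∈ range (k + 1), ∑ a2 ∈ Icc b2 (k + 1), (2 : ℝ) ^ (kap0 / 4 * ((k : ℝ) + 1 - a2)) * (Ub a2 / Ub k) *
      (2 : ℝ) ^ (kap0 / 16 * ((k - a2 : ℕ) : ℝ)) * (2 : ℝ) ^ (-(δ / 2 * ((min a2 k - b2 : ℕ) : ℝ))) ≤ K := by
  have hk := kap0_pos
  obtain ⟨K1, hK1, h1⟩ := geo_Ub (η := kap0 / 4 + kap0 / 16) (by linarith)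
  obtain ⟨K2, hK2, h2⟩ := SK3_geo (c := δ / 2) (by linarith)
  refine ⟨2 * K1 * K2, by nlinarith, fun k => ?_⟩
  rw [Finset.sum_comm' (s' := fun a2 => range (min a2 k + 1)) (t' := range (k + 2)) (by
    intro x y
    simp only [Finset.mem_range, Finset.mem_Icc]
    omega)]
  calc ∑ a2 ∈ range (k + 2), ∑ b2 ∈ range (min a2 k + 1), (2 : ℝ) ^ (kap0 / 4 * ((k : ℝ) + 1 - a2)) * (Ub a2 / Ub k) *
      (2 : ℝ) ^ (kap0 / 16 * ((k - a2 : ℕ) : ℝ)) * (2 : ℝ) ^ (-(δ / 2 * ((min a2 k - b2 : ℕ) : ℝ)))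
      = ∑ a2 ∈ range (k + 2), (2 : ℝ) ^ (kap0 / 4 * ((k : ℝ) + 1 - a2)) * (Ub a2 / Ub k) *
      (2 : ℝ) ^ (kap0 / 16 * ((k - a2 : ℕ) : ℝ)) * ∑ b2 ∈ range (min a2 k + 1),
        (2 : ℝ) ^ (-(δ / 2 * ((min a2 k - b2 : ℕ) : ℝ))) := by
        refine Finset.sum_congr rfl fun a2 _ => ?_
        rw [Finset.mul_sum]
    _ ≤ ∑ a2 ∈ range (k + 2), ((2 : ℝ) ^ ((kap0 / 4 + kap0 / 16) * (((k + 1 : ℕ) : ℝ) - a2)) * Ub a2) *
          (K2 / Ub k) := by
        refine Finset.sum_le_sum fun a2 ha2 => ?_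
        rw [Finset.mem_range] at ha2
        have e1 : (2 : ℝ) ^ (kap0 / 4 * ((k : ℝ) + 1 - a2)) * (2 : ℝ) ^ (kap0 / 16 * ((k - a2 : ℕ) : ℝ)) ≤
            (2 : ℝ) ^ ((kap0 / 4 + kap0 / 16) * (((k + 1 : ℕ) : ℝ) - a2)) := by
          rw [← Real.rpow_add two_pos]
          apply SK3_mono
          have h3 : ((k - a2 : ℕ) : ℝ) ≤ (k : ℝ) + 1 - a2 := by
            rcases Nat.lt_or_ge k a2 with h4 | h4
            · rw [Nat.sub_eq_zero_of_le h4.le]
              have : (a2 : ℝ) ≤ (k : ℝ) + 1 := by exact_mod_cast (show a2 ≤ k + 1 by omega)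
              push_cast
              linarith
            · rw [Nat.cast_sub h4]
              linarith
          push_cast
          nlinarith
        have hUk := Ub_pos k
        have hUa := Ub_pos a2
        have e2 := h2 (min a2 k)
        have e3 : 0 ≤ ∑ b2 ∈ range (min a2 k + 1), (2 : ℝ) ^ (-(δ / 2 * ((min a2 k - b2 : ℕ) : ℝ))) :=
          Finset.sum_nonneg fun b2 _ => (SK3_pos _).le
        calc (2 : ℝ) ^ (kap0 / 4 * ((k : ℝ) + 1 - a2)) * (Ub a2 / Ub k) *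
              (2 : ℝ) ^ (kap0 / 16 * ((k - a2 : ℕ) : ℝ)) * ∑ b2 ∈ range (min a2 k + 1),
                (2 : ℝ) ^ (-(δ / 2 * ((min a2 k - b2 : ℕ) : ℝ)))
            = ((2 : ℝ) ^ (kap0 / 4 * ((k : ℝ) + 1 - a2)) * (2 : ℝ) ^ (kap0 / 16 * ((k - a2 : ℕ) : ℝ))) *
                (Ub a2 / Ub k) * ∑ b2 ∈ range (min a2 k + 1),
                (2 : ℝ) ^ (-(δ / 2 * ((min a2 k - b2 : ℕ) : ℝ))) := by ring
          _ ≤ (2 : ℝ) ^ ((kap0 / 4 + kap0 / 16) * (((k + 1 : ℕ) : ℝ) - a2)) * (Ub a2 / Ub k) * K2 := by gcongr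
          _ = _ := by ring
    _ = (∑ a2 ∈ range (k + 1 + 1), ((2 : ℝ) ^ ((kap0 / 4 + kap0 / 16) * (((k + 1 : ℕ) : ℝ) - a2)) * Ub a2)) *
          (K2 / Ub k) := by rw [Finset.sum_mul]
    _ ≤ (K1 * Ub (k + 1)) * (K2 / Ub k) := by
        have := Ub_pos k
        gcongr
        exact h1 (k + 1)
    _ ≤ (K1 * (2 * Ub k)) * (K2 / Ub k) := by
        have := Ub_pos k
        gcongr
        exact Ub_succ k
    _ = 2 * K1 * K2 := by
        have := Ub_pos k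
        field_simp

/-- the constant of one giant, for strands with a ≤ k -/
private theorem SK3_giant' (h : Inp C δ) : ∃ K : ℝ, 1 ≤ K ∧ ∀ D k a b a2 b2 : ℕ, a ≤ b → b ≤ k → b2 ≤ a2 →
    a2 ≤ k + 1 → 2 ^ (k + 4) ≤ D →
    (∑' r : ℕ, (if 2 ^ (k - 1) < r then Rec8.sw (Irr r) (fun I => EE D a b I * EE D b2 a2 (rev I)) else 0)) ≤
      ENNReal.ofReal (K * (Ub b * (2 : ℝ) ^ (kap0 / 8 * ((k : ℝ) - b)) * (2 : ℝ) ^ (-(δ / 2 * ((b : ℝ) - a)))) *
        ((Ub a2 / Ub k) * (2 : ℝ) ^ (kap0 / 16 * ((k - a2 : ℕ) : ℝ)) *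
          (2 : ℝ) ^ (-(δ / 2 * ((min a2 k - b2 : ℕ) : ℝ))))) := by
  obtain ⟨K, hK, h1⟩ := SK3_giant h
  refine ⟨K, hK, fun D k a b a2 b2 hab hbk hb2 ha2 hD => ?_⟩
  have hD1 : 2 ^ (b + 3) ≤ D := (Nat.pow_le_pow_right (by norm_num) (by omega)).trans hD
  have hD2 : 2 ^ (a2 + 3) ≤ D := (Nat.pow_le_pow_right (by norm_num) (by omega)).trans hD
  refine (h1 D k b a a2 b2 hab hb2 hD1 hD2).trans ?_
  apply ENNReal.ofReal_le_ofReal
  rw [SK3_sqrt]
  have hUb := Ub_pos b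
  have hUk := Ub_pos k
  have hUa := Ub_pos a2
  have hk0 := kap0_pos
  have e1 : ((k - b : ℕ) : ℝ) = (k : ℝ) - b := Nat.cast_sub hbk
  have e2 : ((min b k - a : ℕ) : ℝ) = (b : ℝ) - a := by
    rw [min_eq_left hbk, Nat.cast_sub hab]
  have e3 : (2 : ℝ) ^ (kap0 / 16 * ((k : ℝ) - b)) ≤ (2 : ℝ) ^ (kap0 / 8 * ((k : ℝ) - b)) := by
    apply SK3_mono
    have : (b : ℝ) ≤ k := by exact_mod_cast hbk
    nlinarith
  rw [e1, e2]
  have p1 := SK3_pos (kap0 / 16 * ((k - a2 : ℕ) : ℝ))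
  have p2 := SK3_pos (-(δ / 2 * ((b : ℝ) - a)))
  have p3 := SK3_pos (-(δ / 2 * ((min a2 k - b2 : ℕ) : ℝ)))
  calc K * (Ub b * (Ub a2 / Ub k) * ((2 : ℝ) ^ (kap0 / 16 * ((k : ℝ) - b)) *
        (2 : ℝ) ^ (kap0 / 16 * ((k - a2 : ℕ) : ℝ))) * ((2 : ℝ) ^ (-(δ / 2 * ((b : ℝ) - a))) *
          (2 : ℝ) ^ (-(δ / 2 * ((min a2 k - b2 : ℕ) : ℝ)))))
      = K * (Ub b * (2 : ℝ) ^ (kap0 / 16 * ((k : ℝ) - b)) * (2 : ℝ) ^ (-(δ / 2 * ((b : ℝ) - a)))) *
        ((Ub a2 / Ub k) * (2 : ℝ) ^ (kap0 / 16 * ((k - a2 : ℕ) : ℝ)) *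
          (2 : ℝ) ^ (-(δ / 2 * ((min a2 k - b2 : ℕ) : ℝ)))) := by ring
    _ ≤ _ := by gcongr

/-- the pieces of height at most 2^(k-1) -/
private theorem SK3_small (h : Inp C δ) : ∃ K : ℝ, 1 ≤ K ∧ ∀ D k a b a2 b2 : ℕ, a ≤ b → b ≤ k → b2 ≤ a2 →
    a2 ≤ k + 1 → 2 ^ (k + 4) ≤ D →
    (∑' r : ℕ, min 1 ((r : ℝ≥0∞) / 2 ^ k) * Rec8.sw (Irr r) (fun I => EE D a b I * EE D b2 a2 (rev I))) ≤
      ENNReal.ofReal (K * Ub b * (Ub a2 / Ub k)) := by
  obtain ⟨K, hK, h1⟩ := avg_mass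
  have hC := h.one_le
  refine ⟨C * C * K, one_le_mul_of_one_le_of_one_le (one_le_mul_of_one_le_of_one_le hC hC) hK,
    fun D k a b a2 b2 hab hbk hb2 ha2 hD => ?_⟩
  have hD1 : 2 ^ (b + 3) ≤ D := (Nat.pow_le_pow_right (by norm_num) (by omega)).trans hD
  have hD2 : 2 ^ (a2 + 3) ≤ D := (Nat.pow_le_pow_right (by norm_num) (by omega)).trans hD
  have hUb := Ub_pos b
  have hUk := Ub_pos k
  have hUa := Ub_pos a2
  have hC0 : 0 ≤ C := by linarith
  calc (∑' r : ℕ, min 1 ((r : ℝ≥0∞) / 2 ^ k) * Rec8.sw (Irr r) (fun I => EE D a b I * EE D b2 a2 (rev I)))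
      ≤ ∑' r : ℕ, (ENNReal.ofReal (C * Ub b) * ENNReal.ofReal (C * Ub a2)) *
          (min 1 ((r : ℝ≥0∞) / 2 ^ k) * kap' r) := by
        refine ENNReal.tsum_le_tsum fun r => ?_
        have e1 : Rec8.sw (Irr r) (fun I => EE D a b I * EE D b2 a2 (rev I)) ≤
            Rec8.sw (Irr r) (fun _ => (ENNReal.ofReal (C * Ub b) * ENNReal.ofReal (C * Ub a2)) * 1) := by
          refine Rec8.sw_mono' fun I _ => ?_
          rw [mul_one]
          exact mul_le_mul' (h.cu D b a hab hD1 I) (h.cu D a2 b2 hb2 hD2 (rev I))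
        rw [Rec8.sw_mul_left, Rec8.sw_one] at e1
        calc min 1 ((r : ℝ≥0∞) / 2 ^ k) * Rec8.sw (Irr r) (fun I => EE D a b I * EE D b2 a2 (rev I))
            ≤ min 1 ((r : ℝ≥0∞) / 2 ^ k) * ((ENNReal.ofReal (C * Ub b) * ENNReal.ofReal (C * Ub a2)) *
                gf (Irr r)) := mul_le_mul' le_rfl e1
          _ = _ := by
            unfold kap'
            ring
    _ = (ENNReal.ofReal (C * Ub b) * ENNReal.ofReal (C * Ub a2)) *
          ∑' r : ℕ, (min 1 ((r : ℝ≥0∞) / 2 ^ k) * kap' r) := by rw [ENNReal.tsum_mul_left]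
    _ ≤ (ENNReal.ofReal (C * Ub b) * ENNReal.ofReal (C * Ub a2)) * ENNReal.ofReal (K / Ub k) :=
        mul_le_mul' le_rfl (h1 k)
    _ = _ := by
        rw [← ENNReal.ofReal_mul (by positivity), ← ENNReal.ofReal_mul (by positivity)]
        congr 1
        field_simp

/-- one value a > b: the gain of the giant I, and n2 -/
theorem k3_hi (h : Inp C δ) : ∃ K : ℝ, 1 ≤ K ∧ ∀ (D k b a : ℕ) (I : List Bool), 2 ^ (k + 4) ≤ D → b < a →
    a ≤ k + 1 → ∑ b2 ∈ range (k + 1), ∑' r : ℕ, Rec8.mb k a r * Rec8.mb k b2 r *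
      Rec8.sw (Irr r) (fun P => KT D b I a P * Sw D k b2 P) ≤ ENNReal.ofReal K * EE D b a (rev I) := by
  obtain ⟨K, hK, h2⟩ := n2 h
  refine ⟨K, hK, fun D k b a I hD _ _ => ?_⟩
  calc ∑ b2 ∈ range (k + 1), ∑' r : ℕ, Rec8.mb k a r * Rec8.mb k b2 r *
        Rec8.sw (Irr r) (fun P => KT D b I a P * Sw D k b2 P)
      ≤ ∑ b2 ∈ range (k + 1), EE D b a (rev I) * pm k b2 (fun P => Sw D k b2 P) := by
        refine Finset.sum_le_sum fun b2 _ => ?_
        unfold pm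
        rw [← ENNReal.tsum_mul_left]
        refine ENNReal.tsum_le_tsum fun r => ?_
        calc Rec8.mb k a r * Rec8.mb k b2 r * Rec8.sw (Irr r) (fun P => KT D b I a P * Sw D k b2 P)
            ≤ 1 * Rec8.mb k b2 r * Rec8.sw (Irr r) (fun P => EE D b a (rev I) * Sw D k b2 P) := by
              refine mul_le_mul' (mul_le_mul' (SK3_mb_le_one _ _ _) le_rfl) ?_
              exact Rec8.sw_mono' fun P _ => mul_le_mul' (KT_le_left D b I a P) le_rfl
          _ = _ := by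
              rw [Rec8.sw_mul_left]
              ring
    _ = EE D b a (rev I) * ∑ b2 ∈ range (k + 1), pm k b2 (fun P => Sw D k b2 P) := by rw [Finset.mul_sum]
    _ ≤ EE D b a (rev I) * ENNReal.ofReal K := mul_le_mul' le_rfl (h2 D k hD)
    _ = _ := mul_comm _ _

/-- the two averages -/
private theorem SK3_mb2 (k a b2 r : ℕ) (G : ℝ≥0∞) : Rec8.mb k a r * Rec8.mb k b2 r * G ≤
    (if 2 ^ (k - 1) < r then G else 0) + (if k ≤ a + 1 ∧ k ≤ b2 + 1 then min 1 ((r : ℝ≥0∞) / 2 ^ k) * G else 0) := by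
  by_cases hr : 2 ^ (k - 1) < r
  · rw [if_pos hr]
    calc Rec8.mb k a r * Rec8.mb k b2 r * G ≤ 1 * 1 * G := by
          refine mul_le_mul' (mul_le_mul' (SK3_mb_le_one _ _ _) (SK3_mb_le_one _ _ _)) le_rfl
      _ = G := by ring
      _ ≤ _ := le_self_add
  · rw [if_neg hr, zero_add]
    by_cases ha : k ≤ a + 1 ∧ k ≤ b2 + 1
    · rw [if_pos ha]
      refine mul_le_mul' ?_ le_rfl
      calc Rec8.mb k a r * Rec8.mb k b2 r ≤ min 1 ((r : ℝ≥0∞) / 2 ^ k) * 1 := by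
            refine mul_le_mul' ?_ (SK3_mb_le_one _ _ _)
            unfold Rec8.mb
            split_ifs
            · exact zero_le
            · exact le_rfl
        _ = _ := mul_one _
    · rw [if_neg ha]
      have : Rec8.mb k a r * Rec8.mb k b2 r = 0 := by
        rw [mul_eq_zero]
        unfold Rec8.mb
        by_cases h1 : k ≤ a + 1
        · right
          rw [if_pos ⟨by omega, by omega⟩]
        · left
          rw [if_pos ⟨by omega, by omega⟩]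
      rw [this, zero_mul]

/-- one value a ≤ b: the giant P is used at both ends -/
theorem k3_lo (h : Inp C δ) : ∃ K : ℝ, 1 ≤ K ∧ ∀ (D k b a : ℕ) (I : List Bool), 2 ^ (k + 4) ≤ D → a ≤ b →
    b ≤ k → ∑ b2 ∈ range (k + 1), ∑' r : ℕ, Rec8.mb k a r * Rec8.mb k b2 r *
      Rec8.sw (Irr r) (fun P => KT D b I a P * Sw D k b2 P) ≤
      ENNReal.ofReal (K * (Ub b * (2 : ℝ) ^ (kap0 / 8 * ((k : ℝ) - b)) *
        ((2 : ℝ) ^ (-(δ / 2 * ((b : ℝ) - a))) + if k ≤ a + 1 then 1 else 0))) := by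
  have hk0 := kap0_pos
  have hδ := h.pos
  obtain ⟨K1, hK1, h1⟩ := pm_EE h
  obtain ⟨K2, hK2, h2⟩ := geo_Ub (η := kap0 / 4) (by linarith)
  obtain ⟨K3, hK3, h3⟩ := SK3_giant' h
  obtain ⟨K4, hK4, h4⟩ := SK3_small h
  obtain ⟨K5, hK5, h5⟩ := SK3_S2 hδ
  refine ⟨K1 * K2 + K3 * K5 + K4 * ((2 : ℝ) ^ (δ / 2) * K5), ?_, fun D k b a I hD hab hbk => ?_⟩
  · have : 0 ≤ K3 * K5 := by positivity
    have : 0 ≤ K4 * ((2 : ℝ) ^ (δ / 2) * K5) := by
      have := SK3_pos (δ / 2)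
      positivity
    have : 1 ≤ K1 * K2 := one_le_mul_of_one_le_of_one_le hK1 hK2
    linarith
  have hD1 : 2 ^ (b + 3) ≤ D := (Nat.pow_le_pow_right (by norm_num) (by omega)).trans hD
  have hUb := Ub_pos b
  have hUk := Ub_pos k
  have hbk' : (b : ℝ) ≤ k := by exact_mod_cast hbk
  have hab' : (a : ℝ) ≤ b := by exact_mod_cast hab
  have hθ1 : 1 ≤ (2 : ℝ) ^ (kap0 / 8 * ((k : ℝ) - b)) := SK3_one_le (by nlinarith)
  have hd0 := SK3_pos (-(δ / 2 * ((b : ℝ) - a)))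
  -- pointwise bound of the sum over the pieces
  have hpt : ∀ b2 ∈ range (k + 1), (∑' r : ℕ, Rec8.mb k a r * Rec8.mb k b2 r *
      Rec8.sw (Irr r) (fun P => KT D b I a P * Sw D k b2 P)) ≤
      ENNReal.ofReal ((2 : ℝ) ^ (kap0 / 4 * ((k : ℝ) - b2)) * Ub b2) * pm k a (fun P => EE D a b P) +
      ∑ a2 ∈ Icc b2 (k + 1), ENNReal.ofReal ((2 : ℝ) ^ (kap0 / 4 * ((k : ℝ) + 1 - a2))) *
        ((∑' r : ℕ, (if 2 ^ (k - 1) < r then
          Rec8.sw (Irr r) (fun P => EE D a b P * EE D b2 a2 (rev P)) else 0)) +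
        (∑' r : ℕ, (if k ≤ a + 1 ∧ k ≤ b2 + 1 then min 1 ((r : ℝ≥0∞) / 2 ^ k) *
          Rec8.sw (Irr r) (fun P => EE D a b P * EE D b2 a2 (rev P)) else 0))) := by
    intro b2 _
    have e1 : ∀ r : ℕ, Rec8.sw (Irr r) (fun P => KT D b I a P * Sw D k b2 P) ≤
        ENNReal.ofReal ((2 : ℝ) ^ (kap0 / 4 * ((k : ℝ) - b2)) * Ub b2) * Rec8.sw (Irr r) (fun P => EE D a b P) +
        ∑ a2 ∈ Icc b2 (k + 1), ENNReal.ofReal ((2 : ℝ) ^ (kap0 / 4 * ((k : ℝ) + 1 - a2))) *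
          Rec8.sw (Irr r) (fun P => EE D a b P * EE D b2 a2 (rev P)) := by
      intro r
      rw [← Rec8.sw_mul_left]
      simp only [← Rec8.sw_mul_left]
      rw [← Rec8.sw_sum, ← Rec8.sw_add]
      refine Rec8.sw_mono' fun P _ => ?_
      calc KT D b I a P * Sw D k b2 P ≤ EE D a b P * Sw D k b2 P := mul_le_mul' (KT_le_right D b I a P) le_rfl
        _ = _ := by
          unfold Sw
          rw [mul_add, Finset.mul_sum]
          congr 1
          · ring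
          · refine Finset.sum_congr rfl fun a2 _ => ?_
            ring
    calc (∑' r : ℕ, Rec8.mb k a r * Rec8.mb k b2 r *
          Rec8.sw (Irr r) (fun P => KT D b I a P * Sw D k b2 P))
        ≤ ∑' r : ℕ, (ENNReal.ofReal ((2 : ℝ) ^ (kap0 / 4 * ((k : ℝ) - b2)) * Ub b2) *
            (Rec8.mb k a r * Rec8.sw (Irr r) (fun P => EE D a b P)) +
          ∑ a2 ∈ Icc b2 (k + 1), ENNReal.ofReal ((2 : ℝ) ^ (kap0 / 4 * ((k : ℝ) + 1 - a2))) *
            ((if 2 ^ (k - 1) < r then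
              Rec8.sw (Irr r) (fun P => EE D a b P * EE D b2 a2 (rev P)) else 0) +
            (if k ≤ a + 1 ∧ k ≤ b2 + 1 then min 1 ((r : ℝ≥0∞) / 2 ^ k) *
              Rec8.sw (Irr r) (fun P => EE D a b P * EE D b2 a2 (rev P)) else 0))) := by
          refine ENNReal.tsum_le_tsum fun r => ?_
          calc Rec8.mb k a r * Rec8.mb k b2 r * Rec8.sw (Irr r) (fun P => KT D b I a P * Sw D k b2 P)
              ≤ Rec8.mb k a r * Rec8.mb k b2 r * (ENNReal.ofReal ((2 : ℝ) ^ (kap0 / 4 * ((k : ℝ) - b2)) * Ub b2) *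
                Rec8.sw (Irr r) (fun P => EE D a b P) +
                ∑ a2 ∈ Icc b2 (k + 1), ENNReal.ofReal ((2 : ℝ) ^ (kap0 / 4 * ((k : ℝ) + 1 - a2))) *
                Rec8.sw (Irr r) (fun P => EE D a b P * EE D b2 a2 (rev P))) := mul_le_mul' le_rfl (e1 r)
            _ = ENNReal.ofReal ((2 : ℝ) ^ (kap0 / 4 * ((k : ℝ) - b2)) * Ub b2) *
                (Rec8.mb k b2 r * (Rec8.mb k a r * Rec8.sw (Irr r) (fun P => EE D a b P))) +
                ∑ a2 ∈ Icc b2 (k + 1), ENNReal.ofReal ((2 : ℝ) ^ (kap0 / 4 * ((k : ℝ) + 1 - a2))) *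
                (Rec8.mb k a r * Rec8.mb k b2 r *
                  Rec8.sw (Irr r) (fun P => EE D a b P * EE D b2 a2 (rev P))) := by
                rw [mul_add, Finset.mul_sum]
                congr 1
                · ring
                · refine Finset.sum_congr rfl fun a2 _ => ?_
                  ring
            _ ≤ _ := by
                refine add_le_add ?_ (Finset.sum_le_sum fun a2 _ => mul_le_mul' le_rfl (SK3_mb2 _ _ _ _ _))
                refine mul_le_mul' le_rfl ?_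
                calc Rec8.mb k b2 r * (Rec8.mb k a r * Rec8.sw (Irr r) (fun P => EE D a b P))
                    ≤ 1 * (Rec8.mb k a r * Rec8.sw (Irr r) (fun P => EE D a b P)) :=
                      mul_le_mul' (SK3_mb_le_one _ _ _) le_rfl
                  _ = _ := one_mul _
      _ = _ := by
          rw [ENNReal.tsum_add, ENNReal.tsum_mul_left]
          unfold pm
          congr 1
          rw [Summable.tsum_finsetSum (fun _ _ => ENNReal.summable)]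
          refine Finset.sum_congr rfl fun a2 _ => ?_
          rw [ENNReal.tsum_mul_left, ENNReal.tsum_add]
  refine (Finset.sum_le_sum hpt).trans ?_
  rw [Finset.sum_add_distrib, ← Finset.sum_mul]
  -- first part
  have hA : (∑ b2 ∈ range (k + 1), ENNReal.ofReal ((2 : ℝ) ^ (kap0 / 4 * ((k : ℝ) - b2)) * Ub b2)) *
      pm k a (fun P => EE D a b P) ≤ ENNReal.ofReal (K1 * K2 * (Ub b * (2 : ℝ) ^ (kap0 / 8 * ((k : ℝ) - b)) *
        ((2 : ℝ) ^ (-(δ / 2 * ((b : ℝ) - a))) + if k ≤ a + 1 then 1 else 0))) := by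
    have e1 : (∑ b2 ∈ range (k + 1), ENNReal.ofReal ((2 : ℝ) ^ (kap0 / 4 * ((k : ℝ) - b2)) * Ub b2)) ≤
        ENNReal.ofReal (K2 * Ub k) := by
      rw [← ENNReal.ofReal_sum_of_nonneg (fun b2 _ => mul_nonneg (SK3_pos _).le (Ub_pos b2).le)]
      exact ENNReal.ofReal_le_ofReal (h2 k)
    have e2 := h1 D b a k a hab hD1
    refine (mul_le_mul' e1 e2).trans ?_
    rw [← ENNReal.ofReal_mul (by positivity)]
    apply ENNReal.ofReal_le_ofReal
    have e3 : TT (kap0 / 8) δ k b a ≤ Ub b / Ub k * (2 : ℝ) ^ (kap0 / 8 * ((k : ℝ) - b)) *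
        (2 : ℝ) ^ (-(δ / 2 * ((b : ℝ) - a))) := by
      unfold TT
      rw [Nat.cast_sub hbk, min_eq_left hbk, Nat.cast_sub hab]
      have e4 : (2 : ℝ) ^ (-(δ * ((b : ℝ) - a))) ≤ (2 : ℝ) ^ (-(δ / 2 * ((b : ℝ) - a))) := by
        apply SK3_mono
        nlinarith
      gcongr
    have e5 : (if k ≤ a + 1 then Ub b / Ub k else 0) ≤ Ub b / Ub k * (2 : ℝ) ^ (kap0 / 8 * ((k : ℝ) - b)) *
        (if k ≤ a + 1 then 1 else 0) := by
      split_ifs
      · rw [mul_one]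
        exact le_mul_of_one_le_right (by positivity) hθ1
      · rw [mul_zero]
    calc K2 * Ub k * (K1 * (TT (kap0 / 8) δ k b a + if k ≤ a + 1 then Ub b / Ub k else 0))
        ≤ K2 * Ub k * (K1 * (Ub b / Ub k * (2 : ℝ) ^ (kap0 / 8 * ((k : ℝ) - b)) *
        (2 : ℝ) ^ (-(δ / 2 * ((b : ℝ) - a))) + Ub b / Ub k * (2 : ℝ) ^ (kap0 / 8 * ((k : ℝ) - b)) *
        (if k ≤ a + 1 then 1 else 0))) := by gcongr
      _ = _ := by
        field_simp
  -- second part: giants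
  have hB : ∑ b2 ∈ range (k + 1), ∑ a2 ∈ Icc b2 (k + 1),
      ENNReal.ofReal ((2 : ℝ) ^ (kap0 / 4 * ((k : ℝ) + 1 - a2))) *
        ((∑' r : ℕ, (if 2 ^ (k - 1) < r then
          Rec8.sw (Irr r) (fun P => EE D a b P * EE D b2 a2 (rev P)) else 0)) +
        (∑' r : ℕ, (if k ≤ a + 1 ∧ k ≤ b2 + 1 then min 1 ((r : ℝ≥0∞) / 2 ^ k) *
          Rec8.sw (Irr r) (fun P => EE D a b P * EE D b2 a2 (rev P)) else 0))) ≤
      ENNReal.ofReal ((K3 * (Ub b * (2 : ℝ) ^ (kap0 / 8 * ((k : ℝ) - b)) * (2 : ℝ) ^ (-(δ / 2 * ((b : ℝ) - a)))) +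
        K4 * Ub b * (2 : ℝ) ^ (δ / 2) * (if k ≤ a + 1 then 1 else 0)) * K5) := by
    calc ∑ b2 ∈ range (k + 1), ∑ a2 ∈ Icc b2 (k + 1),
          ENNReal.ofReal ((2 : ℝ) ^ (kap0 / 4 * ((k : ℝ) + 1 - a2))) *
          ((∑' r : ℕ, (if 2 ^ (k - 1) < r then
            Rec8.sw (Irr r) (fun P => EE D a b P * EE D b2 a2 (rev P)) else 0)) +
          (∑' r : ℕ, (if k ≤ a + 1 ∧ k ≤ b2 + 1 then min 1 ((r : ℝ≥0∞) / 2 ^ k) *
            Rec8.sw (Irr r) (fun P => EE D a b P * EE D b2 a2 (rev P)) else 0)))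
        ≤ ∑ b2 ∈ range (k + 1), ∑ a2 ∈ Icc b2 (k + 1),
          ENNReal.ofReal ((K3 * (Ub b * (2 : ℝ) ^ (kap0 / 8 * ((k : ℝ) - b)) *
            (2 : ℝ) ^ (-(δ / 2 * ((b : ℝ) - a)))) + K4 * Ub b * (2 : ℝ) ^ (δ / 2) * (if k ≤ a + 1 then 1 else 0)) *
            ((2 : ℝ) ^ (kap0 / 4 * ((k : ℝ) + 1 - a2)) * (Ub a2 / Ub k) *
            (2 : ℝ) ^ (kap0 / 16 * ((k - a2 : ℕ) : ℝ)) * (2 : ℝ) ^ (-(δ / 2 * ((min a2 k - b2 : ℕ) : ℝ))))) := by
          refine Finset.sum_le_sum fun b2 hb2 => Finset.sum_le_sum fun a2 ha2 => ?_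
          rw [Finset.mem_range] at hb2
          rw [Finset.mem_Icc] at ha2
          have hUa := Ub_pos a2
          have g1 := h3 D k a b a2 b2 hab hbk ha2.1 ha2.2 hD
          have p1 := SK3_pos (kap0 / 16 * ((k - a2 : ℕ) : ℝ))
          have p3 := SK3_pos (-(δ / 2 * ((min a2 k - b2 : ℕ) : ℝ)))
          have p4 := SK3_pos (kap0 / 4 * ((k : ℝ) + 1 - a2))
          have p5 := SK3_pos (δ / 2)
          have p6 := SK3_pos (kap0 / 8 * ((k : ℝ) - b))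
          have g2' : (∑' r : ℕ, (if k ≤ a + 1 ∧ k ≤ b2 + 1 then min 1 ((r : ℝ≥0∞) / 2 ^ k) *
            Rec8.sw (Irr r) (fun P => EE D a b P * EE D b2 a2 (rev P)) else 0)) ≤
              ENNReal.ofReal (K4 * Ub b * (2 : ℝ) ^ (δ / 2) * (if k ≤ a + 1 then 1 else 0) *
                ((Ub a2 / Ub k) * (2 : ℝ) ^ (kap0 / 16 * ((k - a2 : ℕ) : ℝ)) *
                (2 : ℝ) ^ (-(δ / 2 * ((min a2 k - b2 : ℕ) : ℝ))))) := by
            by_cases hc : k ≤ a + 1 ∧ k ≤ b2 + 1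
            · simp only [hc, and_self, if_true]
              refine (h4 D k a b a2 b2 hab hbk ha2.1 ha2.2 hD).trans ?_
              apply ENNReal.ofReal_le_ofReal
              have q1 : 1 ≤ (2 : ℝ) ^ (kap0 / 16 * ((k - a2 : ℕ) : ℝ)) := SK3_one_le (by positivity)
              have q2 : 1 ≤ (2 : ℝ) ^ (δ / 2) * (2 : ℝ) ^ (-(δ / 2 * ((min a2 k - b2 : ℕ) : ℝ))) := by
                rw [← Real.rpow_add two_pos]
                apply SK3_one_le
                have : ((min a2 k - b2 : ℕ) : ℝ) ≤ 1 := by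
                  have : min a2 k - b2 ≤ 1 := by omega
                  exact_mod_cast this
                nlinarith
              calc K4 * Ub b * (Ub a2 / Ub k) ≤ K4 * Ub b * (Ub a2 / Ub k) *
                    ((2 : ℝ) ^ (kap0 / 16 * ((k - a2 : ℕ) : ℝ)) *
                    ((2 : ℝ) ^ (δ / 2) * (2 : ℝ) ^ (-(δ / 2 * ((min a2 k - b2 : ℕ) : ℝ))))) := by
                    refine le_mul_of_one_le_right (by positivity) ?_
                    exact one_le_mul_of_one_le_of_one_le q1 q2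
                _ = _ := by ring
            · simp only [hc, if_false, tsum_zero]
              exact zero_le
          refine (mul_le_mul' le_rfl (add_le_add g1 g2')).trans ?_
          rw [← ENNReal.ofReal_add (by positivity) (by positivity), ← ENNReal.ofReal_mul p4.le]
          apply ENNReal.ofReal_le_ofReal
          exact le_of_eq (by ring)
      _ = ENNReal.ofReal ((K3 * (Ub b * (2 : ℝ) ^ (kap0 / 8 * ((k : ℝ) - b)) *
            (2 : ℝ) ^ (-(δ / 2 * ((b : ℝ) - a)))) + K4 * Ub b * (2 : ℝ) ^ (δ / 2) * (if k ≤ a + 1 then 1 else 0)) *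
            ∑ b2 ∈ range (k + 1), ∑ a2 ∈ Icc b2 (k + 1), ((2 : ℝ) ^ (kap0 / 4 * ((k : ℝ) + 1 - a2)) * (Ub a2 / Ub k) *
            (2 : ℝ) ^ (kap0 / 16 * ((k - a2 : ℕ) : ℝ)) * (2 : ℝ) ^ (-(δ / 2 * ((min a2 k - b2 : ℕ) : ℝ))))) := by
          have hnn : ∀ b2 a2 : ℕ, 0 ≤ (K3 * (Ub b * (2 : ℝ) ^ (kap0 / 8 * ((k : ℝ) - b)) *
            (2 : ℝ) ^ (-(δ / 2 * ((b : ℝ) - a)))) + K4 * Ub b * (2 : ℝ) ^ (δ / 2) * (if k ≤ a + 1 then 1 else 0)) *
            ((2 : ℝ) ^ (kap0 / 4 * ((k : ℝ) + 1 - a2)) * (Ub a2 / Ub k) *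
            (2 : ℝ) ^ (kap0 / 16 * ((k - a2 : ℕ) : ℝ)) *
              (2 : ℝ) ^ (-(δ / 2 * ((min a2 k - b2 : ℕ) : ℝ)))) := by
            intro b2 a2
            have hUa := Ub_pos a2
            have p1 := SK3_pos (kap0 / 16 * ((k - a2 : ℕ) : ℝ))
            have p3 := SK3_pos (-(δ / 2 * ((min a2 k - b2 : ℕ) : ℝ)))
            have p4 := SK3_pos (kap0 / 4 * ((k : ℝ) + 1 - a2))
            have p5 := SK3_pos (δ / 2)
            have p6 := SK3_pos (kap0 / 8 * ((k : ℝ) - b))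
            split_ifs <;> positivity
          rw [Finset.mul_sum, ENNReal.ofReal_sum_of_nonneg]
          · refine Finset.sum_congr rfl fun b2 _ => ?_
            rw [Finset.mul_sum, ENNReal.ofReal_sum_of_nonneg]
            exact fun a2 _ => hnn b2 a2
          · intro b2 _
            rw [Finset.mul_sum]
            exact Finset.sum_nonneg fun a2 _ => hnn b2 a2
      _ ≤ _ := by
          apply ENNReal.ofReal_le_ofReal
          have p5 := SK3_pos (δ / 2)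
          have p6 := SK3_pos (kap0 / 8 * ((k : ℝ) - b))
          refine mul_le_mul_of_nonneg_left (h5 k) ?_
          split_ifs <;> positivity
  refine (add_le_add hA hB).trans ?_
  have p5 := SK3_pos (δ / 2)
  have p6 := SK3_pos (kap0 / 8 * ((k : ℝ) - b))
  have hi : (0 : ℝ) ≤ (if k ≤ a + 1 then 1 else 0) := by split_ifs <;> norm_num
  rw [← ENNReal.ofReal_add (by positivity) (by positivity)]
  apply ENNReal.ofReal_le_ofReal
  have f1 : Ub b * (2 : ℝ) ^ (kap0 / 8 * ((k : ℝ) - b)) * (2 : ℝ) ^ (-(δ / 2 * ((b : ℝ) - a))) ≤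
      Ub b * (2 : ℝ) ^ (kap0 / 8 * ((k : ℝ) - b)) *
        ((2 : ℝ) ^ (-(δ / 2 * ((b : ℝ) - a))) + if k ≤ a + 1 then 1 else 0) := by
    gcongr
    linarith
  have f2 : Ub b * (if k ≤ a + 1 then 1 else 0) ≤
      Ub b * (2 : ℝ) ^ (kap0 / 8 * ((k : ℝ) - b)) *
        ((2 : ℝ) ^ (-(δ / 2 * ((b : ℝ) - a))) + if k ≤ a + 1 then 1 else 0) := by
    calc Ub b * (if k ≤ a + 1 then 1 else 0) ≤ Ub b * (2 : ℝ) ^ (kap0 / 8 * ((k : ℝ) - b)) *
          (if k ≤ a + 1 then 1 else 0) := by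
          refine mul_le_mul_of_nonneg_right ?_ hi
          exact le_mul_of_one_le_right hUb.le hθ1
      _ ≤ _ := by
          gcongr
          linarith
  have f3 : 0 ≤ K3 * K5 := by positivity
  have f4 : 0 ≤ K4 * ((2 : ℝ) ^ (δ / 2) * K5) := by positivity
  have f5 := mul_le_mul_of_nonneg_left f1 f3
  have f6 := mul_le_mul_of_nonneg_left f2 f4
  linarith [f5, f6]

/-- geometric sum of the lower ends -/
theorem k3_geo (hδ : 0 < δ) : ∃ K : ℝ, 1 ≤ K ∧ ∀ b : ℕ,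
    ∑ a ∈ range (b + 1), (2 : ℝ) ^ (-(δ / 2 * ((b : ℝ) - a))) ≤ K := by
  obtain ⟨K, hK, h1⟩ := SK3_geo (c := δ / 2) (by linarith)
  refine ⟨K, hK, fun b => ?_⟩
  refine le_trans (le_of_eq ?_) (h1 b)
  refine Finset.sum_congr rfl fun a ha => ?_
  rw [Finset.mem_range] at ha
  rw [Nat.cast_sub (by omega)]

/-- (k3) and (k3') with one statement for the range of a: the giant P is used at both ends. a > b: KT_le_left and n2.
a ≤ b: KT_le_right; first part of Sw: pm_EE, geo_Ub; second part: two_gains summed over l ≥ k - 1 for the pieces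
higher than 2^(k-1), (CU) and avg_mass for the smaller ones (then a, b2 ≥ k - 1) -/
theorem k3 (h : Inp C δ) : ∃ K : ℝ, 1 ≤ K ∧ ∀ (D k b : ℕ) (I : List Bool), 2 ^ (k + 4) ≤ D → b ≤ k →
    ∑ a ∈ range (k + 2), ∑ b2 ∈ range (k + 1), ∑' r : ℕ, Rec8.mb k a r * Rec8.mb k b2 r *
      Rec8.sw (Irr r) (fun P => KT D b I a P * Sw D k b2 P) ≤ ENNReal.ofReal K * Sw D k b I := by
  have hk0 := kap0_pos
  obtain ⟨K1, hK1, h1⟩ := k3_hi h
  obtain ⟨K2, hK2, h2⟩ := k3_lo h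
  obtain ⟨K3, hK3, h3⟩ := k3_geo h.pos
  refine ⟨K2 * (K3 + 2) + K1, by nlinarith, fun D k b I hD hbk => ?_⟩
  have hUb := Ub_pos b
  have hbk' : (b : ℝ) ≤ k := by exact_mod_cast hbk
  have p6 := SK3_pos (kap0 / 8 * ((k : ℝ) - b))
  have hsplit : range (k + 2) = range (b + 1) ∪ Icc (b + 1) (k + 1) := by
    ext a
    simp only [Finset.mem_union, Finset.mem_range, Finset.mem_Icc]
    omega
  have hdisj : Disjoint (range (b + 1)) (Icc (b + 1) (k + 1)) := by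
    rw [Finset.disjoint_left]
    intro a ha ha'
    rw [Finset.mem_range] at ha
    rw [Finset.mem_Icc] at ha'
    omega
  rw [hsplit, Finset.sum_union hdisj]
  have e1 : ∑ a ∈ range (b + 1), ∑ b2 ∈ range (k + 1), (∑' r : ℕ, Rec8.mb k a r * Rec8.mb k b2 r *
      Rec8.sw (Irr r) (fun P => KT D b I a P * Sw D k b2 P)) ≤
      ENNReal.ofReal (K2 * (K3 + 2)) * ENNReal.ofReal ((2 : ℝ) ^ (kap0 / 4 * ((k : ℝ) - b)) * Ub b) := by
    calc ∑ a ∈ range (b + 1), ∑ b2 ∈ range (k + 1), (∑' r : ℕ, Rec8.mb k a r * Rec8.mb k b2 r *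
          Rec8.sw (Irr r) (fun P => KT D b I a P * Sw D k b2 P))
        ≤ ∑ a ∈ range (b + 1), ENNReal.ofReal (K2 * (Ub b * (2 : ℝ) ^ (kap0 / 8 * ((k : ℝ) - b)) *
          ((2 : ℝ) ^ (-(δ / 2 * ((b : ℝ) - a))) + if k ≤ a + 1 then 1 else 0))) := by
          refine Finset.sum_le_sum fun a ha => ?_
          rw [Finset.mem_range] at ha
          exact h2 D k b a I hD (by omega) hbk
      _ = ENNReal.ofReal (∑ a ∈ range (b + 1), (K2 * (Ub b * (2 : ℝ) ^ (kap0 / 8 * ((k : ℝ) - b)) *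
          ((2 : ℝ) ^ (-(δ / 2 * ((b : ℝ) - a))) + if k ≤ a + 1 then 1 else 0)))) := by
          rw [ENNReal.ofReal_sum_of_nonneg]
          intro a _
          have := SK3_pos (-(δ / 2 * ((b : ℝ) - a)))
          split_ifs <;> positivity
      _ ≤ _ := by
          rw [← ENNReal.ofReal_mul (by positivity)]
          apply ENNReal.ofReal_le_ofReal
          rw [← Finset.mul_sum, ← Finset.mul_sum, Finset.sum_add_distrib]
          have g1 := h3 b
          have g2' : ∑ a ∈ range (b + 1), (if k ≤ a + 1 then (1 : ℝ) else 0) ≤ 2 := by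
            rw [← Finset.sum_filter, Finset.sum_const, nsmul_eq_mul, mul_one]
            have : ((range (b + 1)).filter (fun a => k ≤ a + 1)).card ≤ 2 := by
              calc ((range (b + 1)).filter (fun a => k ≤ a + 1)).card ≤ (Icc (k - 1) k).card := by
                    apply Finset.card_le_card
                    intro a ha
                    rw [Finset.mem_filter, Finset.mem_range] at ha
                    rw [Finset.mem_Icc]
                    omega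
                _ ≤ 2 := by
                    rw [Nat.card_Icc]
                    omega
            exact_mod_cast this
          have g3 : (2 : ℝ) ^ (kap0 / 8 * ((k : ℝ) - b)) ≤ (2 : ℝ) ^ (kap0 / 4 * ((k : ℝ) - b)) := by
            apply SK3_mono
            nlinarith
          calc K2 * (Ub b * (2 : ℝ) ^ (kap0 / 8 * ((k : ℝ) - b)) *
                (∑ a ∈ range (b + 1), (2 : ℝ) ^ (-(δ / 2 * ((b : ℝ) - a))) +
                  ∑ a ∈ range (b + 1), (if k ≤ a + 1 then (1 : ℝ) else 0)))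
              ≤ K2 * (Ub b * (2 : ℝ) ^ (kap0 / 4 * ((k : ℝ) - b)) * (K3 + 2)) := by gcongr
            _ = _ := by ring
  have e2 : ∑ a ∈ Icc (b + 1) (k + 1), ∑ b2 ∈ range (k + 1), (∑' r : ℕ, Rec8.mb k a r * Rec8.mb k b2 r *
      Rec8.sw (Irr r) (fun P => KT D b I a P * Sw D k b2 P)) ≤
      ENNReal.ofReal K1 * ∑ a ∈ Icc b (k + 1), ENNReal.ofReal ((2 : ℝ) ^ (kap0 / 4 * ((k : ℝ) + 1 - a))) *
        EE D b a (rev I) := by
    calc ∑ a ∈ Icc (b + 1) (k + 1), ∑ b2 ∈ range (k + 1), (∑' r : ℕ, Rec8.mb k a r * Rec8.mb k b2 r *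
          Rec8.sw (Irr r) (fun P => KT D b I a P * Sw D k b2 P))
        ≤ ∑ a ∈ Icc (b + 1) (k + 1), ENNReal.ofReal K1 *
          (ENNReal.ofReal ((2 : ℝ) ^ (kap0 / 4 * ((k : ℝ) + 1 - a))) * EE D b a (rev I)) := by
          refine Finset.sum_le_sum fun a ha => ?_
          rw [Finset.mem_Icc] at ha
          refine (h1 D k b a I hD (by omega) ha.2).trans ?_
          refine mul_le_mul' le_rfl ?_
          have : (1 : ℝ≥0∞) ≤ ENNReal.ofReal ((2 : ℝ) ^ (kap0 / 4 * ((k : ℝ) + 1 - a))) := by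
            rw [ENNReal.one_le_ofReal]
            apply SK3_one_le
            have : (a : ℝ) ≤ (k : ℝ) + 1 := by exact_mod_cast ha.2
            have : 0 ≤ kap0 / 4 := by linarith
            apply mul_nonneg this
            linarith
          calc EE D b a (rev I) = 1 * EE D b a (rev I) := (one_mul _).symm
            _ ≤ _ := mul_le_mul' this le_rfl
      _ = ENNReal.ofReal K1 * ∑ a ∈ Icc (b + 1) (k + 1),
          (ENNReal.ofReal ((2 : ℝ) ^ (kap0 / 4 * ((k : ℝ) + 1 - a))) * EE D b a (rev I)) := by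
          rw [Finset.mul_sum]
      _ ≤ _ := by
          refine mul_le_mul' le_rfl ?_
          apply Finset.sum_le_sum_of_subset
          apply Finset.Icc_subset_Icc_left
          omega
  refine (add_le_add e1 e2).trans ?_
  unfold Sw
  rw [ENNReal.ofReal_add (by positivity) (by positivity), add_mul]
  refine add_le_add ?_ ?_
  · exact mul_le_mul' le_rfl le_self_add
  · exact mul_le_mul' le_rfl le_add_self

/-- the sum of the terms a > b of k3' -/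
private theorem TN4c_hi {D k j1 b : ℕ} {I : List Bool} {c : ℝ} (hc : 0 < c) (hck : c ≤ kap0 / 4) (hj : j1 + 3 ≤ k) :
    ∑ a ∈ (range (j1 + 2)).filter (fun a => b < a), EE D b a (rev I) ≤
      ENNReal.ofReal ((2 : ℝ) ^ (-(c * ((k : ℝ) - j1)))) * Sw D k b I := by
  have hk0 := kap0_pos
  have h1 : ∀ a ∈ (range (j1 + 2)).filter (fun a => b < a), EE D b a (rev I) ≤
      ENNReal.ofReal ((2 : ℝ) ^ (-(c * ((k : ℝ) - j1)))) *
        (ENNReal.ofReal ((2 : ℝ) ^ (kap0 / 4 * ((k : ℝ) + 1 - a))) * EE D b a (rev I)) := by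
    intro a ha
    rw [Finset.mem_filter, Finset.mem_range] at ha
    have h2 : (a : ℝ) ≤ j1 + 1 := by exact_mod_cast (show a ≤ j1 + 1 by omega)
    have h3 : (j1 : ℝ) + 3 ≤ k := by exact_mod_cast hj
    rw [← mul_assoc, ← ENNReal.ofReal_mul (by positivity), ← Real.rpow_add (by norm_num)]
    have h4 : (1 : ℝ) ≤ (2 : ℝ) ^ (-(c * ((k : ℝ) - j1)) + kap0 / 4 * ((k : ℝ) + 1 - a)) := by
      apply Real.one_le_rpow (by norm_num)
      have h5 : c * ((k : ℝ) - j1) ≤ kap0 / 4 * ((k : ℝ) - j1) := mul_le_mul_of_nonneg_right hck (by linarith)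
      have h6 : kap0 / 4 * ((k : ℝ) - j1) ≤ kap0 / 4 * ((k : ℝ) + 1 - a) :=
        mul_le_mul_of_nonneg_left (by linarith) (by linarith)
      linarith
    calc EE D b a (rev I) = 1 * EE D b a (rev I) := (one_mul _).symm
      _ ≤ _ := by
        gcongr
        rw [← ENNReal.ofReal_one]
        exact ENNReal.ofReal_le_ofReal h4
  refine (Finset.sum_le_sum h1).trans ?_
  rw [← Finset.mul_sum]
  gcongr
  unfold Sw
  refine le_trans ?_ le_add_self
  apply Finset.sum_le_sum_of_subset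
  intro a ha
  rw [Finset.mem_filter, Finset.mem_range] at ha
  rw [Finset.mem_Icc]
  omega

/-- the sum of the terms a ≤ b of k3' -/
private theorem TN4c_lo {δ : ℝ} (hδ : 0 < δ) : ∃ K c : ℝ, 1 ≤ K ∧ 0 < c ∧ c ≤ kap0 / 4 ∧ ∀ k j1 b : ℕ,
    j1 + 3 ≤ k → b ≤ k → ∑ a ∈ (range (j1 + 2)).filter (fun a => ¬ b < a),
      Ub b * (2 : ℝ) ^ (kap0 / 8 * ((k : ℝ) - b)) * (2 : ℝ) ^ (-(δ / 2 * ((b : ℝ) - a))) ≤
        K * (2 : ℝ) ^ (-(c * ((k : ℝ) - j1))) * ((2 : ℝ) ^ (kap0 / 4 * ((k : ℝ) - b)) * Ub b) := by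
  have hk0 := kap0_pos
  obtain ⟨K, hK, hgeo⟩ := geo (c := δ / 2) (by linarith)
  obtain ⟨c, hc⟩ : ∃ c, c = min (kap0 / 8) (δ / 2) := ⟨_, rfl⟩
  have hc0 : 0 < c := by rw [hc]; exact lt_min (by linarith) (by linarith)
  have hc1 : c ≤ kap0 / 8 := by rw [hc]; exact min_le_left _ _
  have hc2 : c ≤ δ / 2 := by rw [hc]; exact min_le_right _ _
  have h2c : (1 : ℝ) ≤ (2 : ℝ) ^ c := Real.one_le_rpow (by norm_num) hc0.le
  refine ⟨K * (2 : ℝ) ^ c, c, by nlinarith, hc0, by linarith, fun k j1 b hj hb => ?_⟩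
  have hU := Ub_pos b
  obtain ⟨m, hm⟩ : ∃ m, m = min b (j1 + 1) := ⟨_, rfl⟩
  have hmb : m ≤ b := by omega
  have hmj : m ≤ j1 + 1 := by omega
  have hset : (range (j1 + 2)).filter (fun a => ¬ b < a) = range (m + 1) := by
    ext a
    rw [Finset.mem_filter, Finset.mem_range, Finset.mem_range]
    omega
  have hsum : ∑ a ∈ range (m + 1), (2 : ℝ) ^ (-(δ / 2 * ((b : ℝ) - a))) ≤ (2 : ℝ) ^ (-(δ / 2 * ((b : ℝ) - m))) * K := by
    rw [← Finset.sum_range_reflect]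
    calc ∑ i ∈ range (m + 1), (2 : ℝ) ^ (-(δ / 2 * ((b : ℝ) - ((m + 1 - 1 - i : ℕ) : ℝ))))
        = ∑ i ∈ range (m + 1), (2 : ℝ) ^ (-(δ / 2 * ((b : ℝ) - m))) * (2 : ℝ) ^ (-(δ / 2 * (i : ℝ))) := by
          refine Finset.sum_congr rfl fun i hi => ?_
          rw [Finset.mem_range] at hi
          rw [← Real.rpow_add (by norm_num), show m + 1 - 1 - i = m - i by omega, Nat.cast_sub (by omega)]
          congr 1
          ring
      _ = (2 : ℝ) ^ (-(δ / 2 * ((b : ℝ) - m))) * ∑ i ∈ range (m + 1), (2 : ℝ) ^ (-(δ / 2 * (i : ℝ))) := by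
          rw [Finset.mul_sum]
      _ ≤ _ := by
          gcongr
          exact hgeo (m + 1)
  rw [hset, ← Finset.mul_sum]
  have hbk : (b : ℝ) ≤ k := by exact_mod_cast hb
  have hmb' : (m : ℝ) ≤ b := by exact_mod_cast hmb
  have hmj' : (m : ℝ) ≤ j1 + 1 := by exact_mod_cast hmj
  have hexp : (2 : ℝ) ^ (kap0 / 8 * ((k : ℝ) - b)) * (2 : ℝ) ^ (-(δ / 2 * ((b : ℝ) - m))) ≤
      (2 : ℝ) ^ c * (2 : ℝ) ^ (-(c * ((k : ℝ) - j1))) * (2 : ℝ) ^ (kap0 / 4 * ((k : ℝ) - b)) := by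
    rw [← Real.rpow_add (by norm_num), ← Real.rpow_add (by norm_num), ← Real.rpow_add (by norm_num)]
    apply Real.rpow_le_rpow_of_exponent_le (by norm_num)
    have h1 : c * ((k : ℝ) - b) ≤ kap0 / 8 * ((k : ℝ) - b) := mul_le_mul_of_nonneg_right hc1 (by linarith)
    have h2 : c * ((b : ℝ) - m) ≤ δ / 2 * ((b : ℝ) - m) := mul_le_mul_of_nonneg_right hc2 (by linarith)
    have h3 : c * ((k : ℝ) - j1 - 1) ≤ c * ((k : ℝ) - m) := mul_le_mul_of_nonneg_left (by linarith) hc0.le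
    nlinarith
  calc Ub b * (2 : ℝ) ^ (kap0 / 8 * ((k : ℝ) - b)) * ∑ a ∈ range (m + 1), (2 : ℝ) ^ (-(δ / 2 * ((b : ℝ) - a)))
      ≤ Ub b * (2 : ℝ) ^ (kap0 / 8 * ((k : ℝ) - b)) * ((2 : ℝ) ^ (-(δ / 2 * ((b : ℝ) - m))) * K) := by gcongr
    _ = Ub b * K * ((2 : ℝ) ^ (kap0 / 8 * ((k : ℝ) - b)) * (2 : ℝ) ^ (-(δ / 2 * ((b : ℝ) - m)))) := by ring
    _ ≤ Ub b * K * ((2 : ℝ) ^ c * (2 : ℝ) ^ (-(c * ((k : ℝ) - j1))) * (2 : ℝ) ^ (kap0 / 4 * ((k : ℝ) - b))) := by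
        gcongr
    _ = _ := by ring

/-- (k3'): only a ≤ j1 + 1 ≤ k - 2 -/
theorem k3' (h : Inp C δ) : ∃ K c : ℝ, 1 ≤ K ∧ 0 < c ∧ ∀ (D k j1 b : ℕ) (I : List Bool), 2 ^ (k + 4) ≤ D →
    j1 + 3 ≤ k → b ≤ k → ∑ a ∈ range (j1 + 2), ∑ b2 ∈ range (k + 1), ∑' r : ℕ, Rec8.mb k a r * Rec8.mb k b2 r *
      Rec8.sw (Irr r) (fun P => KT D b I a P * Sw D k b2 P) ≤
        ENNReal.ofReal (K * (2 : ℝ) ^ (-(c * ((k : ℝ) - j1)))) * Sw D k b I := by
  have hk0 := kap0_pos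
  obtain ⟨K1, hK1, h1⟩ := k3_hi h
  obtain ⟨K2, hK2, h2⟩ := k3_lo h
  obtain ⟨K3, c, hK3, hc, hck, h3⟩ := TN4c_lo h.pos
  refine ⟨K1 + K2 * K3, c, by nlinarith, hc, fun D k j1 b I hD hj hb => ?_⟩
  have hU := Ub_pos b
  rw [← Finset.sum_filter_add_sum_filter_not (range (j1 + 2)) (fun a => b < a)]
  have hA : ∑ a ∈ (range (j1 + 2)).filter (fun a => b < a), ∑ b2 ∈ range (k + 1), ∑' r : ℕ,
      Rec8.mb k a r * Rec8.mb k b2 r * Rec8.sw (Irr r) (fun P => KT D b I a P * Sw D k b2 P) ≤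
      ENNReal.ofReal (K1 * (2 : ℝ) ^ (-(c * ((k : ℝ) - j1)))) * Sw D k b I := by
    calc _ ≤ ∑ a ∈ (range (j1 + 2)).filter (fun a => b < a), ENNReal.ofReal K1 * EE D b a (rev I) := by
          apply Finset.sum_le_sum
          intro a ha
          rw [Finset.mem_filter, Finset.mem_range] at ha
          exact h1 D k b a I hD ha.2 (by omega)
      _ ≤ ENNReal.ofReal K1 * (ENNReal.ofReal ((2 : ℝ) ^ (-(c * ((k : ℝ) - j1)))) * Sw D k b I) := by
          rw [← Finset.mul_sum]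
          gcongr
          exact TN4c_hi hc hck hj
      _ = _ := by rw [← mul_assoc, ← ENNReal.ofReal_mul (by linarith)]
  have hB : ∑ a ∈ (range (j1 + 2)).filter (fun a => ¬ b < a), ∑ b2 ∈ range (k + 1), ∑' r : ℕ,
      Rec8.mb k a r * Rec8.mb k b2 r * Rec8.sw (Irr r) (fun P => KT D b I a P * Sw D k b2 P) ≤
      ENNReal.ofReal (K2 * K3 * (2 : ℝ) ^ (-(c * ((k : ℝ) - j1)))) * Sw D k b I := by
    calc _ ≤ ∑ a ∈ (range (j1 + 2)).filter (fun a => ¬ b < a), ENNReal.ofReal (K2 * (Ub b *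
          (2 : ℝ) ^ (kap0 / 8 * ((k : ℝ) - b)) * (2 : ℝ) ^ (-(δ / 2 * ((b : ℝ) - a))))) := by
          apply Finset.sum_le_sum
          intro a ha
          rw [Finset.mem_filter, Finset.mem_range] at ha
          have h4 := h2 D k b a I hD (by omega) hb
          rw [if_neg (by omega), add_zero] at h4
          exact h4
      _ = ENNReal.ofReal (K2 * ∑ a ∈ (range (j1 + 2)).filter (fun a => ¬ b < a), (Ub b *
          (2 : ℝ) ^ (kap0 / 8 * ((k : ℝ) - b)) * (2 : ℝ) ^ (-(δ / 2 * ((b : ℝ) - a))))) := by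
          rw [← ENNReal.ofReal_sum_of_nonneg, Finset.mul_sum]
          intro a _
          positivity
      _ ≤ ENNReal.ofReal (K2 * (K3 * (2 : ℝ) ^ (-(c * ((k : ℝ) - j1))) *
          ((2 : ℝ) ^ (kap0 / 4 * ((k : ℝ) - b)) * Ub b))) := by
          apply ENNReal.ofReal_le_ofReal
          gcongr
          exact h3 k j1 b hj hb
      _ = ENNReal.ofReal (K2 * K3 * (2 : ℝ) ^ (-(c * ((k : ℝ) - j1)))) *
          ENNReal.ofReal ((2 : ℝ) ^ (kap0 / 4 * ((k : ℝ) - b)) * Ub b) := by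
          rw [← ENNReal.ofReal_mul (by positivity)]
          congr 1
          ring
      _ ≤ _ := by
          gcongr
          unfold Sw
          exact le_self_add
  calc _ ≤ _ := add_le_add hA hB
    _ = _ := by
        rw [← add_mul, ← ENNReal.ofReal_add (by positivity) (by positivity), ← add_mul]

end TS

end HexObs
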