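import Pool.Agent.TightN.SNum
import Pool.Agent.PHW.HangA

/-!
TIGHT, part S2, module TN2: sums of the mass bound (TEF) over the pieces.
-/

set_option autoImplicit false

namespace HexObs

open Finset

open scoped ENNReal

namespace TS

variable {C δ : ℝ}

theorem TT_nonneg (θ δ : ℝ) (l a b : ℕ) : 0 ≤ TT θ δ l a b := by
  unfold TT
  have h1 := Ub_pos a
  have h2 := Ub_pos l
  positivity

private lemma TN2a_step {θ δ : ℝ} (hθ : 0 ≤ θ) (hδ : 0 ≤ δ) {j l : ℕ} (hjl : j ≤ l) (a b : ℕ) :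
    TT θ δ l a b ≤ 2 * (2 : ℝ) ^ (-((kap0 - θ) * ((l - j : ℕ) : ℝ))) * TT θ δ j a b := by
  have ha := Ub_pos a
  have hl := Ub_pos l
  have hj := Ub_pos j
  have hg := Ub_growth hjl
  have e1 : ((l - j : ℕ) : ℝ) = (l : ℝ) - j := Nat.cast_sub hjl
  have h1 : Ub a / Ub l ≤ 2 * (2 : ℝ) ^ (-(kap0 * ((l - j : ℕ) : ℝ))) * (Ub a / Ub j) := by
    rw [e1, Real.rpow_neg (by norm_num)]
    have hp : (0 : ℝ) < 2 ^ (kap0 * ((l : ℝ) - j)) := Real.rpow_pos_of_pos (by norm_num) _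
    rw [div_le_iff₀ hl]
    have h2 : Ub a ≤ Ub a * (2 * Ub l / (Ub j * 2 ^ (kap0 * ((l : ℝ) - j)))) := by
      have h3 : 1 ≤ 2 * Ub l / (Ub j * 2 ^ (kap0 * ((l : ℝ) - j))) := by
        rw [le_div_iff₀ (by positivity), one_mul]
        exact hg
      nlinarith
    refine h2.trans (le_of_eq ?_)
    field_simp
  have h2 : (2 : ℝ) ^ (θ * ((l - a : ℕ) : ℝ)) ≤
      2 ^ (θ * ((l - j : ℕ) : ℝ)) * 2 ^ (θ * ((j - a : ℕ) : ℝ)) := by
    rw [← Real.rpow_add (by norm_num)]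
    apply Real.rpow_le_rpow_of_exponent_le (by norm_num)
    rw [← mul_add]
    apply mul_le_mul_of_nonneg_left _ hθ
    have h3 : l - a ≤ (l - j) + (j - a) := by omega
    exact_mod_cast h3
  have h3 : (2 : ℝ) ^ (-(δ * ((min a l - b : ℕ) : ℝ))) ≤ 2 ^ (-(δ * ((min a j - b : ℕ) : ℝ))) := by
    apply Real.rpow_le_rpow_of_exponent_le (by norm_num)
    apply neg_le_neg
    apply mul_le_mul_of_nonneg_left _ hδ
    have h4 : min a j - b ≤ min a l - b := by
      have : min a j ≤ min a l := min_le_min le_rfl hjl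
      omega
    exact_mod_cast h4
  have e2 : (2 : ℝ) ^ (-((kap0 - θ) * ((l - j : ℕ) : ℝ))) =
      2 ^ (-(kap0 * ((l - j : ℕ) : ℝ))) * 2 ^ (θ * ((l - j : ℕ) : ℝ)) := by
    rw [← Real.rpow_add (by norm_num)]
    congr 1
    ring
  rw [e2]
  unfold TT
  calc Ub a / Ub l * 2 ^ (θ * ((l - a : ℕ) : ℝ)) * 2 ^ (-(δ * ((min a l - b : ℕ) : ℝ)))
      ≤ (2 * (2 : ℝ) ^ (-(kap0 * ((l - j : ℕ) : ℝ))) * (Ub a / Ub j)) *
          (2 ^ (θ * ((l - j : ℕ) : ℝ)) * 2 ^ (θ * ((j - a : ℕ) : ℝ))) *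
          2 ^ (-(δ * ((min a j - b : ℕ) : ℝ))) := by
        gcongr
    _ = _ := by ring

private lemma TN2a_pred {θ δ : ℝ} (hθ : 0 ≤ θ) (hδ : 0 ≤ δ) {j : ℕ} (hj1 : 1 ≤ j) (a b : ℕ) :
    TT θ δ (j - 1) a b ≤ 2 * (2 : ℝ) ^ δ * TT θ δ j a b := by
  have ha := Ub_pos a
  have hl := Ub_pos (j - 1)
  have hj := Ub_pos j
  have hg := Ub_succ (j - 1)
  rw [Nat.sub_add_cancel hj1] at hg
  have h1 : Ub a / Ub (j - 1) ≤ 2 * (Ub a / Ub j) := by
    rw [div_le_iff₀ hl]
    have h3 : 1 ≤ 2 * Ub (j - 1) / Ub j := by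
      rw [le_div_iff₀ hj, one_mul]
      exact hg
    have h2 : Ub a ≤ Ub a * (2 * Ub (j - 1) / Ub j) := by nlinarith
    refine h2.trans (le_of_eq ?_)
    ring
  have h2 : (2 : ℝ) ^ (θ * ((j - 1 - a : ℕ) : ℝ)) ≤ 2 ^ (θ * ((j - a : ℕ) : ℝ)) := by
    apply Real.rpow_le_rpow_of_exponent_le (by norm_num)
    apply mul_le_mul_of_nonneg_left _ hθ
    have h3 : j - 1 - a ≤ j - a := by omega
    exact_mod_cast h3
  have h3 : (2 : ℝ) ^ (-(δ * ((min a (j - 1) - b : ℕ) : ℝ))) ≤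
      2 ^ δ * 2 ^ (-(δ * ((min a j - b : ℕ) : ℝ))) := by
    rw [← Real.rpow_add (by norm_num)]
    apply Real.rpow_le_rpow_of_exponent_le (by norm_num)
    have h4 : min a j - b ≤ (min a (j - 1) - b) + 1 := by
      have : min a j ≤ min a (j - 1) + 1 := by
        rcases Nat.le_total a j with h | h
        · rw [min_eq_left h]
          rcases Nat.le_total a (j - 1) with h' | h'
          · rw [min_eq_left h']
            omega
          · rw [min_eq_right h']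
            omega
        · rw [min_eq_right h]
          rcases Nat.le_total a (j - 1) with h' | h'
          · rw [min_eq_left h']
            omega
          · rw [min_eq_right h']
            omega
      omega
    have h5 : ((min a j - b : ℕ) : ℝ) ≤ ((min a (j - 1) - b : ℕ) : ℝ) + 1 := by exact_mod_cast h4
    nlinarith
  unfold TT
  calc Ub a / Ub (j - 1) * 2 ^ (θ * ((j - 1 - a : ℕ) : ℝ)) * 2 ^ (-(δ * ((min a (j - 1) - b : ℕ) : ℝ)))
      ≤ (2 * (Ub a / Ub j)) * 2 ^ (θ * ((j - a : ℕ) : ℝ)) *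
          (2 ^ δ * 2 ^ (-(δ * ((min a j - b : ℕ) : ℝ)))) := by
        gcongr
    _ = _ := by ring

/-- sum of the bound over the blocks l ≥ j - 1; TT l ≤ 2 * 2^(-(kap0 - θ) (l - j)) TT j for l ≥ j -/
theorem TT_sum {θ δ : ℝ} (hθ : 0 ≤ θ) (hθ2 : θ < kap0) (hδ : 0 ≤ δ) : ∃ K : ℝ, 1 ≤ K ∧ ∀ j a b L : ℕ,
    ∑ l ∈ Ico (j - 1) L, TT θ δ l a b ≤ K * TT θ δ j a b := by
  obtain ⟨K, hK1, hK⟩ := geo (c := kap0 - θ) (by linarith)
  refine ⟨2 * 2 ^ δ + 2 * K, ?_, ?_⟩
  · have : (0 : ℝ) < 2 ^ δ := Real.rpow_pos_of_pos (by norm_num) _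
    linarith
  · intro j a b L
    have hTj := TT_nonneg θ δ j a b
    have h2δ : (0 : ℝ) < 2 ^ δ := Real.rpow_pos_of_pos (by norm_num) _
    have h1 : ∑ l ∈ Ico j L, TT θ δ l a b ≤ 2 * K * TT θ δ j a b := by
      calc ∑ l ∈ Ico j L, TT θ δ l a b
          ≤ ∑ l ∈ Ico j L, 2 * (2 : ℝ) ^ (-((kap0 - θ) * ((l - j : ℕ) : ℝ))) * TT θ δ j a b :=
            Finset.sum_le_sum fun l hl => TN2a_step hθ hδ (Finset.mem_Ico.1 hl).1 a b
        _ = 2 * (∑ i ∈ range (L - j), (2 : ℝ) ^ (-((kap0 - θ) * (i : ℝ)))) * TT θ δ j a b := by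
            rw [Finset.sum_Ico_eq_sum_range, Finset.mul_sum, Finset.sum_mul]
            refine Finset.sum_congr rfl fun i _ => ?_
            rw [Nat.add_sub_cancel_left]
        _ ≤ 2 * K * TT θ δ j a b := by
            have := hK (L - j)
            gcongr
    rcases Nat.eq_zero_or_pos j with rfl | hj
    · refine h1.trans ?_
      apply mul_le_mul_of_nonneg_right _ hTj
      linarith
    · have h2 : ∑ l ∈ Ico (j - 1) L, TT θ δ l a b ≤ TT θ δ (j - 1) a b + ∑ l ∈ Ico j L, TT θ δ l a b := by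
        have hsub : Ico (j - 1) L ⊆ insert (j - 1) (Ico j L) := by
          intro l hl
          rw [Finset.mem_Ico] at hl
          rw [Finset.mem_insert, Finset.mem_Ico]
          omega
        refine (Finset.sum_le_sum_of_subset_of_nonneg hsub fun l _ _ => TT_nonneg θ δ l a b).trans ?_
        rw [Finset.sum_insert (by rw [Finset.mem_Ico]; omega)]
      have h3 := TN2a_pred hθ hδ hj a b
      calc ∑ l ∈ Ico (j - 1) L, TT θ δ l a b ≤ TT θ δ (j - 1) a b + ∑ l ∈ Ico j L, TT θ δ l a b := h2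
        _ ≤ 2 * 2 ^ δ * TT θ δ j a b + 2 * K * TT θ δ j a b := add_le_add h3 h1
        _ = (2 * 2 ^ δ + 2 * K) * TT θ δ j a b := by ring

private lemma TN2a_Irr_height {r r' : ℕ} {t : List Bool} (h : t ∈ Irr r) (h' : t ∈ Irr r') : r = r' :=
  Brd_height h.1 h'.1

private lemma TN2a_sum_Irr (p : ℕ → Prop) [DecidablePred p] (Φ : List Bool → ℝ≥0∞) :
    (∑' r : ℕ, (if p r then Rec8.sw (Irr r) Φ else 0)) ≤ Rec8.sw {t | ∃ r, p r ∧ t ∈ Irr r} Φ := by
  classical
  have h1 : ∀ r, (if p r then Rec8.sw (Irr r) Φ else 0) =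
      ∑' t : List Bool, (if p r ∧ t ∈ Irr r then wE t * Φ t else 0) := by
    intro r
    by_cases hp : p r
    · rw [if_pos hp, Rec8.sw_ind]
      exact tsum_congr fun t => by simp [hp]
    · rw [if_neg hp]
      simp [hp]
  rw [tsum_congr h1, ENNReal.tsum_comm, Rec8.sw_ind]
  refine ENNReal.tsum_le_tsum fun t => ?_
  by_cases ht : ∃ r, p r ∧ t ∈ Irr r
  · obtain ⟨r, hp, hr⟩ := ht
    rw [tsum_eq_single r]
    · rw [if_pos ⟨hp, hr⟩, if_pos (show t ∈ {t | ∃ r, p r ∧ t ∈ Irr r} from ⟨r, hp, hr⟩)]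
    · intro r' hr'
      rw [if_neg]
      rintro ⟨_, h2⟩
      exact hr' (TN2a_Irr_height h2 hr)
  · have h2 : ∀ r, (if p r ∧ t ∈ Irr r then wE t * Φ t else 0) = 0 := fun r =>
      if_neg fun h => ht ⟨r, h⟩
    rw [tsum_congr h2, tsum_zero]
    exact zero_le

private lemma TN2a_cover (A : Set (List Bool)) (B : ℕ → Set (List Bool)) (Φ : List Bool → ℝ≥0∞)
    (h : ∀ t ∈ A, ∃ l, t ∈ B l) : Rec8.sw A Φ ≤ ∑' l, Rec8.sw (B l) Φ := by
  classical
  have h1 : ∀ l, Rec8.sw (B l) Φ = ∑' t : List Bool, (if t ∈ B l then wE t * Φ t else 0) := fun l =>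
    Rec8.sw_ind (B l) Φ
  rw [tsum_congr h1, ENNReal.tsum_comm, Rec8.sw_ind]
  refine ENNReal.tsum_le_tsum fun t => ?_
  by_cases ht : t ∈ A
  · obtain ⟨l, hl⟩ := h t ht
    rw [if_pos ht]
    refine le_trans (le_of_eq ?_) (ENNReal.le_tsum l)
    rw [if_pos hl]
  · rw [if_neg ht]
    exact zero_le

private lemma TN2a_block {j r : ℕ} (h : 2 ^ (j - 1) < r) : ∃ l, j - 1 ≤ l ∧ Fld.Bl l r := by
  have hr : r ≠ 0 := by
    have : 0 < 2 ^ (j - 1) := pow_pos (by norm_num) _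
    omega
  refine ⟨Nat.log 2 r, ?_, Nat.lt_pow_succ_log_self (by norm_num) r, Or.inl (Nat.pow_log_le_self 2 hr)⟩
  exact (Nat.le_log_iff_pow_le (by norm_num) hr).2 h.le

/-- pieces higher than 2^(j-1): they lie in the blocks l ≥ j - 1; (TEF) and TT_sum -/
theorem mass_ge (h : Inp C δ) : ∃ K : ℝ, 1 ≤ K ∧ ∀ D a b j : ℕ, b ≤ a → 2 ^ (a + 3) ≤ D →
    (∑' r : ℕ, (if 2 ^ (j - 1) < r then Rec8.sw (Irr r) (fun I => EE D b a I) else 0)) ≤
      ENNReal.ofReal (K * TT (kap0 / 8) δ j a b) := by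
  obtain ⟨K, hK1, hK⟩ := TT_sum (θ := kap0 / 8) (δ := δ) (by linarith [kap0_pos]) (by linarith [kap0_pos]) h.pos.le
  refine ⟨C * K, ?_, ?_⟩
  · have := h.one_le
    nlinarith
  · intro D a b j hba hD
    classical
    have hC0 : 0 ≤ C := by linarith [h.one_le]
    refine (TN2a_sum_Irr (fun r => 2 ^ (j - 1) < r) (fun I => EE D b a I)).trans ?_
    refine (TN2a_cover _ (fun l => if j - 1 ≤ l then IrrB l else ∅) _ ?_).trans ?_
    · rintro t ⟨r, hr, ht⟩
      obtain ⟨l, hl, hb⟩ := TN2a_block hr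
      refine ⟨l, ?_⟩
      rw [if_pos hl]
      exact ⟨r, hb, ht⟩
    · refine ENNReal.tsum_le_of_sum_range_le fun L => ?_
      have h1 : ∑ l ∈ range L, Rec8.sw (if j - 1 ≤ l then IrrB l else ∅) (fun I => EE D b a I) ≤
          ∑ l ∈ Ico (j - 1) L, ENNReal.ofReal (C * TT (kap0 / 8) δ l a b) := by
        rw [← Finset.sum_filter_add_sum_filter_not (range L) (fun l => j - 1 ≤ l)]
        have h2 : ∑ l ∈ (range L).filter (fun l => ¬ j - 1 ≤ l),
            Rec8.sw (if j - 1 ≤ l then IrrB l else ∅) (fun I => EE D b a I) = 0 := by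
          refine Finset.sum_eq_zero fun l hl => ?_
          rw [if_neg (Finset.mem_filter.1 hl).2]
          unfold Rec8.sw
          simp
        rw [h2, add_zero]
        have h3 : (range L).filter (fun l => j - 1 ≤ l) = Ico (j - 1) L := by
          ext l
          rw [Finset.mem_filter, Finset.mem_range, Finset.mem_Ico]
          exact and_comm
        rw [h3]
        refine Finset.sum_le_sum fun l hl => ?_
        rw [if_pos (Finset.mem_Ico.1 hl).1]
        exact h.tef D a b l hba hD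
      refine h1.trans ?_
      rw [← ENNReal.ofReal_sum_of_nonneg (fun l _ => mul_nonneg hC0 (TT_nonneg _ _ _ _ _)), ← Finset.mul_sum]
      apply ENNReal.ofReal_le_ofReal
      rw [mul_assoc]
      exact mul_le_mul_of_nonneg_left (hK j a b L) hC0

/-- the averaged sum next to a part of the block a0: pieces higher than 2^(j-1) by mass_ge; smaller pieces only occur
if j ≤ a0 + 1, then (CU) and avg_mass -/
theorem pm_EE (h : Inp C δ) : ∃ K : ℝ, 1 ≤ K ∧ ∀ D a b j a0 : ℕ, b ≤ a → 2 ^ (a + 3) ≤ D →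
    pm j a0 (fun I => EE D b a I) ≤
      ENNReal.ofReal (K * (TT (kap0 / 8) δ j a b + if j ≤ a0 + 1 then Ub a / Ub j else 0)) := by
  obtain ⟨K1, hK1, hm⟩ := mass_ge h
  obtain ⟨K2, hK2, ha⟩ := avg_mass
  have hC1 := h.one_le
  refine ⟨K1 + C * K2, by nlinarith, ?_⟩
  intro D a b j a0 hba hD
  classical
  have hUa := Ub_pos a
  have hUj := Ub_pos j
  have hT := TT_nonneg (kap0 / 8) δ j a b
  have h1 : ∀ r : ℕ, Rec8.mb j a0 r * Rec8.sw (Irr r) (fun I => EE D b a I) ≤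
      (if 2 ^ (j - 1) < r then Rec8.sw (Irr r) (fun I => EE D b a I) else 0) +
      (if j ≤ a0 + 1 then ENNReal.ofReal (C * Ub a) else 0) * (min 1 ((r : ℝ≥0∞) / 2 ^ j) * kap' r) := by
    intro r
    by_cases hr : 2 ^ (j - 1) < r
    · rw [if_pos hr]
      refine le_trans ?_ le_self_add
      have h2 : Rec8.mb j a0 r ≤ 1 := by
        unfold Rec8.mb
        split_ifs
        · exact zero_le
        · exact min_le_left _ _
      calc Rec8.mb j a0 r * Rec8.sw (Irr r) (fun I => EE D b a I)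
          ≤ 1 * Rec8.sw (Irr r) (fun I => EE D b a I) := mul_le_mul_left h2 _
        _ = _ := one_mul _
    · rw [if_neg hr, zero_add]
      by_cases hj : j ≤ a0 + 1
      · rw [if_pos hj]
        have h2 : Rec8.mb j a0 r = min 1 ((r : ℝ≥0∞) / 2 ^ j) := by
          unfold Rec8.mb
          rw [if_neg]
          rintro ⟨h3, _⟩
          omega
        have h3 : Rec8.sw (Irr r) (fun I => EE D b a I) ≤ ENNReal.ofReal (C * Ub a) * kap' r := by
          calc Rec8.sw (Irr r) (fun I => EE D b a I)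
              ≤ Rec8.sw (Irr r) (fun _ => ENNReal.ofReal (C * Ub a) * 1) :=
                Rec8.sw_mono' fun I _ => by
                  rw [mul_one]
                  exact h.cu D a b hba hD I
            _ = ENNReal.ofReal (C * Ub a) * kap' r := by
                rw [Rec8.sw_mul_left, Rec8.sw_one]
                rfl
        rw [h2]
        calc min 1 ((r : ℝ≥0∞) / 2 ^ j) * Rec8.sw (Irr r) (fun I => EE D b a I)
            ≤ min 1 ((r : ℝ≥0∞) / 2 ^ j) * (ENNReal.ofReal (C * Ub a) * kap' r) := mul_le_mul_right h3 _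
          _ = _ := by ring
      · have h2 : Rec8.mb j a0 r = 0 := by
          unfold Rec8.mb
          rw [if_pos ⟨by omega, by omega⟩]
        rw [h2, zero_mul]
        exact zero_le
  unfold pm
  refine (ENNReal.tsum_le_tsum h1).trans ?_
  rw [ENNReal.tsum_add, ENNReal.tsum_mul_left]
  have h4 := hm D a b j hba hD
  have h5 := ha j
  by_cases hj : j ≤ a0 + 1
  · rw [if_pos hj, if_pos hj]
    refine (add_le_add h4 (mul_le_mul_right h5 _)).trans ?_
    rw [← ENNReal.ofReal_mul (by positivity), ← ENNReal.ofReal_add (by positivity) (by positivity)]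
    apply ENNReal.ofReal_le_ofReal
    have e1 : C * Ub a * (K2 / Ub j) = C * K2 * (Ub a / Ub j) := by ring
    rw [e1]
    have h6 : 0 ≤ Ub a / Ub j := by positivity
    have h7 : 0 ≤ C * K2 := by positivity
    nlinarith
  · rw [if_neg hj, if_neg hj, zero_mul, add_zero, add_zero]
    refine h4.trans ?_
    apply ENNReal.ofReal_le_ofReal
    apply mul_le_mul_of_nonneg_right _ hT
    have h7 : 0 ≤ C * K2 := by positivity
    linarith

/-! ### module TN2b -/

private lemma TN2b_le_mul (A B : Set (List Bool)) (R : List Bool → List Bool → Prop) : g2 A B R ≤ gf A * gf B := by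
  rw [g2_left]
  calc ∑' s : {s : List Bool // s ∈ A}, wE s.1 * gf {t | t ∈ B ∧ R s.1 t}
      ≤ ∑' s : {s : List Bool // s ∈ A}, wE s.1 * gf B :=
        ENNReal.tsum_le_tsum fun s => mul_le_mul' le_rfl (gf_mono fun t ht => ht.1)
    _ = gf A * gf B := ENNReal.tsum_mul_right

private lemma TN2b_g2_ne_top (a b : ℕ) (R : List Bool → List Bool → Prop) : g2 (Fld.BrB b) (Fld.BrB a) R ≠ ⊤ :=
  ne_top_of_le_ne_top (ENNReal.mul_ne_top (gf_BrB_ne_top b) (gf_BrB_ne_top a)) (TN2b_le_mul _ _ _)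

theorem EE_ne_top (D b a : ℕ) (I : List Bool) : EE D b a I ≠ ⊤ := TN2b_g2_ne_top a b _

private def TN2b_revE : List Bool ≃ List Bool := ⟨rev, rev, rev_rev, rev_rev⟩

/-- rev is a weight preserving bijection of Irr r -/
theorem sw_Irr_rev (r : ℕ) (Φ : List Bool → ℝ≥0∞) :
    Rec8.sw (Irr r) (fun I => Φ (rev I)) = Rec8.sw (Irr r) Φ := by
  classical
  rw [Rec8.sw_ind, Rec8.sw_ind, ← TN2b_revE.tsum_eq (fun t : List Bool => if t ∈ Irr r then wE t * Φ t else 0)]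
  refine tsum_congr fun t => ?_
  show (if t ∈ Irr r then wE t * Φ (rev t) else 0) = if rev t ∈ Irr r then wE (rev t) * Φ (rev t) else 0
  by_cases h : t ∈ Irr r
  · rw [if_pos h, if_pos (Irr_rev h), wE_rev]
  · rw [if_neg h, if_neg]
    intro h2
    apply h
    have h3 := Irr_rev h2
    rwa [rev_rev] at h3

theorem pm_rev (j a : ℕ) (Φ : List Bool → ℝ≥0∞) : pm j a (fun I => Φ (rev I)) = pm j a Φ := by
  unfold pm
  exact tsum_congr fun r => by rw [sw_Irr_rev]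

theorem pm_mono {j a : ℕ} {Φ Ψ : List Bool → ℝ≥0∞} (h : ∀ I, Φ I ≤ Ψ I) : pm j a Φ ≤ pm j a Ψ := by
  unfold pm
  exact ENNReal.tsum_le_tsum fun r => mul_le_mul' le_rfl (Rec8.sw_mono' fun t _ => h t)

/-- mb is increasing in the block -/
theorem mb_mono {j a a' : ℕ} (h : a ≤ a') (r : ℕ) : Rec8.mb j a r ≤ Rec8.mb j a' r := by
  unfold Rec8.mb
  by_cases h1 : a' + 2 ≤ j ∧ r ≤ 2 ^ (j - 1)
  · have h2 : a + 2 ≤ j ∧ r ≤ 2 ^ (j - 1) := ⟨by omega, h1.2⟩
    rw [if_pos h1, if_pos h2]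
  · rw [if_neg h1]
    split_ifs
    · exact zero_le
    · exact le_rfl

private lemma TN2b_mb_le (j a r : ℕ) : Rec8.mb j a r ≤ min 1 ((r : ℝ≥0∞) / 2 ^ j) := by
  unfold Rec8.mb
  split_ifs
  · exact zero_le
  · exact le_rfl

/-- mass of the averaged pieces (avg_mass) -/
theorem pm_one : ∃ K : ℝ, 1 ≤ K ∧ ∀ (j a : ℕ) (c : ℝ≥0∞), pm j a (fun _ => c) ≤ ENNReal.ofReal (K / Ub j) * c := by
  obtain ⟨K, hK, h⟩ := avg_mass
  refine ⟨K, hK, fun j a c => ?_⟩
  calc pm j a (fun _ => c) ≤ ∑' r : ℕ, min 1 ((r : ℝ≥0∞) / 2 ^ j) * kap' r * c := by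
        unfold pm
        refine ENNReal.tsum_le_tsum fun r => ?_
        have h1 : Rec8.sw (Irr r) (fun _ => c) = kap' r * c := by
          have h2 := Rec8.sw_mul_right (Irr r) c (fun _ => 1)
          rw [Rec8.sw_one] at h2
          simp only [one_mul] at h2
          exact h2
        rw [h1, mul_assoc]
        exact mul_le_mul' (TN2b_mb_le j a r) le_rfl
    _ = (∑' r : ℕ, min 1 ((r : ℝ≥0∞) / 2 ^ j) * kap' r) * c := ENNReal.tsum_mul_right
    _ ≤ ENNReal.ofReal (K / Ub j) * c := mul_le_mul' (h j) le_rfl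

/-- reversal of the first word -/
private lemma TN2b_g2_rev {A B A' B' : Set (List Bool)} {R R' : List Bool → List Bool → Prop}
    (h : ∀ X Y, X ∈ A → Y ∈ B → R X Y → rev X ∈ A' ∧ Y ∈ B' ∧ R' (rev X) Y) : g2 A B R ≤ g2 A' B' R' := by
  classical
  rw [g2_ind, g2_ind]
  conv_rhs => rw [← TN2b_revE.tsum_eq]
  refine ENNReal.tsum_le_tsum fun s => ENNReal.tsum_le_tsum fun t => ?_
  by_cases hst : s ∈ A ∧ t ∈ B ∧ R s t
  · have h1 : TN2b_revE s ∈ A' ∧ t ∈ B' ∧ R' (TN2b_revE s) t := h s t hst.1 hst.2.1 hst.2.2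
    rw [if_pos hst, if_pos h1]
    show wE s * wE t ≤ wE (rev s) * wE t
    rw [wE_rev]
  · rw [if_neg hst]
    exact zero_le

/-- exchange of the words -/
private lemma TN2b_g2_swap (A B : Set (List Bool)) (R : List Bool → List Bool → Prop) :
    g2 A B R = g2 B A (fun s t => R t s) := by
  classical
  rw [g2_ind, g2_ind, ENNReal.tsum_comm]
  refine tsum_congr fun s => tsum_congr fun t => ?_
  by_cases h : t ∈ A ∧ s ∈ B ∧ R t s
  · rw [if_pos h, if_pos ⟨h.2.1, h.1, h.2.2⟩, mul_comm]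
  · rw [if_neg h, if_neg (fun h2 => h ⟨h2.2.1, h2.1, h2.2.2⟩)]

private lemma TN2b_BrB_rev {b : ℕ} {t : List Bool} (h : t ∈ Fld.BrB b) : rev t ∈ Fld.BrB b := by
  obtain ⟨m, h1, h2⟩ := h
  exact ⟨m, h1, Brd_rev h2⟩

private lemma TN2b_rev3 (Z I M : List Bool) : rev (Z ++ (I ++ M)) = rev M ++ (rev I ++ rev Z) := by
  rw [rev_append, rev_append, List.append_assoc]

/-- the kernel against the gain of the giant I of the first leaf: X = rev M, Y = N -/
theorem KT_le_left (D b : ℕ) (I : List Bool) (a : ℕ) (P : List Bool) : KT D b I a P ≤ EE D b a (rev I) := by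
  unfold KT EE
  refine TN2b_g2_rev fun M N hM hN h => ⟨TN2b_BrB_rev hM, hN, ?_⟩
  obtain ⟨z, i, m, n, p, y, Z, Y, hZ, hI, hM', hN', hP, hY, h1, h2, h3⟩ := h
  refine ⟨m, n, i + z, p + y, rev Z, P ++ Y, Brd_rev hM', hN', Brd_append (Brd_rev hI) (Brd_rev hZ),
    Brd_append hP hY, by omega, by omega, ?_⟩
  unfold Nb at h3
  rw [TN2b_rev3] at h3
  exact h3

/-- the kernel against the gain of the giant P of the second leaf: X = N, Y = rev M -/
theorem KT_le_right (D b : ℕ) (I : List Bool) (a : ℕ) (P : List Bool) : KT D b I a P ≤ EE D a b P := by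
  unfold KT EE
  rw [TN2b_g2_swap (Fld.BrB a)]
  refine TN2b_g2_rev fun M N hM hN h => ⟨TN2b_BrB_rev hM, hN, ?_⟩
  obtain ⟨z, i, m, n, p, y, Z, Y, hZ, hI, hM', hN', hP, hY, h1, h2, h3⟩ := h
  refine ⟨n, m, p + y, i + z, Y, rev I ++ rev Z, hN', Brd_rev hM', Brd_append hP hY,
    Brd_append (Brd_rev hI) (Brd_rev hZ), by omega, by omega, ?_⟩
  unfold Nb at h3
  rw [TN2b_rev3] at h3
  exact h3.symm

private lemma TN2b_wE_two (b c : Bool) (t : List Bool) : wE (b :: c :: t) = ENNReal.ofReal (xc ^ 2) * wE t := by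
  have h := wE_append [b, c] t
  have e : wE [b, c] = ENNReal.ofReal (xc ^ 2) := rfl
  rw [e] at h
  exact h

private lemma TN2b_four_xc : (1 : ℝ≥0∞) ≤ 4 * ENNReal.ofReal (xc ^ 2) := by
  have h1 : (1 : ℝ) ≤ 4 * xc ^ 2 := by
    rw [xc_sq]
    have h2 : Real.sqrt 2 ≤ 2 := by
      rw [Real.sqrt_le_left (by norm_num)]
      norm_num
    have h3 : 0 < 2 + Real.sqrt 2 := by positivity
    rw [← mul_div_assoc, le_div_iff₀ h3]
    linarith
  have h4 : (4 : ℝ≥0∞) = ENNReal.ofReal 4 := by norm_num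
  rw [h4, ← ENNReal.ofReal_mul (by norm_num), ← ENNReal.ofReal_one]
  exact ENNReal.ofReal_le_ofReal h1

private lemma TN2b_Bl_succ {a n : ℕ} (h : Fld.Bl a n) : Fld.Bl a (n + 1) ∨ Fld.Bl (a + 1) (n + 1) := by
  obtain ⟨h1, h2⟩ := h
  by_cases h3 : n + 1 < 2 ^ (a + 1)
  · left
    refine ⟨h3, ?_⟩
    rcases h2 with h2 | h2
    · left
      omega
    · exact Or.inr h2
  · right
    refine ⟨?_, Or.inl (by omega)⟩
    have h4 : 2 ^ (a + 1 + 1) = 2 * 2 ^ (a + 1) := by rw [pow_succ']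
    omega

/-- one letter pair -/
private lemma TN2b_KP_one (D b : ℕ) (I : List Bool) (a : ℕ) (P : List Bool) (c : Bool) :
    g2 (Fld.BrB b) (Fld.BrB a) (fun M N => KRel D I P M ((!c) :: c :: N)) ≤
      4 * (KT D b I a P + KT D b I (a + 1) P) := by
  classical
  unfold KT
  rw [g2_ind, g2_ind, g2_ind, ← ENNReal.tsum_add, ← ENNReal.tsum_mul_left]
  refine ENNReal.tsum_le_tsum fun M => ?_
  rw [← ENNReal.tsum_add, ← ENNReal.tsum_mul_left]
  have hinj : Function.Injective (fun N : List Bool => (!c) :: c :: N) := by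
    intro x y hxy
    have h1 := List.cons.inj hxy
    exact (List.cons.inj h1.2).2
  refine le_trans ?_ (ENNReal.tsum_comp_le_tsum_of_injective hinj (fun N : List Bool =>
    4 * ((if M ∈ Fld.BrB b ∧ N ∈ Fld.BrB a ∧ KRel D I P M N then wE M * wE N else 0) +
      if M ∈ Fld.BrB b ∧ N ∈ Fld.BrB (a + 1) ∧ KRel D I P M N then wE M * wE N else 0)))
  refine ENNReal.tsum_le_tsum fun N => ?_
  by_cases h : M ∈ Fld.BrB b ∧ N ∈ Fld.BrB a ∧ KRel D I P M ((!c) :: c :: N)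
  · rw [if_pos h]
    obtain ⟨hM, ⟨n, hn, hN⟩, hR⟩ := h
    have hw : wE M * wE N ≤ 4 * (wE M * wE ((!c) :: c :: N)) := by
      rw [TN2b_wE_two]
      calc wE M * wE N = 1 * (wE M * wE N) := (one_mul _).symm
        _ ≤ (4 * ENNReal.ofReal (xc ^ 2)) * (wE M * wE N) := mul_le_mul' TN2b_four_xc le_rfl
        _ = 4 * (wE M * (ENNReal.ofReal (xc ^ 2) * wE N)) := by ring
    have hN2 := Brd_step (b := c) hN
    rcases TN2b_Bl_succ hn with h1 | h1
    · have h2 : M ∈ Fld.BrB b ∧ ((!c) :: c :: N) ∈ Fld.BrB a ∧ KRel D I P M ((!c) :: c :: N) :=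
        ⟨hM, ⟨n + 1, h1, hN2⟩, hR⟩
      refine hw.trans ?_
      show _ ≤ 4 * ((if M ∈ Fld.BrB b ∧ ((!c) :: c :: N) ∈ Fld.BrB a ∧ KRel D I P M ((!c) :: c :: N) then
        wE M * wE ((!c) :: c :: N) else 0) + _)
      rw [if_pos h2]
      exact mul_le_mul' le_rfl le_self_add
    · have h2 : M ∈ Fld.BrB b ∧ ((!c) :: c :: N) ∈ Fld.BrB (a + 1) ∧ KRel D I P M ((!c) :: c :: N) :=
        ⟨hM, ⟨n + 1, h1, hN2⟩, hR⟩
      refine hw.trans ?_
      show _ ≤ 4 * (_ + if M ∈ Fld.BrB b ∧ ((!c) :: c :: N) ∈ Fld.BrB (a + 1) ∧ KRel D I P M ((!c) :: c :: N) then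
        wE M * wE ((!c) :: c :: N) else 0)
      rw [if_pos h2]
      exact mul_le_mul' le_rfl le_add_self
  · rw [if_neg h]
    exact zero_le

/-- the two prefixed letters: (!c) :: c :: N is a bridge, one row higher; factor 2 xc^(-2) < 8 -/
theorem KP_le (D b : ℕ) (I : List Bool) (a : ℕ) (P : List Bool) :
    KP D b I a P ≤ 8 * (KT D b I a P + KT D b I (a + 1) P) := by
  classical
  have h1 : KP D b I a P ≤ g2 (Fld.BrB b) (Fld.BrB a) (fun M N => KRel D I P M ((!true) :: true :: N)) +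
      g2 (Fld.BrB b) (Fld.BrB a) (fun M N => KRel D I P M ((!false) :: false :: N)) := by
    unfold KP
    rw [g2_ind, g2_ind, g2_ind, ← ENNReal.tsum_add]
    refine ENNReal.tsum_le_tsum fun M => ?_
    rw [← ENNReal.tsum_add]
    refine ENNReal.tsum_le_tsum fun N => ?_
    by_cases h : M ∈ Fld.BrB b ∧ N ∈ Fld.BrB a ∧ ∃ c : Bool, KRel D I P M ((!c) :: c :: N)
    · rw [if_pos h]
      obtain ⟨hM, hN, c, hc⟩ := h
      cases c
      · rw [if_pos (⟨hM, hN, hc⟩ : M ∈ Fld.BrB b ∧ N ∈ Fld.BrB a ∧ KRel D I P M ((!false) :: false :: N))]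
        exact le_add_self
      · rw [if_pos (⟨hM, hN, hc⟩ : M ∈ Fld.BrB b ∧ N ∈ Fld.BrB a ∧ KRel D I P M ((!true) :: true :: N))]
        exact le_self_add
    · rw [if_neg h]
      exact zero_le
  refine h1.trans ((add_le_add (TN2b_KP_one D b I a P true) (TN2b_KP_one D b I a P false)).trans ?_)
  rw [← add_mul]
  have h2 : (4 : ℝ≥0∞) + 4 = 8 := by norm_num
  rw [h2]

theorem Sw_pos (D k b : ℕ) (I : List Bool) : Sw D k b I ≠ 0 := by
  unfold Sw
  have h1 : 0 < ENNReal.ofReal ((2 : ℝ) ^ (kap0 / 4 * ((k : ℝ) - b)) * Ub b) :=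
    ENNReal.ofReal_pos.2 (mul_pos (Real.rpow_pos_of_pos (by norm_num) _) (Ub_pos b))
  exact (lt_of_lt_of_le h1 le_self_add).ne'

theorem Sw_ne_top (D k b : ℕ) (I : List Bool) : Sw D k b I ≠ ⊤ := by
  unfold Sw
  refine ENNReal.add_ne_top.2 ⟨ENNReal.ofReal_ne_top, ?_⟩
  rw [ENNReal.sum_ne_top]
  intro a _
  exact ENNReal.mul_ne_top ENNReal.ofReal_ne_top (EE_ne_top D b a (rev I))

end TS

end HexObs
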