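import Pool.Agent.TightN.SX
import Pool.Agent.TightS.SBasic
import Pool.Agent.PHW.HangA

/-!
TIGHT, part S2, module TN7: the operators in the norm. R is the relation of two consecutive leaves.
-/

set_option autoImplicit false

namespace HexObs

open Finset

open scoped ENNReal

open Rec8 (sw mb)

namespace TS

variable {C δ : ℝ}

private lemma TN7a_step {n : ℕ} {X : List Bool} (hX : X ∈ Brd n) (c : Bool) : (!c) :: c :: X ∈ Brd (n + 1) := by
  have h := Brd_append (step_mem_Brd c) hX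
  rw [add_comm] at h
  exact h

private lemma TN7a_sw_tsum {ι : Type} (A : Set (List Bool)) (Φ : ι → List Bool → ℝ≥0∞) :
    sw A (fun t => ∑' i, Φ i t) = ∑' i, sw A (Φ i) := by
  unfold Rec8.sw
  simp only [← ENNReal.tsum_mul_left]
  exact ENNReal.tsum_comm

/-- every number below 2 ^ (j + 1) lies in a block a ≤ j -/
private lemma TN7a_block {j n : ℕ} (h : n < 2 ^ (j + 1)) : ∃ a ∈ range (j + 1), Fld.Bl a n := by
  by_cases h0 : n = 0
  · subst h0
    exact ⟨0, by rw [mem_range]; omega, by norm_num, Or.inr rfl⟩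
  · refine ⟨Nat.log 2 n, ?_, Nat.lt_pow_succ_log_self (by norm_num) n, Or.inl (Nat.pow_log_le_self 2 h0)⟩
    rw [mem_range]
    exact Nat.log_lt_of_lt_pow h0 h

/-- from heights to blocks -/
private lemma TN7a_blk (j : ℕ) (w m : ℕ → ℝ≥0∞) (hw : ∀ a n, Fld.Bl a n → w n ≤ m a)
    (hw0 : ∀ n, 2 ^ (j + 1) ≤ n → w n = 0) (Φ : List Bool → ℝ≥0∞) :
    ∑' n : ℕ, w n * sw (Brd n) Φ ≤ ∑ a ∈ range (j + 1), m a * sw (Fld.BrB a) Φ := by
  classical
  have e1 : ∑' n : ℕ, w n * sw (Brd n) Φ = ∑' t : List Bool, ∑' n : ℕ, w n * (if t ∈ Brd n then wE t * Φ t else 0) := by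
    rw [ENNReal.tsum_comm]
    refine tsum_congr fun n => ?_
    rw [Rec8.sw_ind, ← ENNReal.tsum_mul_left]
  have e2 : ∑ a ∈ range (j + 1), m a * sw (Fld.BrB a) Φ =
      ∑' t : List Bool, ∑ a ∈ range (j + 1), m a * (if t ∈ Fld.BrB a then wE t * Φ t else 0) := by
    rw [Summable.tsum_finsetSum (fun _ _ => ENNReal.summable)]
    refine Finset.sum_congr rfl fun a _ => ?_
    rw [Rec8.sw_ind, ← ENNReal.tsum_mul_left]
  rw [e1, e2]
  refine ENNReal.tsum_le_tsum fun t => ?_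
  by_cases ht : ∃ n, t ∈ Brd n
  · obtain ⟨n, hn⟩ := ht
    rw [tsum_eq_single n (fun n' hn' => by
      rw [if_neg, mul_zero]
      intro h
      exact hn' ((hgt_eq h).symm.trans (hgt_eq hn))), if_pos hn]
    by_cases h2 : n < 2 ^ (j + 1)
    · obtain ⟨a, ha, hb⟩ := TN7a_block h2
      refine le_trans ?_ (Finset.single_le_sum (f := fun a => m a * (if t ∈ Fld.BrB a then wE t * Φ t else 0))
        (fun _ _ => zero_le) ha)
      have h3 : t ∈ Fld.BrB a := ⟨n, hb, hn⟩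
      change w n * (wE t * Φ t) ≤ m a * (if t ∈ Fld.BrB a then wE t * Φ t else 0)
      rw [if_pos h3]
      exact mul_le_mul_left (hw a n hb) _
    · rw [hw0 n (not_lt.1 h2), zero_mul]
      exact zero_le
  · have h3 : ∑' n : ℕ, w n * (if t ∈ Brd n then wE t * Φ t else 0) = 0 := by
      rw [ENNReal.tsum_eq_zero]
      intro n
      rw [if_neg (fun h => ht ⟨n, h⟩), mul_zero]
    rw [h3]
    exact zero_le

/-- the relation of the leaves gives the relation of the kernel -/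
theorem R_KRel {R : List Bool → List Bool → Prop} (hR : ∀ g g', R g g' → ∃ c : Bool, Nb g ((!c) :: c :: g'))
    {D z i m n p y : ℕ} {Z I M X P Y : List Bool} (hZ : Z ∈ Brd z) (hI : I ∈ Brd i) (hM : M ∈ Brd m) (hX : X ∈ Brd n)
    (hP : P ∈ Brd p) (hY : Y ∈ Brd y) (h1 : Z ++ (I ++ M) ∈ HB D) (h2 : X ++ (P ++ Y) ∈ HB D)
    (h : R (Z ++ (I ++ M)) (X ++ (P ++ Y))) : ∃ c : Bool, KRel D I P M ((!c) :: c :: X) := by
  obtain ⟨c, hc⟩ := hR _ _ h
  refine ⟨c, z, i, m, n + 1, p, y, Z, Y, hZ, hI, hM, TN7a_step hX c, hP, hY, ?_, ?_, hc⟩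
  · obtain ⟨t, ht1, ht2⟩ := h1
    have e1 := hgt_eq ht2
    have e2 := hgt_eq (Brd_append hZ (Brd_append hI hM))
    omega
  · obtain ⟨t, ht1, ht2⟩ := h2
    have e1 := hgt_eq ht2
    have e2 := hgt_eq (Brd_append hX (Brd_append hP hY))
    omega

/-- the first fold of a leaf, for every weight w (n, r) bounded by m (block of n, r), m increasing in the block, and
every functional Θ of the piece over the level: sum over the heights n by blocks, KP_eq, KP_le -/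
theorem fold_sum (D b j : ℕ) (I : List Bool) (w m : ℕ → ℕ → ℝ≥0∞) (hw : ∀ a n r, Fld.Bl a n → w n r ≤ m a r)
    (hw0 : ∀ n r, 2 ^ (j + 1) ≤ n → w n r = 0) (hm : ∀ a r, m a r ≤ m (a + 1) r) (Θ : ℕ → List Bool → ℝ≥0∞) :
    sw (Fld.BrB b) (fun M => ∑' n : ℕ, ∑' r : ℕ, w n r * sw (Brd n) (fun X =>
      sw {P | P ∈ Irr r ∧ ∃ c : Bool, KRel D I P M ((!c) :: c :: X)} (fun P => Θ r P))) ≤
    16 * ∑ a ∈ range (j + 2), ∑' r : ℕ, m a r * sw (Irr r) (fun P => KT D b I a P * Θ r P) := by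
  classical
  have hone : ∀ (r n : ℕ) (M : List Bool), sw (Brd n) (fun X =>
      sw {P | P ∈ Irr r ∧ ∃ c : Bool, KRel D I P M ((!c) :: c :: X)} (fun P => Θ r P)) =
      sw (Irr r) (fun P => Θ r P * sw (Brd n) (fun X =>
        if ∃ c : Bool, KRel D I P M ((!c) :: c :: X) then 1 else 0)) := by
    intro r n M
    have e1 : ∀ X : List Bool, sw {P | P ∈ Irr r ∧ ∃ c : Bool, KRel D I P M ((!c) :: c :: X)} (fun P => Θ r P) =
        sw (Irr r) (fun P => Θ r P * (if ∃ c : Bool, KRel D I P M ((!c) :: c :: X) then 1 else 0)) := by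
      intro X
      rw [Rec8.sw_and]
      refine Rec8.sw_congr fun P _ => ?_
      by_cases h : ∃ c : Bool, KRel D I P M ((!c) :: c :: X)
      · rw [if_pos h, if_pos h, mul_one]
      · rw [if_neg h, if_neg h, mul_zero]
    simp only [e1]
    rw [Rec8.sw_comm]
    refine Rec8.sw_congr fun P _ => ?_
    exact Rec8.sw_mul_left _ _ _
  have hM : ∀ M : List Bool, (∑' n : ℕ, ∑' r : ℕ, w n r * sw (Brd n) (fun X =>
      sw {P | P ∈ Irr r ∧ ∃ c : Bool, KRel D I P M ((!c) :: c :: X)} (fun P => Θ r P))) ≤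
      ∑' r : ℕ, sw (Irr r) (fun P => Θ r P * ∑ a ∈ range (j + 1), m a r * sw (Fld.BrB a) (fun X =>
        if ∃ c : Bool, KRel D I P M ((!c) :: c :: X) then 1 else 0)) := by
    intro M
    rw [ENNReal.tsum_comm]
    refine ENNReal.tsum_le_tsum fun r => ?_
    have e2 : ∑' n : ℕ, w n r * sw (Brd n) (fun X =>
        sw {P | P ∈ Irr r ∧ ∃ c : Bool, KRel D I P M ((!c) :: c :: X)} (fun P => Θ r P)) =
        sw (Irr r) (fun P => Θ r P * ∑' n : ℕ, w n r * sw (Brd n) (fun X =>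
          if ∃ c : Bool, KRel D I P M ((!c) :: c :: X) then 1 else 0)) := by
      have e3 : ∀ P : List Bool, Θ r P * ∑' n : ℕ, w n r * sw (Brd n) (fun X =>
          if ∃ c : Bool, KRel D I P M ((!c) :: c :: X) then 1 else 0) =
          ∑' n : ℕ, w n r * (Θ r P * sw (Brd n) (fun X =>
          if ∃ c : Bool, KRel D I P M ((!c) :: c :: X) then 1 else 0)) := by
        intro P
        rw [← ENNReal.tsum_mul_left]
        refine tsum_congr fun n => ?_
        ring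
      simp only [e3]
      rw [TN7a_sw_tsum]
      refine tsum_congr fun n => ?_
      rw [Rec8.sw_mul_left, hone]
    rw [e2]
    refine Rec8.sw_mono' fun P _ => ?_
    exact mul_le_mul_right (TN7a_blk j (fun n => w n r) (fun a => m a r) (fun a n h => hw a n r h)
      (fun n h => hw0 n r h) _) _
  refine (Rec8.sw_mono' fun M _ => hM M).trans ?_
  rw [TN7a_sw_tsum]
  have hr : ∀ r : ℕ, sw (Fld.BrB b) (fun M => sw (Irr r) (fun P => Θ r P * ∑ a ∈ range (j + 1),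
      m a r * sw (Fld.BrB a) (fun X => if ∃ c : Bool, KRel D I P M ((!c) :: c :: X) then 1 else 0))) ≤
      16 * ∑ a ∈ range (j + 2), m a r * sw (Irr r) (fun P => KT D b I a P * Θ r P) := by
    intro r
    rw [Rec8.sw_comm]
    have e4 : ∀ P : List Bool, sw (Fld.BrB b) (fun M => Θ r P * ∑ a ∈ range (j + 1),
        m a r * sw (Fld.BrB a) (fun X => if ∃ c : Bool, KRel D I P M ((!c) :: c :: X) then 1 else 0)) =
        Θ r P * ∑ a ∈ range (j + 1), m a r * KP D b I a P := by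
      intro P
      rw [Rec8.sw_mul_left, Rec8.sw_sum]
      congr 1
      refine Finset.sum_congr rfl fun a _ => ?_
      rw [Rec8.sw_mul_left]
      congr 1
      unfold KP
      rw [Rec8.g2_eq_sw]
      refine Rec8.sw_congr fun M _ => Rec8.sw_congr fun X _ => ?_
      by_cases h : ∃ c : Bool, KRel D I P M ((!c) :: c :: X)
      · rw [if_pos h, if_pos h]
      · rw [if_neg h, if_neg h]
    simp only [e4]
    have e5 : ∀ P : List Bool, Θ r P * ∑ a ∈ range (j + 1), m a r * KP D b I a P ≤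
        ∑ a ∈ range (j + 2), 16 * (m a r * (KT D b I a P * Θ r P)) := by
      intro P
      have h1 : ∑ a ∈ range (j + 1), m a r * KP D b I a P ≤
          8 * (∑ a ∈ range (j + 2), m a r * KT D b I a P + ∑ a ∈ range (j + 2), m a r * KT D b I a P) := by
        have h2 : ∑ a ∈ range (j + 1), m a r * KP D b I a P ≤
            ∑ a ∈ range (j + 1), (8 * (m a r * KT D b I a P) + 8 * (m (a + 1) r * KT D b I (a + 1) P)) := by
          refine Finset.sum_le_sum fun a _ => ?_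
          calc m a r * KP D b I a P ≤ m a r * (8 * (KT D b I a P + KT D b I (a + 1) P)) :=
                mul_le_mul_right (KP_le D b I a P) _
            _ = 8 * (m a r * KT D b I a P) + 8 * (m a r * KT D b I (a + 1) P) := by ring
            _ ≤ 8 * (m a r * KT D b I a P) + 8 * (m (a + 1) r * KT D b I (a + 1) P) :=
                add_le_add_right (mul_le_mul_right (mul_le_mul_left (hm a r) _) _) _
        refine h2.trans ?_
        rw [Finset.sum_add_distrib, ← Finset.mul_sum, ← Finset.mul_sum, ← mul_add]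
        refine mul_le_mul_right (add_le_add ?_ ?_) _
        · exact Finset.sum_le_sum_of_subset (by
            intro a ha
            rw [mem_range] at ha ⊢
            omega)
        · rw [Finset.sum_range_succ' (fun a => m a r * KT D b I a P) (j + 1)]
          exact le_self_add
      calc Θ r P * ∑ a ∈ range (j + 1), m a r * KP D b I a P ≤ Θ r P * (8 * (∑ a ∈ range (j + 2),
            m a r * KT D b I a P + ∑ a ∈ range (j + 2), m a r * KT D b I a P)) := mul_le_mul_right h1 _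
        _ = 16 * ∑ a ∈ range (j + 2), m a r * (KT D b I a P * Θ r P) := by
          have e6 : ∑ a ∈ range (j + 2), m a r * (KT D b I a P * Θ r P) =
              (∑ a ∈ range (j + 2), m a r * KT D b I a P) * Θ r P := by
            rw [Finset.sum_mul]
            refine Finset.sum_congr rfl fun a _ => ?_
            ring
          rw [e6]
          ring
        _ = ∑ a ∈ range (j + 2), 16 * (m a r * (KT D b I a P * Θ r P)) := by
          rw [Finset.mul_sum]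
    refine (Rec8.sw_mono' fun P _ => e5 P).trans ?_
    rw [Rec8.sw_sum, Finset.mul_sum]
    refine le_of_eq (Finset.sum_congr rfl fun a _ => ?_)
    rw [Rec8.sw_mul_left, Rec8.sw_mul_left]
  refine (ENNReal.tsum_le_tsum hr).trans ?_
  rw [ENNReal.tsum_mul_left, Summable.tsum_finsetSum (fun _ _ => ENNReal.summable)]

private theorem TN7b_mb_mono (k a r : ℕ) : mb k a r ≤ mb k (a + 1) r := by
  unfold mb
  by_cases h : a + 1 + 2 ≤ k ∧ r ≤ 2 ^ (k - 1)
  · rw [if_pos (show a + 2 ≤ k ∧ r ≤ 2 ^ (k - 1) from ⟨by omega, h.2⟩)]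
    exact zero_le
  · rw [if_neg h]
    by_cases h' : a + 2 ≤ k ∧ r ≤ 2 ^ (k - 1)
    · rw [if_pos h']
      exact zero_le
    · rw [if_neg h']

/-- the bound of the next leaf behind Z ++ (I ++ M), independent of Z -/
private theorem TN7b_opA_le {D N k : ℕ} {R : List Bool → List Bool → Prop} {F : List Bool → ℝ≥0∞}
    (hR : ∀ g g', R g g' → ∃ c : Bool, Nb g ((!c) :: c :: g')) (hD : 2 ^ (k + 4) ≤ D) (Θ : ℕ → List Bool → ℝ≥0∞)
    (hΘ : ∀ n r P, n ≤ 2 ^ (k + 1) → P ∈ Irr r →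
      sw {Z | Z ∈ BU ∧ ∃ Y ∈ Brd n, Y ++ (P ++ Z) ∈ BrR D N} (fun Z => hat D F (P ++ Z)) ≤ Θ r P)
    {z i m : ℕ} {Z I M : List Bool} (hZ : Z ∈ Brd z) (hI : I ∈ Brd i) (hM : M ∈ Brd m)
    (h1 : Z ++ (I ++ M) ∈ HB D) :
    opA D N R F (Z ++ (I ++ M)) ≤ ∑' n : ℕ, ∑' r : ℕ, mu k n r * sw (Brd n) (fun X =>
      sw {P | P ∈ Irr r ∧ ∃ c : Bool, KRel D I P M ((!c) :: c :: X)} (fun P => Θ r P)) := by
  classical
  have e0 : opA D N R F (Z ++ (I ++ M)) = sw {g' | g' ∈ BrR D N ∧ R (Z ++ (I ++ M)) g'} F := rfl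
  rw [e0, Rec8.sw_and]
  refine (inR (j := k) (D := D) (N := N) ?_ _).trans ?_
  · exact (Nat.pow_le_pow_right (by norm_num) (by omega)).trans hD
  refine ENNReal.tsum_le_tsum fun n => ENNReal.tsum_le_tsum fun r => ?_
  by_cases hn : 2 ^ (k + 1) ≤ n
  · rw [mu_eq_zero hn, zero_mul, zero_mul]
  refine mul_le_mul_right (Rec8.sw_mono' fun X hX => ?_) _
  rw [Rec8.sw_and]
  refine Rec8.sw_mono' fun P hP => ?_
  have hPB : P ∈ Brd r := hP.1
  have hnn : n ≤ 2 ^ (k + 1) := (not_le.mp hn).le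
  by_cases hK : ∃ c : Bool, KRel D I P M ((!c) :: c :: X)
  · rw [if_pos hK]
    refine le_trans (Rec8.sw_mono ?_ ?_) (hΘ n r P hnn hP)
    · rintro Z' ⟨ha, hb⟩
      exact ⟨ha, X, hX, hb⟩
    · rintro Z' ⟨ha, hb⟩
      have hHB : X ++ (P ++ Z') ∈ HB D := by
        obtain ⟨h, q1, q2, q3⟩ := hb
        exact ⟨h, q1, q3⟩
      split_ifs
      · exact le_hat ⟨n, hX⟩ hHB F
      · exact zero_le
  · rw [if_neg hK]
    refine le_trans (Rec8.sw_mono' (Ψ := fun _ => 0) ?_) (le_of_eq (Rec8.sw_zero _))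
    rintro Z' ⟨⟨y, hy⟩, hb⟩
    have hHB : X ++ (P ++ Z') ∈ HB D := by
      obtain ⟨h, q1, q2, q3⟩ := hb
      exact ⟨h, q1, q3⟩
    rw [if_neg]
    intro hRR
    exact hK (R_KRel hR hZ hI hM hX hPB hy h1 hHB hRR)

/-- hat of one more leaf: for every Z the in-level decomposition inR with j = k, R_KRel, rest_le (le_hat); fold_sum
with w = mu k, m = mb k; k3 for the sum over b2, k1 with j = k for the rest -/
theorem norm_A (h : Inp C δ) : ∃ K : ℝ, 1 ≤ K ∧ ∀ (D N k : ℕ) (R : List Bool → List Bool → Prop) (ρ : ℝ)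
    (F : List Bool → ℝ≥0∞), (∀ g g', R g g' → ∃ c : Bool, Nb g ((!c) :: c :: g')) → 2 ^ (k + 4) ≤ D →
    1 ≤ ρ → UU N ≤ ρ * Ub k → xN D k (opA D N R F) ≤ ENNReal.ofReal (K * ρ) * xN D k F := by
  obtain ⟨K3, hK3, k3h⟩ := k3 h
  obtain ⟨K1, hK1, k1h⟩ := k1 h
  obtain ⟨Kr, hKr, hrest⟩ := rest_le h
  have hp : (0 : ℝ) ≤ Kr * K1 := by positivity
  refine ⟨16 * (K3 + Kr * K1), by nlinarith, fun D N k R ρ F hR hD hρ hU => ?_⟩
  refine xN_le fun b I hb hI => ?_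
  obtain ⟨i, hIi⟩ := hI
  set x := xN D k F with hx
  let Θ : ℕ → List Bool → ℝ≥0∞ := fun r P =>
    x * (∑ b2 ∈ range (k + 1), mb k b2 r * Sw D k b2 P + ENNReal.ofReal (Kr * UU N))
  have hΘ : ∀ n r P, n ≤ 2 ^ (k + 1) → P ∈ Irr r →
      sw {Z | Z ∈ BU ∧ ∃ Y ∈ Brd n, Y ++ (P ++ Z) ∈ BrR D N} (fun Z => hat D F (P ++ Z)) ≤ Θ r P :=
    fun n r P hn hP => hrest D N k n r F P hD hn hP
  have s1 : Psi D (opA D N R F) b I ≤ sw (Fld.BrB b) (fun M => ∑' n : ℕ, ∑' r : ℕ, mu k n r * sw (Brd n) (fun X =>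
      sw {P | P ∈ Irr r ∧ ∃ c : Bool, KRel D I P M ((!c) :: c :: X)} (fun P => Θ r P))) := by
    refine Rec8.sw_mono' fun M hM => ?_
    obtain ⟨m, -, hMm⟩ := hM
    refine iSup_le fun Z => ?_
    obtain ⟨Z, ⟨z, hz⟩, hZ⟩ := Z
    exact TN7b_opA_le hR hD Θ hΘ hz hIi.1 hMm hZ
  have s2 := fold_sum D b k I (mu k) (mb k) (fun a n r => mu_le_mb) (fun n r => mu_eq_zero) (TN7b_mb_mono k) Θ
  refine s1.trans (s2.trans ?_)
  -- the two parts
  have s3 : ∀ a r, sw (Irr r) (fun P => KT D b I a P * Θ r P) =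
      x * (∑ b2 ∈ range (k + 1), mb k b2 r * sw (Irr r) (fun P => KT D b I a P * Sw D k b2 P)) +
        x * (ENNReal.ofReal (Kr * UU N) * sw (Irr r) (fun P => KT D b I a P)) := by
    intro a r
    have e1 : ∀ P, KT D b I a P * Θ r P = x * (∑ b2 ∈ range (k + 1), mb k b2 r * (KT D b I a P * Sw D k b2 P)) +
        x * (ENNReal.ofReal (Kr * UU N) * KT D b I a P) := by
      intro P
      change KT D b I a P * (x * (∑ b2 ∈ range (k + 1), mb k b2 r * Sw D k b2 P + ENNReal.ofReal (Kr * UU N))) = _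
      have e2 : ∑ b2 ∈ range (k + 1), mb k b2 r * (KT D b I a P * Sw D k b2 P) =
          KT D b I a P * ∑ b2 ∈ range (k + 1), mb k b2 r * Sw D k b2 P := by
        rw [Finset.mul_sum]
        exact Finset.sum_congr rfl fun _ _ => by ring
      rw [e2]
      ring
    rw [Rec8.sw_congr (Ψ := fun P => x * (∑ b2 ∈ range (k + 1), mb k b2 r * (KT D b I a P * Sw D k b2 P)) +
        x * (ENNReal.ofReal (Kr * UU N) * KT D b I a P)) (fun P _ => e1 P), Rec8.sw_add, Rec8.sw_mul_left,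
      Rec8.sw_sum, Rec8.sw_mul_left, Rec8.sw_mul_left]
    congr 2
    exact Finset.sum_congr rfl fun b2 _ => Rec8.sw_mul_left _ _ _
  have s4 : ∑ a ∈ range (k + 2), ∑' r : ℕ, mb k a r * sw (Irr r) (fun P => KT D b I a P * Θ r P) =
      x * (∑ a ∈ range (k + 2), ∑ b2 ∈ range (k + 1), ∑' r : ℕ, mb k a r * mb k b2 r *
        sw (Irr r) (fun P => KT D b I a P * Sw D k b2 P)) +
      x * (ENNReal.ofReal (Kr * UU N) * ∑ a ∈ range (k + 2), pm k a (fun P => KT D b I a P)) := by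
    rw [Finset.mul_sum, Finset.mul_sum, Finset.mul_sum, ← Finset.sum_add_distrib]
    refine Finset.sum_congr rfl fun a _ => ?_
    unfold pm
    rw [← Summable.tsum_finsetSum (fun _ _ => ENNReal.summable), ← ENNReal.tsum_mul_left, ← ENNReal.tsum_mul_left,
      ← ENNReal.tsum_mul_left, ← ENNReal.tsum_add]
    refine tsum_congr fun r => ?_
    rw [s3, mul_add]
    congr 1
    · rw [Finset.mul_sum, Finset.mul_sum, Finset.mul_sum]
      exact Finset.sum_congr rfl fun _ _ => by ring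
    · ring
  rw [s4]
  have t1 := k3h D k b I hD hb
  have t2 := k1h D k k b I hD le_rfl hb
  have hUb := Ub_pos k
  have hKrU : (0 : ℝ) ≤ Kr * UU N := by
    have : 0 ≤ UU N := (Num2Aux.UU_pos N).le
    positivity
  have t3 : ENNReal.ofReal (Kr * UU N) * ∑ a ∈ range (k + 2), pm k a (fun P => KT D b I a P) ≤
      ENNReal.ofReal (Kr * K1 * ρ) * Sw D k b I := by
    calc ENNReal.ofReal (Kr * UU N) * ∑ a ∈ range (k + 2), pm k a (fun P => KT D b I a P)
        ≤ ENNReal.ofReal (Kr * UU N) * (ENNReal.ofReal (K1 / Ub k) * Sw D k b I) := by gcongr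
      _ = ENNReal.ofReal (Kr * UU N * (K1 / Ub k)) * Sw D k b I := by
          rw [← mul_assoc, ← ENNReal.ofReal_mul hKrU]
      _ ≤ ENNReal.ofReal (Kr * K1 * ρ) * Sw D k b I := by
          refine mul_le_mul_left (ENNReal.ofReal_le_ofReal ?_) _
          have : Kr * UU N * (K1 / Ub k) = Kr * K1 * UU N / Ub k := by ring
          rw [this, div_le_iff₀ hUb]
          nlinarith [mul_le_mul_of_nonneg_left hU hp]
  calc 16 * (x * (∑ a ∈ range (k + 2), ∑ b2 ∈ range (k + 1), ∑' r : ℕ, mb k a r * mb k b2 r *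
        sw (Irr r) (fun P => KT D b I a P * Sw D k b2 P)) +
      x * (ENNReal.ofReal (Kr * UU N) * ∑ a ∈ range (k + 2), pm k a (fun P => KT D b I a P)))
      ≤ 16 * (x * (ENNReal.ofReal K3 * Sw D k b I) + x * (ENNReal.ofReal (Kr * K1 * ρ) * Sw D k b I)) := by
        gcongr
    _ = ENNReal.ofReal (16 * (K3 + Kr * K1 * ρ)) * x * Sw D k b I := by
        have e16 : ENNReal.ofReal 16 = 16 := by simp
        have e17 : ENNReal.ofReal (16 * (K3 + Kr * K1 * ρ)) =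
            16 * (ENNReal.ofReal K3 + ENNReal.ofReal (Kr * K1 * ρ)) := by
          rw [ENNReal.ofReal_mul (by norm_num : (0 : ℝ) ≤ 16), e16,
            ENNReal.ofReal_add (by linarith) (mul_nonneg hp (by linarith))]
        rw [e17]
        ring
    _ ≤ ENNReal.ofReal (16 * (K3 + Kr * K1) * ρ) * x * Sw D k b I := by
        have e18 : 16 * (K3 + Kr * K1 * ρ) ≤ 16 * (K3 + Kr * K1) * ρ := by
          nlinarith [mul_le_mul_of_nonneg_left hρ (by linarith : (0 : ℝ) ≤ K3)]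
        exact mul_le_mul_left (mul_le_mul_left (ENNReal.ofReal_le_ofReal e18) _) _

open Classical in

private theorem TN7c_opB (D N k j1 j3 : ℕ) (R : List Bool → List Bool → Prop) (F : List Bool → ℝ≥0∞)
    (g : List Bool) : opB D N k j1 j3 R F g =
      sw (BrR D N) (fun g' => bet k j1 j3 g' * (if R g g' then F g' else 0)) := by
  have h1 : opB D N k j1 j3 R F g = sw {g' | g' ∈ BrR D N ∧ R g g'} (fun g' => bet k j1 j3 g' * F g') := rfl
  rw [h1, Rec8.sw_and]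
  refine Rec8.sw_congr fun g' _ => ?_
  split_ifs
  · rfl
  · rw [mul_zero]

private theorem TN7c_HB {D N : ℕ} {t : List Bool} (h : t ∈ BrR D N) : t ∈ HB D := by
  obtain ⟨n, h1, _, h3⟩ := h
  exact ⟨n, h1, h3⟩

open Classical in

private theorem TN7c_G {R : List Bool → List Bool → Prop} (hR : ∀ g g', R g g' → ∃ c : Bool, Nb g ((!c) :: c :: g'))
    {D N z i m n r : ℕ} {Z I M X P Y : List Bool} (F : List Bool → ℝ≥0∞) (hZ : Z ∈ Brd z) (hI : I ∈ Brd i)
    (hM : M ∈ Brd m) (hX : X ∈ Brd n) (hP : P ∈ Brd r) (hY : Y ∈ BU) (h1 : Z ++ (I ++ M) ∈ HB D)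
    (h2 : X ++ (P ++ Y) ∈ BrR D N) {s t : List Bool} (hs : s ∈ BU) (hst : X ++ (P ++ Y) = s ++ t) :
    (if R (Z ++ (I ++ M)) (X ++ (P ++ Y)) then F (X ++ (P ++ Y)) else 0) ≤
      if ∃ c : Bool, KRel D I P M ((!c) :: c :: X) then hat D F t else 0 := by
  by_cases h : R (Z ++ (I ++ M)) (X ++ (P ++ Y))
  · obtain ⟨y, hY'⟩ := hY
    rw [if_pos h, if_pos (R_KRel hR hZ hI hM hX hP hY' h1 (TN7c_HB h2) h), hst]
    exact le_hat hs (hst ▸ TN7c_HB h2) F
  · rw [if_neg h]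
    exact zero_le

private theorem TN7c_zero {A : Set (List Bool)} {Φ : List Bool → ℝ≥0∞} (h : ∀ t ∈ A, Φ t ≤ 0) : sw A Φ ≤ 0 :=
  le_trans (Rec8.sw_mono' (Ψ := fun _ => 0) h) (Rec8.sw_zero A).le

private theorem TN7c_gfV (j : ℕ) : ∑ v ∈ range (2 ^ j), gf (Brd v) ≤ ENNReal.ofReal (Ub j) := by
  have h1 : ∀ v, gf (Brd v) = ENNReal.ofReal (uu v) := by
    intro v
    have h2 : BT v ≠ ⊤ := by
      rcases Nat.eq_zero_or_pos v with rfl | h
      · rw [← gf_Brd, Brd_zero]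
        simp [gf, wE]
      · exact ne_top_of_le_ne_top ENNReal.one_ne_top (BT_le_one h)
    rw [gf_Brd, uu, ENNReal.ofReal_toReal h2]
  simp only [h1]
  rw [← ENNReal.ofReal_sum_of_nonneg (f := uu) (fun v _ => ENNReal.toReal_nonneg)]
  refine ENNReal.ofReal_le_ofReal ?_
  unfold Ub UU
  refine Finset.sum_le_sum_of_subset_of_nonneg ?_ (fun v _ _ => ENNReal.toReal_nonneg)
  intro v hv
  rw [Finset.mem_range] at hv ⊢
  omega

/-- the bound for the leaves behind Z ++ (I ++ M) -/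
private theorem TN7c_main {K1 K4 : ℝ}
    (hrest : ∀ (D N k n r : ℕ) (F : List Bool → ℝ≥0∞) (P : List Bool),
      2 ^ (k + 4) ≤ D → n ≤ 2 ^ (k + 1) → P ∈ Irr r →
      sw {Z | Z ∈ BU ∧ ∃ Y ∈ Brd n, Y ++ (P ++ Z) ∈ BrR D N} (fun Z => hat D F (P ++ Z)) ≤
        xN D k F * (∑ b ∈ range (k + 1), mb k b r * Sw D k b P + ENNReal.ofReal (K1 * UU N)))
    (htail : ∀ (D N k n : ℕ) (R : ℝ) (F : List Bool → ℝ≥0∞),
      2 ^ (k + 4) ≤ D → 1 ≤ R → UU N ≤ R * Ub k →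
      ∑' r : ℕ, mu k n r * sw (Irr r) (fun P => sw {Z | Z ∈ BU ∧ ∃ Y ∈ Brd n, Y ++ (P ++ Z) ∈ BrR D N}
        (fun Z => hat D F (P ++ Z))) ≤ ENNReal.ofReal (K4 * R) * xN D k F)
    {D N k j1 j3 : ℕ} {R : List Bool → List Bool → Prop} {ρ : ℝ} {F : List Bool → ℝ≥0∞}
    (hR : ∀ g g', R g g' → ∃ c : Bool, Nb g ((!c) :: c :: g')) (hD : 2 ^ (k + 4) ≤ D) (hρ : 1 ≤ ρ)
    (hN : UU N ≤ ρ * Ub k) (hj : j1 + 3 ≤ k) {z i m : ℕ} {Z I M : List Bool} (hZ : Z ∈ Brd z) (hI : I ∈ Brd i)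
    (hM : M ∈ Brd m) (h1 : Z ++ (I ++ M) ∈ HB D) :
    opB D N k j1 j3 R F (Z ++ (I ++ M)) ≤
      (∑' n : ℕ, ∑' r : ℕ, (mu j1 n r * mu k n r) * sw (Brd n) (fun X =>
        sw {P | P ∈ Irr r ∧ ∃ c : Bool, KRel D I P M ((!c) :: c :: X)} (fun P =>
          xN D k F * (∑ b ∈ range (k + 1), mb k b r * Sw D k b P + ENNReal.ofReal (K1 * UU N))))) +
      ∑' n : ℕ, ∑' r : ℕ, mu j1 n r * sw (Brd n) (fun X =>
        sw {P | P ∈ Irr r ∧ ∃ c : Bool, KRel D I P M ((!c) :: c :: X)} (fun _ =>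
          ENNReal.ofReal (Ub j3) * (ENNReal.ofReal (K4 * ρ) * xN D k F))) := by
  classical
  have hk2 : 2 ^ (k + 1) ≤ D := le_trans (Nat.pow_le_pow_right (by norm_num) (by omega)) hD
  rw [TN7c_opB]
  refine le_trans (badR (by omega) hk2 _) ?_
  rw [← ENNReal.tsum_add]
  refine ENNReal.tsum_le_tsum fun n => ?_
  rw [← ENNReal.tsum_add]
  refine ENNReal.tsum_le_tsum fun r => ?_
  by_cases hn : 2 ^ (j1 + 1) ≤ n
  · rw [mu_eq_zero hn, zero_mul]
    exact zero_le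
  have hn' : n ≤ 2 ^ (k + 1) := by
    have : 2 ^ (j1 + 1) ≤ 2 ^ (k + 1) := Nat.pow_le_pow_right (by norm_num) (by omega)
    omega
  rw [mul_assoc, ← mul_add]
  refine mul_le_mul_right ?_ _
  rw [← Rec8.sw_mul_left, ← Rec8.sw_add]
  refine Rec8.sw_mono' fun X hX => ?_
  rw [← Rec8.sw_mul_left, ← Rec8.sw_add, Rec8.sw_and]
  refine Rec8.sw_mono' fun P hP => ?_
  have hPB : P ∈ Brd r := hP.1
  by_cases hc : ∃ c : Bool, KRel D I P M ((!c) :: c :: X)
  · rw [if_pos hc]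
    refine add_le_add ?_ ?_
    · refine mul_le_mul_right ?_ _
      refine le_trans ?_ (hrest D N k n r F P hD hn' hP)
      refine Rec8.sw_mono ?_ ?_
      · rintro Z' ⟨hZ', h2⟩
        exact ⟨hZ', X, hX, h2⟩
      · rintro Z' ⟨hZ', h2⟩
        have := TN7c_G hR F hZ hI hM hX hPB hZ' h1 h2 (s := X) (t := P ++ Z') ⟨n, hX⟩ rfl
        rw [if_pos hc] at this
        exact this
    · have h5 : ∀ v ∈ range (2 ^ j3), sw (Brd v) (fun V => ∑' r2 : ℕ, mu k (n + r + v) r2 * sw (Irr r2) (fun P2 =>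
          sw {Q | Q ∈ BU ∧ X ++ (P ++ (V ++ (P2 ++ Q))) ∈ BrR D N}
            (fun Q => if R (Z ++ (I ++ M)) (X ++ (P ++ (V ++ (P2 ++ Q)))) then
              F (X ++ (P ++ (V ++ (P2 ++ Q)))) else 0))) ≤
          gf (Brd v) * (ENNReal.ofReal (K4 * ρ) * xN D k F) := by
        intro v _
        rw [← Rec8.sw_one, ← Rec8.sw_mul_right]
        refine Rec8.sw_mono' fun V hV => ?_
        rw [one_mul]
        refine le_trans ?_ (htail D N k (n + r + v) ρ F hD hρ hN)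
        refine ENNReal.tsum_le_tsum fun r2 => ?_
        refine mul_le_mul_right (Rec8.sw_mono' fun P2 hP2 => ?_) _
        have hXPV : X ++ (P ++ V) ∈ Brd (n + r + v) := by
          have := Brd_append hX (Brd_append hPB hV)
          rwa [← add_assoc] at this
        refine Rec8.sw_mono ?_ ?_
        · rintro Q ⟨hQ, h2⟩
          exact ⟨hQ, X ++ (P ++ V), hXPV, by simpa only [List.append_assoc] using h2⟩
        · rintro Q ⟨hQ, h2⟩
          obtain ⟨q, hQ'⟩ := hQ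
          have := TN7c_G hR F hZ hI hM hX hPB (Y := V ++ (P2 ++ Q)) ⟨v + (r2 + q), Brd_append hV (Brd_append hP2.1 hQ')⟩
            h1 h2 (s := X ++ (P ++ V)) (t := P2 ++ Q) ⟨_, hXPV⟩ (by simp only [List.append_assoc])
          rw [if_pos hc] at this
          exact this
      refine le_trans (Finset.sum_le_sum h5) ?_
      rw [← Finset.sum_mul]
      exact mul_le_mul_left (TN7c_gfV j3) _
  · rw [if_neg hc]
    have h6 : ∀ Y ∈ BU, X ++ (P ++ Y) ∈ BrR D N →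
        (if R (Z ++ (I ++ M)) (X ++ (P ++ Y)) then F (X ++ (P ++ Y)) else 0) ≤ 0 := by
      intro Y hY h2
      have := TN7c_G hR F hZ hI hM hX hPB hY h1 h2 (s := X) (t := P ++ Y) ⟨n, hX⟩ rfl
      rw [if_neg hc] at this
      exact this
    have h7 : sw {Z' | Z' ∈ BU ∧ X ++ (P ++ Z') ∈ BrR D N} (fun Z' =>
        if R (Z ++ (I ++ M)) (X ++ (P ++ Z')) then F (X ++ (P ++ Z')) else 0) ≤ 0 := by
      refine TN7c_zero ?_
      rintro Z' ⟨hZ', h2⟩
      exact h6 Z' hZ' h2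
    have h8 : ∀ v ∈ range (2 ^ j3), sw (Brd v) (fun V => ∑' r2 : ℕ, mu k (n + r + v) r2 * sw (Irr r2) (fun P2 =>
          sw {Q | Q ∈ BU ∧ X ++ (P ++ (V ++ (P2 ++ Q))) ∈ BrR D N}
            (fun Q => if R (Z ++ (I ++ M)) (X ++ (P ++ (V ++ (P2 ++ Q)))) then
              F (X ++ (P ++ (V ++ (P2 ++ Q)))) else 0))) ≤ 0 := by
      intro v _
      refine TN7c_zero fun V hV => ?_
      have h9 : ∀ r2 : ℕ, mu k (n + r + v) r2 * sw (Irr r2) (fun P2 =>
          sw {Q | Q ∈ BU ∧ X ++ (P ++ (V ++ (P2 ++ Q))) ∈ BrR D N}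
            (fun Q => if R (Z ++ (I ++ M)) (X ++ (P ++ (V ++ (P2 ++ Q)))) then
              F (X ++ (P ++ (V ++ (P2 ++ Q)))) else 0)) ≤ 0 := by
        intro r2
        have h10 : sw (Irr r2) (fun P2 =>
          sw {Q | Q ∈ BU ∧ X ++ (P ++ (V ++ (P2 ++ Q))) ∈ BrR D N}
            (fun Q => if R (Z ++ (I ++ M)) (X ++ (P ++ (V ++ (P2 ++ Q)))) then
              F (X ++ (P ++ (V ++ (P2 ++ Q)))) else 0)) ≤ 0 := by
          refine TN7c_zero fun P2 hP2 => ?_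
          refine TN7c_zero ?_
          rintro Q ⟨hQ, h2⟩
          obtain ⟨q, hQ'⟩ := hQ
          exact h6 _ ⟨v + (r2 + q), Brd_append hV (Brd_append hP2.1 hQ')⟩ h2
        rw [nonpos_iff_eq_zero] at h10
        rw [h10, mul_zero]
      calc _ ≤ ∑' _ : ℕ, (0 : ℝ≥0∞) := ENNReal.tsum_le_tsum h9
        _ = 0 := tsum_zero
    rw [nonpos_iff_eq_zero] at h7
    rw [h7, mul_zero, zero_add]
    exact le_trans (Finset.sum_le_sum h8) (by simp)

private theorem TN7c_sum1 (D k b j1 : ℕ) (I : List Bool) (x A : ℝ≥0∞) :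
    ∑ a ∈ range (j1 + 2), ∑' r : ℕ, mb k a r * sw (Irr r) (fun P => KT D b I a P *
      (x * (∑ b2 ∈ range (k + 1), mb k b2 r * Sw D k b2 P + A))) =
    x * (∑ a ∈ range (j1 + 2), ∑ b2 ∈ range (k + 1), ∑' r : ℕ, mb k a r * mb k b2 r *
      sw (Irr r) (fun P => KT D b I a P * Sw D k b2 P) +
      A * ∑ a ∈ range (j1 + 2), pm k a (fun P => KT D b I a P)) := by
  rw [Finset.mul_sum, ← Finset.sum_add_distrib, Finset.mul_sum]
  refine Finset.sum_congr rfl fun a _ => ?_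
  have h1 : ∀ r : ℕ, mb k a r * sw (Irr r) (fun P => KT D b I a P *
      (x * (∑ b2 ∈ range (k + 1), mb k b2 r * Sw D k b2 P + A))) =
      x * (∑ b2 ∈ range (k + 1), mb k a r * mb k b2 r * sw (Irr r) (fun P => KT D b I a P * Sw D k b2 P) +
        A * (mb k a r * sw (Irr r) (fun P => KT D b I a P))) := by
    intro r
    have h2 : sw (Irr r) (fun P => KT D b I a P *
        (x * (∑ b2 ∈ range (k + 1), mb k b2 r * Sw D k b2 P + A))) =
        x * (∑ b2 ∈ range (k + 1), mb k b2 r * sw (Irr r) (fun P => KT D b I a P * Sw D k b2 P) +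
          A * sw (Irr r) (fun P => KT D b I a P)) := by
      have h3 : sw (Irr r) (fun P => KT D b I a P *
          (x * (∑ b2 ∈ range (k + 1), mb k b2 r * Sw D k b2 P + A))) =
          sw (Irr r) (fun P => x * (∑ b2 ∈ range (k + 1), mb k b2 r * (KT D b I a P * Sw D k b2 P) +
            A * KT D b I a P)) := by
        refine Rec8.sw_congr fun P _ => ?_
        have h4 : ∑ b2 ∈ range (k + 1), mb k b2 r * (KT D b I a P * Sw D k b2 P) =
            KT D b I a P * ∑ b2 ∈ range (k + 1), mb k b2 r * Sw D k b2 P := by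
          rw [Finset.mul_sum]
          exact Finset.sum_congr rfl fun b2 _ => by ring
        rw [h4]
        ring
      rw [h3, Rec8.sw_mul_left, Rec8.sw_add, Rec8.sw_sum, Rec8.sw_mul_left]
      congr 2
      exact Finset.sum_congr rfl fun b2 _ => Rec8.sw_mul_left _ _ _
    rw [h2, mul_left_comm, mul_add, Finset.mul_sum]
    congr 2
    · exact Finset.sum_congr rfl fun b2 _ => by ring
    · ring
  rw [tsum_congr h1, ENNReal.tsum_mul_left, ENNReal.tsum_add, ENNReal.tsum_mul_left,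
    Summable.tsum_finsetSum (fun _ _ => ENNReal.summable)]
  rfl

private theorem TN7c_sum2 (D b j1 : ℕ) (I : List Bool) (y : ℝ≥0∞) :
    ∑ a ∈ range (j1 + 2), ∑' r : ℕ, mb j1 a r * sw (Irr r) (fun P => KT D b I a P * y) =
      y * ∑ a ∈ range (j1 + 2), pm j1 a (fun P => KT D b I a P) := by
  rw [Finset.mul_sum]
  refine Finset.sum_congr rfl fun a _ => ?_
  unfold pm
  rw [← ENNReal.tsum_mul_left]
  refine tsum_congr fun r => ?_
  rw [Rec8.sw_mul_right]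
  ring

private theorem TN7c_num {K1 K2 K3 K4 K5 e e2 e3 ρ uN uk u1 u3 : ℝ} (h1 : 1 ≤ K1) (h2 : 1 ≤ K2) (h3 : 1 ≤ K3)
    (h4 : 1 ≤ K4) (h5 : 1 ≤ K5) (he2 : 0 ≤ e2) (he3 : 0 ≤ e3) (h2e : e2 ≤ e) (h3e : e3 ≤ e) (hρ : 1 ≤ ρ)
    (huN : 0 ≤ uN) (huk : 0 < uk) (hu1 : 0 < u1) (hu3 : 0 < u3) (hN : uN ≤ ρ * uk) :
    (16 : ℝ≥0∞) * (ENNReal.ofReal (K3 * e3) + ENNReal.ofReal (K1 * uN) * ENNReal.ofReal (K2 / uk * e2) +
      ENNReal.ofReal u3 * ENNReal.ofReal (K4 * ρ) * ENNReal.ofReal (K5 / u1)) ≤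
    ENNReal.ofReal (16 * (K3 + K1 * K2 + K4 * K5) * ρ * (e + u3 / u1)) := by
  have h16 : (16 : ℝ≥0∞) = ENNReal.ofReal 16 := by norm_num
  have p1 : 0 ≤ K1 * uN := mul_nonneg (by linarith) huN
  have p2 : 0 ≤ K3 * e3 := mul_nonneg (by linarith) he3
  have p3 : 0 ≤ K2 / uk * e2 := mul_nonneg (div_nonneg (by linarith) huk.le) he2
  have p4 : 0 ≤ K4 * ρ := mul_nonneg (by linarith) (by linarith)
  have p5 : 0 ≤ K5 / u1 := div_nonneg (by linarith) hu1.le
  rw [h16, ← ENNReal.ofReal_mul p1, ← ENNReal.ofReal_mul hu3.le, ← ENNReal.ofReal_mul (mul_nonneg hu3.le p4),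
    ← ENNReal.ofReal_add p2 (mul_nonneg p1 p3),
    ← ENNReal.ofReal_add (add_nonneg p2 (mul_nonneg p1 p3)) (mul_nonneg (mul_nonneg hu3.le p4) p5),
    ← ENNReal.ofReal_mul (by norm_num)]
  refine ENNReal.ofReal_le_ofReal ?_
  have he : 0 ≤ e := le_trans he2 h2e
  have q1 : K3 * e3 ≤ K3 * ρ * e := by
    have : K3 * e3 ≤ K3 * e := mul_le_mul_of_nonneg_left h3e (by linarith)
    have h6 : K3 * e ≤ K3 * ρ * e := by
      have : 0 ≤ K3 * e := mul_nonneg (by linarith) he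
      nlinarith
    linarith
  have q2 : K1 * uN * (K2 / uk * e2) ≤ K1 * K2 * ρ * e := by
    have h6 : K1 * uN * (K2 / uk * e2) ≤ K1 * (ρ * uk) * (K2 / uk * e2) :=
      mul_le_mul_of_nonneg_right (mul_le_mul_of_nonneg_left hN (by linarith)) p3
    have h7 : K1 * (ρ * uk) * (K2 / uk * e2) = K1 * K2 * ρ * e2 := by
      field_simp
    have h8 : K1 * K2 * ρ * e2 ≤ K1 * K2 * ρ * e :=
      mul_le_mul_of_nonneg_left h2e (mul_nonneg (mul_nonneg (by linarith) (by linarith)) (by linarith))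
    linarith
  have q3 : u3 * (K4 * ρ) * (K5 / u1) = K4 * K5 * ρ * (u3 / u1) := by
    field_simp
  have hw : 0 ≤ u3 / u1 := div_nonneg hu3.le hu1.le
  have r1 : 0 ≤ K3 * ρ * (u3 / u1) := mul_nonneg (mul_nonneg (by linarith) (by linarith)) hw
  have r2 : 0 ≤ K1 * K2 * ρ * (u3 / u1) :=
    mul_nonneg (mul_nonneg (mul_nonneg (by linarith) (by linarith)) (by linarith)) hw
  have r3 : 0 ≤ K4 * K5 * ρ * e := mul_nonneg (mul_nonneg (mul_nonneg (by linarith) (by linarith)) (by linarith)) he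
  have r4 : (16 : ℝ) * (K3 + K1 * K2 + K4 * K5) * ρ * (e + u3 / u1) =
      16 * (K3 * ρ * e + K1 * K2 * ρ * e + K4 * K5 * ρ * (u3 / u1) + K3 * ρ * (u3 / u1) + K1 * K2 * ρ * (u3 / u1) +
        K4 * K5 * ρ * e) := by ring
  rw [r4, q3]
  linarith

/-- badR, R_KRel. First term: weight w n r = mu j1 n r * mu k n r ≤ mb k a r, n in a block a ≤ j1: rest_le, fold_sum
with j = j1, m = mb k, then k3' and k2; second term: fold_sum with w = mu j1, tail_le, k1 at j1, sum of the weights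
of V at most Ub j3 -/
theorem norm_B (h : Inp C δ) : ∃ K c : ℝ, 1 ≤ K ∧ 0 < c ∧ ∀ (D N k j1 j3 : ℕ) (R : List Bool → List Bool → Prop)
    (ρ : ℝ) (F : List Bool → ℝ≥0∞), (∀ g g', R g g' → ∃ c : Bool, Nb g ((!c) :: c :: g')) → 2 ^ (k + 4) ≤ D →
    1 ≤ ρ → UU N ≤ ρ * Ub k → j1 + 3 ≤ k → j3 ≤ j1 → xN D k (opB D N k j1 j3 R F) ≤
      ENNReal.ofReal (K * ρ * ((2 : ℝ) ^ (-(c * ((k : ℝ) - j1))) + Ub j3 / Ub j1)) * xN D k F := by
  obtain ⟨K1, hK1, hrest⟩ := rest_le h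
  obtain ⟨K4, hK4, htail⟩ := tail_le h
  obtain ⟨K2, c2, hK2, hc2, hk2⟩ := k2 h
  obtain ⟨K3, c3, hK3, hc3, hk3⟩ := k3' h
  obtain ⟨K5, hK5, hk1⟩ := k1 h
  refine ⟨16 * (K3 + K1 * K2 + K4 * K5), min c2 c3, ?_, lt_min hc2 hc3, ?_⟩
  · have p1 : 0 ≤ K1 * K2 := mul_nonneg (by linarith) (by linarith)
    have p2 : 0 ≤ K4 * K5 := mul_nonneg (by linarith) (by linarith)
    linarith
  intro D N k j1 j3 R ρ F hR hD hρ hN hj _
  refine xN_le fun b I hb hI => ?_
  obtain ⟨i, hI'⟩ := hI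
  have hPsi : Psi D (opB D N k j1 j3 R F) b I ≤ _ :=
    Rec8.sw_mono' (A := Fld.BrB b) fun M hM => by
      obtain ⟨m, _, hM'⟩ := hM
      exact iSup_le fun Z => by
        obtain ⟨⟨z, hz⟩, h1⟩ := Z.2
        exact TN7c_main hrest htail hR hD hρ hN hj hz hI'.1 hM' h1
  refine le_trans hPsi ?_
  rw [Rec8.sw_add]
  have hF1 := fold_sum D b j1 I (fun n r => mu j1 n r * mu k n r) (fun a r => mb k a r)
    (fun a n r ha => by
      have h1 : mu j1 n r ≤ 1 := le_trans (mu_le_min j1 n r) (min_le_left _ _)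
      calc mu j1 n r * mu k n r ≤ 1 * mb k a r := mul_le_mul' h1 (mu_le_mb ha)
        _ = mb k a r := one_mul _)
    (fun n r hn => by rw [mu_eq_zero hn, zero_mul])
    (fun a r => mb_mono (Nat.le_succ a) r)
    (fun r P => xN D k F * (∑ b ∈ range (k + 1), mb k b r * Sw D k b P + ENNReal.ofReal (K1 * UU N)))
  have hF2 := fold_sum D b j1 I (fun n r => mu j1 n r) (fun a r => mb j1 a r)
    (fun a n r ha => mu_le_mb ha) (fun n r hn => mu_eq_zero hn) (fun a r => mb_mono (Nat.le_succ a) r)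
    (fun _ _ => ENNReal.ofReal (Ub j3) * (ENNReal.ofReal (K4 * ρ) * xN D k F))
  refine le_trans (add_le_add hF1 hF2) ?_
  rw [TN7c_sum1, TN7c_sum2]
  have hS1 := hk3 D k j1 b I hD hj hb
  have hS2 := hk2 D k j1 b I hD hj hb
  have hS3 := hk1 D k j1 b I hD (by omega) hb
  have hkj : (0 : ℝ) ≤ (k : ℝ) - j1 := by
    have : (j1 : ℝ) ≤ k := by exact_mod_cast (by omega : j1 ≤ k)
    linarith
  calc 16 * (xN D k F * (∑ a ∈ range (j1 + 2), ∑ b2 ∈ range (k + 1), ∑' r : ℕ, mb k a r * mb k b2 r *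
        sw (Irr r) (fun P => KT D b I a P * Sw D k b2 P) +
        ENNReal.ofReal (K1 * UU N) * ∑ a ∈ range (j1 + 2), pm k a (fun P => KT D b I a P))) +
      16 * (ENNReal.ofReal (Ub j3) * (ENNReal.ofReal (K4 * ρ) * xN D k F) *
        ∑ a ∈ range (j1 + 2), pm j1 a (fun P => KT D b I a P))
      ≤ 16 * (xN D k F * (ENNReal.ofReal (K3 * (2 : ℝ) ^ (-(c3 * ((k : ℝ) - j1)))) * Sw D k b I +
          ENNReal.ofReal (K1 * UU N) *
            (ENNReal.ofReal (K2 / Ub k * (2 : ℝ) ^ (-(c2 * ((k : ℝ) - j1)))) * Sw D k b I))) +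
        16 * (ENNReal.ofReal (Ub j3) * (ENNReal.ofReal (K4 * ρ) * xN D k F) *
          (ENNReal.ofReal (K5 / Ub j1) * Sw D k b I)) := by
        gcongr
    _ = (16 * (ENNReal.ofReal (K3 * (2 : ℝ) ^ (-(c3 * ((k : ℝ) - j1)))) + ENNReal.ofReal (K1 * UU N) *
          ENNReal.ofReal (K2 / Ub k * (2 : ℝ) ^ (-(c2 * ((k : ℝ) - j1)))) +
          ENNReal.ofReal (Ub j3) * ENNReal.ofReal (K4 * ρ) * ENNReal.ofReal (K5 / Ub j1))) * xN D k F *
            Sw D k b I := by ring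
    _ ≤ ENNReal.ofReal (16 * (K3 + K1 * K2 + K4 * K5) * ρ *
          ((2 : ℝ) ^ (-(min c2 c3 * ((k : ℝ) - j1))) + Ub j3 / Ub j1)) * xN D k F * Sw D k b I := by
        gcongr
        refine TN7c_num hK1 hK2 hK3 hK4 hK5 (by positivity) (by positivity) ?_ ?_ hρ ?_ (Ub_pos _) (Ub_pos _)
          (Ub_pos _) hN
        · refine Real.rpow_le_rpow_of_exponent_le (by norm_num) ?_
          have := mul_le_mul_of_nonneg_right (min_le_left c2 c3) hkj
          linarith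
        · refine Real.rpow_le_rpow_of_exponent_le (by norm_num) ?_
          have := mul_le_mul_of_nonneg_right (min_le_right c2 c3) hkj
          linarith
        · unfold UU
          exact Finset.sum_nonneg fun t _ => ENNReal.toReal_nonneg

private theorem TN7d_gf (v : ℕ) : gf (Brd v) = ENNReal.ofReal (uu v) := by
  rw [gf_Brd]
  unfold uu
  rw [ENNReal.ofReal_toReal]
  intro h
  rcases Nat.eq_zero_or_pos v with h0 | h0
  · have h1 := uu_zero
    unfold uu at h1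
    rw [h0] at h
    rw [h, ENNReal.toReal_top] at h1
    exact zero_ne_one h1
  · exact BT_ne_top h0 h

private theorem TN7d_sum (k : ℕ) : ∑ v ∈ range (2 ^ (k + 1)), gf (Brd v) ≤ ENNReal.ofReal (2 * Ub k) := by
  rw [Finset.sum_congr rfl fun v _ => TN7d_gf v,
    ← ENNReal.ofReal_sum_of_nonneg (f := uu) (fun s _ => ENNReal.toReal_nonneg)]
  apply ENNReal.ofReal_le_ofReal
  refine le_trans ?_ (Ub_succ k)
  unfold Ub UU
  apply Finset.sum_le_sum_of_subset_of_nonneg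
  · intro s hs
    rw [Finset.mem_range] at hs ⊢
    omega
  · intro s _ _
    exact ENNReal.toReal_nonneg

/-- the inner sum of opU: everything behind the piece P1 -/
private theorem TN7d_inner {K : ℝ} (hK : ∀ (D N k n : ℕ) (R : ℝ) (F : List Bool → ℝ≥0∞),
    2 ^ (k + 4) ≤ D → 1 ≤ R → UU N ≤ R * Ub k →
    ∑' r : ℕ, mu k n r * sw (Irr r) (fun P => sw {Z | Z ∈ BU ∧ ∃ Y ∈ Brd n, Y ++ (P ++ Z) ∈ BrR D N}
      (fun Z => hat D F (P ++ Z))) ≤ ENNReal.ofReal (K * R) * xN D k F)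
    {D N k n r : ℕ} {ρ : ℝ} (F : List Bool → ℝ≥0∞) (hD : 2 ^ (k + 4) ≤ D) (hρ : 1 ≤ ρ)
    (hN : UU N ≤ ρ * Ub k) {X P : List Bool} (hX : X ∈ Brd n) (hP : P ∈ Irr r)
    (A : ℕ → ℕ → List Bool → Set (List Bool))
    (hA : ∀ v r2 P2, A v r2 P2 ⊆ {Q | Q ∈ BU ∧ ∃ V ∈ Brd v, X ++ (P ++ (V ++ (P2 ++ Q))) ∈ BrR D N}) :
    ∑' v : ℕ, gf (Brd v) * ∑' r2 : ℕ, mu k (n + r + v) r2 * sw (Irr r2) (fun P2 =>
      sw (A v r2 P2) (fun Q => hat D F (P2 ++ Q))) ≤
      ENNReal.ofReal (2 * Ub k) * (ENNReal.ofReal (K * ρ) * xN D k F) := by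
  have h1 : ∀ v : ℕ, gf (Brd v) * ∑' r2 : ℕ, mu k (n + r + v) r2 * sw (Irr r2) (fun P2 =>
      sw (A v r2 P2) (fun Q => hat D F (P2 ++ Q))) ≤
      if v < 2 ^ (k + 1) then gf (Brd v) * (ENNReal.ofReal (K * ρ) * xN D k F) else 0 := by
    intro v
    split_ifs with hv
    · refine mul_le_mul_right ?_ _
      refine le_trans (ENNReal.tsum_le_tsum fun r2 => mul_le_mul_right (Rec8.sw_mono' fun P2 _ =>
        Rec8.sw_mono ?_ fun Q _ => le_refl _) _) (hK D N k (n + r + v) ρ F hD hρ hN)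
      intro Q hQ
      obtain ⟨h2, V, hV, h3⟩ := hA v r2 P2 hQ
      refine ⟨h2, X ++ (P ++ V), ?_, ?_⟩
      · have h4 := Brd_append hX (Brd_append hP.1 hV)
        rwa [← Nat.add_assoc] at h4
      · simpa only [List.append_assoc] using h3
    · have h2 : ∀ r2 : ℕ, mu k (n + r + v) r2 * sw (Irr r2) (fun P2 =>
          sw (A v r2 P2) (fun Q => hat D F (P2 ++ Q))) = 0 := by
        intro r2
        rw [mu_eq_zero (by omega), zero_mul]
      rw [ENNReal.tsum_eq_zero.2 h2, mul_zero]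
  refine (ENNReal.tsum_le_tsum h1).trans ?_
  rw [tsum_eq_sum (s := range (2 ^ (k + 1))) (by
    intro v hv
    rw [Finset.mem_range] at hv
    rw [if_neg hv]), Finset.sum_congr rfl (fun v hv => if_pos (Finset.mem_range.1 hv)), ← Finset.sum_mul]
  exact mul_le_mul_left (TN7d_sum k) _

/-- opU_le, R_KRel, fold_sum with w = mu j1, k1 at j1; the sum of gf (Brd v) over v < 2^(k+1) (mu_eq_zero), tail_le -/
theorem norm_U (h : Inp C δ) : ∃ K : ℝ, 1 ≤ K ∧ ∀ (D N k j1 j3 : ℕ) (R : List Bool → List Bool → Prop) (ρ : ℝ)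
    (F : List Bool → ℝ≥0∞), (∀ g g', R g g' → ∃ c : Bool, Nb g ((!c) :: c :: g')) → 2 ^ (k + 4) ≤ D → 1 ≤ ρ →
    UU N ≤ ρ * Ub k → j1 + 3 ≤ k →
    xN D k (opU D N k j1 j3 R F) ≤ ENNReal.ofReal (K * ρ * (Ub k / Ub j1)) * xN D k F := by
  obtain ⟨K1, hK1, h1⟩ := k1 h
  obtain ⟨K2, hK2, h2⟩ := tail_le h
  refine ⟨32 * K2 * K1, by nlinarith, ?_⟩
  intro D N k j1 j3 R ρ F hR hD hρ hN hj
  set T : ℝ≥0∞ := ENNReal.ofReal (2 * Ub k) * (ENNReal.ofReal (K2 * ρ) * xN D k F) with hT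
  refine xN_le fun b I hb hI => ?_
  obtain ⟨ri, hI⟩ := hI
  -- the bound of the functional behind M
  have key : ∀ M ∈ Fld.BrB b, hat D (opU D N k j1 j3 R F) (I ++ M) ≤
      ∑' n : ℕ, ∑' r : ℕ, mu j1 n r * sw (Brd n) (fun X =>
        sw {P | P ∈ Irr r ∧ ∃ c : Bool, KRel D I P M ((!c) :: c :: X)} (fun _ => T)) := by
    intro M hM
    obtain ⟨m, -, hM⟩ := hM
    unfold hat
    refine iSup_le fun Z => ?_
    obtain ⟨Z, ⟨z, hZ⟩, hZH⟩ := Z
    refine (opU_le D N k j1 j3 R F (Z ++ (I ++ M))).trans ?_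
    refine ENNReal.tsum_le_tsum fun n => ENNReal.tsum_le_tsum fun r => mul_le_mul_right ?_ _
    refine Rec8.sw_mono' fun X hX => ?_
    classical
    rw [Rec8.sw_and]
    refine Rec8.sw_mono' fun P hP => ?_
    split_ifs with hc
    · exact TN7d_inner h2 F hD hρ hN hX hP (fun v r2 P2 => {Q | Q ∈ BU ∧ ∃ V ∈ Brd v,
        X ++ (P ++ (V ++ (P2 ++ Q))) ∈ BrR D N ∧ R (Z ++ (I ++ M)) (X ++ (P ++ (V ++ (P2 ++ Q))))})
        (fun v r2 P2 Q hQ => ⟨hQ.1, hQ.2.choose, hQ.2.choose_spec.1, hQ.2.choose_spec.2.1⟩)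
    · have hz : ∀ v : ℕ, gf (Brd v) * ∑' r2 : ℕ, mu k (n + r + v) r2 * sw (Irr r2) (fun P2 =>
          sw {Q | Q ∈ BU ∧ ∃ V ∈ Brd v, X ++ (P ++ (V ++ (P2 ++ Q))) ∈ BrR D N ∧
            R (Z ++ (I ++ M)) (X ++ (P ++ (V ++ (P2 ++ Q))))} (fun Q => hat D F (P2 ++ Q))) = 0 := by
        intro v
        have hz2 : ∀ r2 : ℕ, mu k (n + r + v) r2 * sw (Irr r2) (fun P2 =>
          sw {Q | Q ∈ BU ∧ ∃ V ∈ Brd v, X ++ (P ++ (V ++ (P2 ++ Q))) ∈ BrR D N ∧
            R (Z ++ (I ++ M)) (X ++ (P ++ (V ++ (P2 ++ Q))))} (fun Q => hat D F (P2 ++ Q))) = 0 := by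
          intro r2
          have hz3 : ∀ P2 ∈ Irr r2, sw {Q | Q ∈ BU ∧ ∃ V ∈ Brd v, X ++ (P ++ (V ++ (P2 ++ Q))) ∈ BrR D N ∧
              R (Z ++ (I ++ M)) (X ++ (P ++ (V ++ (P2 ++ Q))))} (fun Q => hat D F (P2 ++ Q)) = 0 := by
            intro P2 hP2
            have he : {Q | Q ∈ BU ∧ ∃ V ∈ Brd v, X ++ (P ++ (V ++ (P2 ++ Q))) ∈ BrR D N ∧
                R (Z ++ (I ++ M)) (X ++ (P ++ (V ++ (P2 ++ Q))))} = (∅ : Set (List Bool)) := by
              rw [Set.eq_empty_iff_forall_notMem]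
              rintro Q ⟨⟨q, hQ⟩, V, hV, ⟨h', hh1, -, hh2⟩, hRR⟩
              exact hc (R_KRel hR hZ hI.1 hM hX hP.1 (Brd_append hV (Brd_append hP2.1 hQ)) hZH
                ⟨h', hh1, hh2⟩ hRR)
            rw [he]
            unfold sw
            exact tsum_empty
          rw [Rec8.sw_congr hz3, Rec8.sw_zero, mul_zero]
        rw [ENNReal.tsum_eq_zero.2 hz2, mul_zero]
      exact le_of_eq (ENNReal.tsum_eq_zero.2 hz)
  have s1 : Psi D (opU D N k j1 j3 R F) b I ≤ 16 * ∑ a ∈ range (j1 + 2), ∑' r : ℕ, mb j1 a r *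
      sw (Irr r) (fun P => KT D b I a P * T) :=
    (Rec8.sw_mono' key).trans (fold_sum D b j1 I (fun n r => mu j1 n r) (fun a r => mb j1 a r)
      (fun a n r => mu_le_mb) (fun n r hn => mu_eq_zero hn) (fun a r => mb_mono (Nat.le_succ a) r)
      (fun _ _ => T))
  have s2 : ∀ a : ℕ, ∑' r : ℕ, mb j1 a r * sw (Irr r) (fun P => KT D b I a P * T) =
      pm j1 a (fun P => KT D b I a P) * T := by
    intro a
    unfold pm
    rw [← ENNReal.tsum_mul_right]
    refine tsum_congr fun r => ?_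
    rw [Rec8.sw_mul_right, mul_assoc]
  rw [Finset.sum_congr rfl fun a _ => s2 a, ← Finset.sum_mul] at s1
  have s3 := h1 D k j1 b I hD (by omega) hb
  refine s1.trans ?_
  have hUk := Ub_pos k
  have hUj := Ub_pos j1
  have e1 : ENNReal.ofReal (32 * K2 * K1 * ρ * (Ub k / Ub j1)) =
      16 * (ENNReal.ofReal (K1 / Ub j1) * (ENNReal.ofReal (2 * Ub k) * ENNReal.ofReal (K2 * ρ))) := by
    have e16 : (16 : ℝ≥0∞) = ENNReal.ofReal 16 := by norm_num
    rw [e16, ← ENNReal.ofReal_mul (by positivity), ← ENNReal.ofReal_mul (by positivity),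
      ← ENNReal.ofReal_mul (by norm_num)]
    congr 1
    field_simp
    ring
  rw [e1]
  calc 16 * ((∑ a ∈ range (j1 + 2), pm j1 a (fun P => KT D b I a P)) * T)
      ≤ 16 * ((ENNReal.ofReal (K1 / Ub j1) * Sw D k b I) * T) :=
        mul_le_mul_right (mul_le_mul_left s3 _) _
    _ = _ := by
        rw [hT]
        ring

/-- everything together; the norm x may be used as a black box -/
theorem normS (h1 : CUH) (h2 : TEF) : ∃ K c : ℝ, 1 ≤ K ∧ 0 < c ∧ ∀ (D N k : ℕ) (R : List Bool → List Bool → Prop)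
    (ρ : ℝ), (∀ g g', R g g' → ∃ c : Bool, Nb g ((!c) :: c :: g')) → 2 ^ (k + 4) ≤ D → 1 ≤ ρ → UU N ≤ ρ * Ub k →
    ∃ x : (List Bool → ℝ≥0∞) → ℝ≥0∞,
      (∀ F G, (∀ g, F g ≤ G g) → x F ≤ x G) ∧
      (∀ F G, x (fun g => F g + G g) ≤ x F + x G) ∧
      (∀ (a : ℝ≥0∞) F, x (fun g => a * F g) ≤ a * x F) ∧
      x (fun _ => 1) ≤ ENNReal.ofReal K ∧
      (∀ F, sB (BrR D N) (fun g => wE g * F g) ≤ ENNReal.ofReal (K * UU N) * x F) ∧
      (∀ F, x (opA D N R F) ≤ ENNReal.ofReal (K * ρ) * x F) ∧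
      (∀ j1 j3 F, j1 + 3 ≤ k → j3 ≤ j1 → x (opB D N k j1 j3 R F) ≤
        ENNReal.ofReal (K * ρ * ((2 : ℝ) ^ (-(c * ((k : ℝ) - j1))) + Ub j3 / Ub j1)) * x F) ∧
      (∀ j1 j3 F, j1 + 3 ≤ k → x (opU D N k j1 j3 R F) ≤
        ENNReal.ofReal (K * ρ * (Ub k / Ub j1)) * x F) := by
  obtain ⟨C, δ, h⟩ := inp_of h1 h2
  obtain ⟨K1, hK1, t1⟩ := total h
  obtain ⟨K2, hK2, t2⟩ := norm_A h
  obtain ⟨K3, c, hK3, hc, t3⟩ := norm_B h
  obtain ⟨K4, hK4, t4⟩ := norm_U h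
  refine ⟨K1 + K2 + K3 + K4, c, by linarith, hc, ?_⟩
  intro D N k R ρ hR hD hρ hN
  have hUN : 0 ≤ UU N := Finset.sum_nonneg fun i _ => ENNReal.toReal_nonneg
  refine ⟨xN D k, fun F G => xN_mono, xN_add D k, xN_smul D k, ?_, ?_, ?_, ?_, ?_⟩
  · refine (xN_one D k).trans ?_
    have e2 : (2 : ℝ≥0∞) = ENNReal.ofReal 2 := by norm_num
    rw [e2]
    exact ENNReal.ofReal_le_ofReal (by linarith)
  · intro F
    refine (t1 D N k F hD).trans (mul_le_mul_left (ENNReal.ofReal_le_ofReal ?_) _)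
    exact mul_le_mul_of_nonneg_right (by linarith) hUN
  · intro F
    refine (t2 D N k R ρ F hR hD hρ hN).trans (mul_le_mul_left (ENNReal.ofReal_le_ofReal ?_) _)
    exact mul_le_mul_of_nonneg_right (by linarith) (by linarith)
  · intro j1 j3 F hj hj3
    refine (t3 D N k j1 j3 R ρ F hR hD hρ hN hj hj3).trans
      (mul_le_mul_left (ENNReal.ofReal_le_ofReal ?_) _)
    have hU1 := Ub_pos j1
    have hU3 := Ub_pos j3
    have h3 : 0 ≤ (2 : ℝ) ^ (-(c * ((k : ℝ) - j1))) + Ub j3 / Ub j1 := by positivity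
    exact mul_le_mul_of_nonneg_right (mul_le_mul_of_nonneg_right (by linarith) (by linarith)) h3
  · intro j1 j3 F hj
    refine (t4 D N k j1 j3 R ρ F hR hD hρ hN hj).trans
      (mul_le_mul_left (ENNReal.ofReal_le_ofReal ?_) _)
    have hU1 := Ub_pos j1
    have hUk := Ub_pos k
    have h3 : 0 ≤ Ub k / Ub j1 := by positivity
    exact mul_le_mul_of_nonneg_right (mul_le_mul_of_nonneg_right (by linarith) (by linarith)) h3

end TS

end HexObs
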